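import Pool.Agent.H75.CO.Defs
import Mathlib.Order.SuccPred.LinearLocallyFinite

/-!
# [H75 CO Enu] enumerations of discrete periodic sets of real numbers

`exists_en`: `P` is not empty, `P + 1 = P` and different points have distance greater than `c > 0`, so every bounded interval
contains finitely many points, and every interval `(T, T + 1]` contains one. Let `succ x` be the least point greater than `x`,
`pred x` the greatest one less than `x`, `x₀` the greatest point `≤ T`, and `p i` the iterates (or: `P` is a locally finite linear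
order without endpoints, `orderIsoIntOfLinearSuccPredArch`, shifted). `En.lower`: `p 0 + 1 ∈ P` and `p 0 < p 0 + 1`, so
`p 1 ≤ p 0 + 1`, thus `T - 1 < p 0`. `En.step`: `p (i + 1) ≤ p i + 1`. `En.pos`: induction.
`en_shift`: for `i : ℤ` there is by (h2) `φ i` with `|p' i - p (φ i) - μ| ≤ η`; it is unique (`4 η < c`), `φ` is strictly monotone
(the `p' i` are more than `4 η` apart) and surjective by (h1). So `φ (i + 1) = φ i + 1` and `φ i = i + δ`. `|δ| c ≤ |p δ - p 0|` (points are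
more than `c` apart) and `|p δ - p 0| ≤ |p δ + μ - p' 0| + |μ| + |p' 0 - p 0| ≤ η + |μ| + 1`.
-/

set_option autoImplicit false

namespace Pool.Agent.H75.CO

private theorem per_int {P : Set ℝ} (hper : ∀ x, x + 1 ∈ P ↔ x ∈ P) (x : ℝ) (hx : x ∈ P) (k : ℤ) : x + k ∈ P := by
  induction k using Int.induction_on with
  | zero => rw [Int.cast_zero, add_zero]; exact hx
  | succ i ih =>
    have h1 : x + (((i : ℤ) + 1 : ℤ) : ℝ) = (x + ((i : ℤ) : ℝ)) + 1 := by push_cast; ring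
    rw [h1]
    exact (hper _).2 ih
  | pred i ih =>
    have h1 : (x + ((-(i : ℤ) - 1 : ℤ) : ℝ)) + 1 = x + ((-(i : ℤ) : ℤ) : ℝ) := by push_cast; ring
    have h2 := hper (x + ((-(i : ℤ) - 1 : ℤ) : ℝ))
    rw [h1] at h2
    exact h2.1 ih

private theorem fin_Icc {P : Set ℝ} {c : ℝ} (hc : 0 < c) (hsep : ∀ x ∈ P, ∀ y ∈ P, x < y → x + c < y) (a b : P) :
    (Set.Icc a b).Finite := by
  have hinj : Set.InjOn (fun x : P => ⌊(x : ℝ) / c⌋) (Set.Icc a b) := by
    have key : ∀ x y : P, (x : ℝ) < y → ⌊(x : ℝ) / c⌋ < ⌊(y : ℝ) / c⌋ := by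
      intro x y hxy
      have h1 := hsep x x.2 y y.2 hxy
      have h2 : (x : ℝ) / c + 1 < (y : ℝ) / c := by
        have h3 : ((x : ℝ) + c) / c < (y : ℝ) / c := by
          exact div_lt_div_of_pos_right h1 hc
        rwa [add_div, div_self hc.ne'] at h3
      have h4 : ⌊(x : ℝ) / c⌋ + 1 ≤ ⌊(y : ℝ) / c⌋ := by
        refine Int.le_floor.2 ?_
        push_cast
        have h5 := Int.floor_le ((x : ℝ) / c)
        linarith
      linarith
    intro x _ y _ hxy
    have hxy' : ⌊(x : ℝ) / c⌋ = ⌊(y : ℝ) / c⌋ := hxy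
    rcases lt_trichotomy (x : ℝ) (y : ℝ) with h | h | h
    · have := key x y h
      omega
    · exact Subtype.ext h
    · have := key y x h
      omega
  refine Set.Finite.of_finite_image ?_ hinj
  refine (Set.finite_Icc ⌊(a : ℝ) / c⌋ ⌊(b : ℝ) / c⌋).subset ?_
  rintro _ ⟨x, hx, rfl⟩
  have h1 : (a : ℝ) ≤ x := hx.1
  have h2 : (x : ℝ) ≤ b := hx.2
  exact ⟨Int.floor_le_floor (div_le_div_of_nonneg_right h1 hc.le),
    Int.floor_le_floor (div_le_div_of_nonneg_right h2 hc.le)⟩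

private theorem exists_int {P : Set ℝ} {c : ℝ} (hc : 0 < c) (hsep : ∀ x ∈ P, ∀ y ∈ P, x < y → x + c < y)
    (hper : ∀ x, x + 1 ∈ P ↔ x ∈ P) (hne : P.Nonempty) : ∃ p : ℤ → ℝ, StrictMono p ∧ Set.range p = P := by
  classical
  have : LocallyFiniteOrder P := LocallyFiniteOrder.ofFiniteIcc (fin_Icc hc hsep)
  have : Nonempty P := hne.to_subtype
  have : NoMaxOrder P := ⟨fun x => ⟨⟨(x : ℝ) + 1, (hper x).2 x.2⟩, by
    show (x : ℝ) < (x : ℝ) + 1
    linarith⟩⟩
  have : NoMinOrder P := ⟨fun x => ⟨⟨(x : ℝ) - 1, (hper ((x : ℝ) - 1)).1 (by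
    rw [sub_add_cancel]
    exact x.2)⟩, by
    show (x : ℝ) - 1 < (x : ℝ)
    linarith⟩⟩
  let : SuccOrder P := LinearLocallyFiniteOrder.succOrder P
  let : PredOrder P := LinearLocallyFiniteOrder.predOrder P
  have : IsSuccArchimedean P := inferInstance
  let f : P ≃o ℤ := orderIsoIntOfLinearSuccPredArch
  refine ⟨fun i => (f.symm i : ℝ), ?_, ?_⟩
  · intro i j hij
    exact (f.symm.strictMono hij : f.symm i < f.symm j)
  · ext x
    constructor
    · rintro ⟨i, rfl⟩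
      exact (f.symm i).2
    · intro hx
      exact ⟨f ⟨x, hx⟩, by
        show ((f.symm (f ⟨x, hx⟩) : P) : ℝ) = x
        rw [OrderIso.symm_apply_apply]⟩

theorem exists_en {P : Set ℝ} {c : ℝ} (hc : 0 < c) (hsep : ∀ x ∈ P, ∀ y ∈ P, x < y → x + c < y)
    (hper : ∀ x, x + 1 ∈ P ↔ x ∈ P) (hne : P.Nonempty) (T : ℝ) : ∃ p : ℤ → ℝ, En P T p := by
  obtain ⟨p0, hmono, hrng⟩ := exists_int hc hsep hper hne
  obtain ⟨x, hx⟩ := hne
  have hlow : ∃ i, p0 i ≤ T := by
    have h1 : x + ((-⌈x - T⌉ : ℤ) : ℝ) ∈ P := per_int hper x hx _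
    rw [← hrng] at h1
    obtain ⟨i, hi⟩ := h1
    refine ⟨i, ?_⟩
    rw [hi]
    push_cast
    have := Int.le_ceil (x - T)
    linarith
  have hup : ∃ i, T < p0 i := by
    have h1 : x + ((⌊T - x⌋ + 1 : ℤ) : ℝ) ∈ P := per_int hper x hx _
    rw [← hrng] at h1
    obtain ⟨i, hi⟩ := h1
    refine ⟨i, ?_⟩
    rw [hi]
    push_cast
    have := Int.lt_floor_add_one (T - x)
    linarith
  obtain ⟨b, hb⟩ := hup
  obtain ⟨j, hj, hj'⟩ := Int.exists_greatest_of_bdd (P := fun i => p0 i ≤ T)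
    ⟨b, fun z hz => (hmono.lt_iff_lt.1 (lt_of_le_of_lt hz hb)).le⟩ hlow
  refine ⟨fun i => p0 (i + j), ?_, ?_, ?_, ?_⟩
  · intro i k hik
    exact hmono (by omega)
  · rw [← hrng]
    ext y
    constructor
    · rintro ⟨i, rfl⟩
      exact ⟨i + j, rfl⟩
    · rintro ⟨i, rfl⟩
      exact ⟨i - j, by
        show p0 (i - j + j) = p0 i
        rw [sub_add_cancel]⟩
  · show p0 (0 + j) ≤ T
    rw [zero_add]
    exact hj
  · show T < p0 (1 + j)
    by_contra hcon
    have := hj' (1 + j) (not_lt.1 hcon)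
    omega

private theorem En.step {P : Set ℝ} {T : ℝ} {p : ℤ → ℝ} (h : En P T p) (hper : ∀ x, x + 1 ∈ P ↔ x ∈ P) (i : ℤ) :
    p (i + 1) ≤ p i + 1 := by
  have h1 : p i ∈ P := by
    rw [← h.rng]
    exact ⟨i, rfl⟩
  have h2 : p i + 1 ∈ P := (hper _).2 h1
  rw [← h.rng] at h2
  obtain ⟨m, hm⟩ := h2
  rw [← hm]
  refine h.mono.monotone ?_
  have h3 : p i < p m := by
    rw [hm]
    linarith
  have h4 := h.mono.lt_iff_lt.1 h3
  omega

private theorem En.le_add {P : Set ℝ} {T : ℝ} {p : ℤ → ℝ} (h : En P T p) (hper : ∀ x, x + 1 ∈ P ↔ x ∈ P) (i : ℤ)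
    (m : ℕ) : p (i + m) ≤ p i + m := by
  induction m with
  | zero => simp
  | succ m ih =>
    have h1 := h.step hper (i + m)
    have h2 : i + ((m + 1 : ℕ) : ℤ) = i + (m : ℤ) + 1 := by push_cast; ring
    rw [h2]
    push_cast
    linarith

theorem En.lower {P : Set ℝ} {T : ℝ} {p : ℤ → ℝ} (h : En P T p) (hper : ∀ x, x + 1 ∈ P ↔ x ∈ P) : T - 1 < p 0 := by
  have h1 := h.step hper 0
  rw [zero_add] at h1
  have h2 := h.lt
  linarith

theorem En.pos {P : Set ℝ} {T : ℝ} {p : ℤ → ℝ} (h : En P T p) (hper : ∀ x, x + 1 ∈ P ↔ x ∈ P) (i : ℤ) :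
    |p i - T| ≤ |(i : ℝ)| + 1 := by
  have h0 := h.lower hper
  have hle := h.le
  rcases le_total 0 i with hi | hi
  · obtain ⟨m, rfl⟩ := Int.eq_ofNat_of_zero_le hi
    have h1 := h.le_add hper 0 m
    rw [zero_add] at h1
    have h2 : p 0 ≤ p (m : ℤ) := h.mono.monotone hi
    have h3 : (0 : ℝ) ≤ (m : ℝ) := Nat.cast_nonneg m
    rw [Int.cast_natCast, abs_of_nonneg h3, abs_le]
    constructor <;> linarith
  · obtain ⟨m, hm⟩ := Int.eq_ofNat_of_zero_le (neg_nonneg.2 hi)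
    have him : i = -(m : ℤ) := by omega
    subst him
    have h1 := h.le_add hper (-(m : ℤ)) m
    rw [neg_add_cancel] at h1
    have h2 : p (-(m : ℤ)) ≤ p 0 := h.mono.monotone hi
    have h3 : (0 : ℝ) ≤ (m : ℝ) := Nat.cast_nonneg m
    rw [Int.cast_neg, Int.cast_natCast, abs_neg, abs_of_nonneg h3, abs_le]
    constructor <;> linarith

private theorem En.ge_add {P : Set ℝ} {T c : ℝ} {p : ℤ → ℝ} (h : En P T p)
    (hsep : ∀ x ∈ P, ∀ y ∈ P, x < y → x + c < y) (i : ℤ) (m : ℕ) : p i + m * c ≤ p (i + m) := by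
  induction m with
  | zero => simp
  | succ m ih =>
    have h1 : p (i + m) ∈ P := by
      rw [← h.rng]
      exact ⟨_, rfl⟩
    have h2 : p (i + m + 1) ∈ P := by
      rw [← h.rng]
      exact ⟨_, rfl⟩
    have h3 : p (i + m) + c < p (i + m + 1) := hsep _ h1 _ h2 (h.mono (by omega))
    have h4 : i + ((m + 1 : ℕ) : ℤ) = i + (m : ℤ) + 1 := by push_cast; ring
    rw [h4]
    push_cast
    linarith

private theorem shift_aux {φ : ℤ → ℤ} (hφ : StrictMono φ) (hs : Function.Surjective φ) (i : ℤ) :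
    φ (i + 1) = φ i + 1 := by
  obtain ⟨k, hk⟩ := hs (φ i + 1)
  have h1 : i < k := hφ.lt_iff_lt.1 (by omega)
  have h2 : φ i < φ (i + 1) := hφ (by omega)
  have h3 : k ≤ i + 1 := hφ.le_iff_le.1 (by omega)
  have h4 : k = i + 1 := by omega
  rw [← h4, hk]

private theorem shift_all {φ : ℤ → ℤ} (hφ : StrictMono φ) (hs : Function.Surjective φ) (i : ℤ) :
    φ i = i + φ 0 := by
  induction i using Int.induction_on with
  | zero => rw [zero_add]
  | succ i ih => rw [shift_aux hφ hs, ih]; ring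
  | pred i ih =>
    have h1 := shift_aux hφ hs (-(i : ℤ) - 1)
    rw [sub_add_cancel, ih] at h1
    linarith

theorem en_shift {P P' : Set ℝ} {p p' : ℤ → ℝ} {T μ η c : ℝ} (hη : 0 ≤ η) (hc : 4 * η < c) (hη1 : η ≤ 1)
    (hsep : ∀ x ∈ P, ∀ y ∈ P, x < y → x + c < y) (hsep' : ∀ x ∈ P', ∀ y ∈ P', x < y → x + c < y)
    (hper : ∀ x, x + 1 ∈ P ↔ x ∈ P) (hper' : ∀ x, x + 1 ∈ P' ↔ x ∈ P') (h : En P T p) (h' : En P' T p')
    (h1 : ∀ x ∈ P, ∃ x' ∈ P', |x' - x - μ| ≤ η) (h2 : ∀ x' ∈ P', ∃ x ∈ P, |x' - x - μ| ≤ η) :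
    ∃ δ : ℤ, (∀ i, |p' i - p (i + δ) - μ| ≤ η) ∧ |(δ : ℝ)| * c ≤ |μ| + 2 := by
  have hcp : 0 < c := by linarith
  have hp : ∀ i, p i ∈ P := fun i => by
    rw [← h.rng]
    exact ⟨i, rfl⟩
  have hp' : ∀ i, p' i ∈ P' := fun i => by
    rw [← h'.rng]
    exact ⟨i, rfl⟩
  have hex : ∀ i, ∃ j, |p' i - p j - μ| ≤ η := by
    intro i
    obtain ⟨x, hx, hxi⟩ := h2 (p' i) (hp' i)
    rw [← h.rng] at hx
    obtain ⟨j, rfl⟩ := hx
    exact ⟨j, hxi⟩
  choose φ hφ using hex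
  have hmono : StrictMono φ := by
    intro i j hij
    have h3 : p' i + c < p' j := hsep' _ (hp' i) _ (hp' j) (h'.mono hij)
    have h4 := abs_le.1 (hφ i)
    have h5 := abs_le.1 (hφ j)
    refine h.mono.lt_iff_lt.1 ?_
    linarith [h4.1, h4.2, h5.1, h5.2]
  have hsurj : Function.Surjective φ := by
    intro m
    obtain ⟨x', hx', hxm⟩ := h1 (p m) (hp m)
    rw [← h'.rng] at hx'
    obtain ⟨i, rfl⟩ := hx'
    refine ⟨i, ?_⟩
    have h3 := abs_le.1 (hφ i)
    have h4 := abs_le.1 hxm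
    rcases lt_trichotomy (p (φ i)) (p m) with h5 | h5 | h5
    · have h6 := hsep _ (hp (φ i)) _ (hp m) h5
      linarith [h3.1, h3.2, h4.1, h4.2]
    · exact h.mono.injective h5
    · have h6 := hsep _ (hp m) _ (hp (φ i)) h5
      linarith [h3.1, h3.2, h4.1, h4.2]
  refine ⟨φ 0, fun i => ?_, ?_⟩
  · rw [← shift_all hmono hsurj i]
    exact hφ i
  · have h3 := abs_le.1 (hφ 0)
    have h4 := h.lower hper
    have h5 := h'.lower hper'
    have h6 := h.le
    have h7 := h'.le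
    have h8 : |p (φ 0) - p 0| ≤ |μ| + 2 := by
      have h9 := le_abs_self μ
      have h10 := neg_abs_le μ
      rw [abs_le]
      constructor <;> linarith [h3.1, h3.2]
    refine le_trans ?_ h8
    rcases le_total 0 (φ 0) with hi | hi
    · obtain ⟨m, hm⟩ := Int.eq_ofNat_of_zero_le hi
      have h9 := h.ge_add hsep 0 m
      rw [zero_add] at h9
      rw [hm, Int.cast_natCast, abs_of_nonneg (Nat.cast_nonneg m)]
      refine le_trans ?_ (le_abs_self _)
      linarith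
    · obtain ⟨m, hm⟩ := Int.eq_ofNat_of_zero_le (neg_nonneg.2 hi)
      have him : φ 0 = -(m : ℤ) := by omega
      have h9 := h.ge_add hsep (-(m : ℤ)) m
      rw [neg_add_cancel] at h9
      rw [him, Int.cast_neg, Int.cast_natCast, abs_neg, abs_of_nonneg (Nat.cast_nonneg m)]
      refine le_trans ?_ (neg_le_abs _)
      linarith

end Pool.Agent.H75.CO
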