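import Pool.Agent.H75.CO.Sgl

/-!
# [H75 CO Kap] the numbers `kap`

`kap_le_iff`: `kp_le_iff` for `P = sg π (La g) B k`: (h1) `exists_LM_le`, `sg_exh`; (h2) `La h ⊓ W ≠ ⊥` (`inf_LM_ne_bot`), take a nonzero
element and `sg_sep`. `kap_nonpos`: `La g ⊓ W ≤ bl (La g) 0 ≤ sg .. 0`. `kap_last`: `sg_last`; if `La g ⊓ W ≤ bl (La g) t` with `t < 0` then
`La g ⊓ W ≤ sh π 1 (La g)`, contradiction to `exists_prim`. `kap_mono`: `sg_anti`. `kap_lip`: `La (h s) ≤ sh π (-R m) (La h)` (`La_pow`), so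
`La (h s) ⊓ W ≤ sh π (-R m) (La h ⊓ W) ≤ sg .. (kap h + R m)` (`Nm.per`), and the same in the other direction.
-/

set_option autoImplicit false

namespace Pool.Agent.H75.CO

open Pool.Agent.H54.TT Pool.Agent.H98.RH Matrix
open scoped Pointwise

variable {K : Type} [Field K] {v : K → ℤ} {hv : IsDV v} {n : ℕ} {π : Kˣ} {G : Type} [Group G]
  {ρ : G →* GL (Fin n) K} {S : Set G} {R : ℕ}

private theorem kap_aux1 (hs : Stp hv π ρ S R) {B : ℝ → Lt hv n} (hB : Hn B) (W : Lt hv n) (k : Fin n) (g h : G) :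
    ∃ t, La hv ρ h ⊓ W ≤ sg π (La hv ρ g) B k t := by
  obtain ⟨t, ht⟩ := exists_LM_le (hv := hv) (ρ h) (sg_nm hs.unif hB (ρ g) k) (sg_exh hs.unif B (ρ g) k)
  exact ⟨t, inf_le_left.trans ht⟩

private theorem kap_aux2 (hs : Stp hv π ρ S R) {B : ℝ → Lt hv n} (hB : Hn B) {W : Lt hv n} (hW : IsSub W) (hne : W ≠ ⊥)
    (k : Fin n) (g h : G) : ∃ t, ¬ La hv ρ h ⊓ W ≤ sg π (La hv ρ g) B k t := by
  obtain ⟨x, hx, hx0⟩ := Submodule.exists_mem_ne_zero_of_ne_bot (inf_LM_ne_bot hs.unif hW hne (ρ h))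
  obtain ⟨t, ht⟩ := sg_sep hs.unif hB (ρ g) k hx0
  exact ⟨t, fun hle => ht (hle hx)⟩

theorem kap_le_iff (hs : Stp hv π ρ S R) {B : ℝ → Lt hv n} (hB : Hn B) {W : Lt hv n} (hW : IsSub W) (hne : W ≠ ⊥)
    (k : Fin n) (g h : G) (t : ℝ) : La hv ρ h ⊓ W ≤ sg π (La hv ρ g) B k t ↔ kap π ρ B W k g h ≤ t := by
  exact kp_le_iff (sg_nm hs.unif hB (ρ g) k) (kap_aux1 hs hB W k g h) (kap_aux2 hs hB hW hne k g h) t

theorem kap_nonpos (hs : Stp hv π ρ S R) {B : ℝ → Lt hv n} (hB : Hn B) {W : Lt hv n} (hW : IsSub W) (hne : W ≠ ⊥)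
    (k : Fin n) (g : G) : kap π ρ B W k g g ≤ 0 := by
  rw [← kap_le_iff hs hB hW hne]
  have h1 := bl_le_sg (π := π) (La hv ρ g) B k 0
  rw [bl_zero] at h1
  exact inf_le_left.trans h1

theorem kap_last (hs : Stp hv π ρ S R) {B : ℝ → Lt hv n} (hB : Hn B) {W : Lt hv n} (hW : IsSub W) (hne : W ≠ ⊥)
    {k : Fin n} (hk : (k : ℕ) + 1 = n) (g : G) : kap π ρ B W k g g = 0 := by
  refine le_antisymm (kap_nonpos hs hB hW hne k g) ?_
  by_contra hcon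
  have hlt : kap π ρ B W k g g < 0 := not_le.1 hcon
  have h1 : La hv ρ g ⊓ W ≤ sg π (La hv ρ g) B k (kap π ρ B W k g g) := (kap_le_iff hs hB hW hne k g g _).2 le_rfl
  have h2 : sg π (La hv ρ g) B k (kap π ρ B W k g g) = bl π (La hv ρ g) (kap π ρ B W k g g) :=
    sg_last hs.unif hB (ρ g) hk _
  rw [h2] at h1
  have h3 : ⌊kap π ρ B W k g g⌋ < 0 := Int.floor_lt.2 (by rw [Int.cast_zero]; exact hlt)
  exact exists_prim hs.unif hW hne (ρ g) (h1.trans (sh_anti hs.unif (by omega) (La hv ρ g)))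

theorem kap_mono (hs : Stp hv π ρ S R) {B : ℝ → Lt hv n} (hB : Hn B) {W : Lt hv n} (hW : IsSub W) (hne : W ≠ ⊥)
    {k k' : Fin n} (hk : k ≤ k') (g h : G) : kap π ρ B W k g h ≤ kap π ρ B W k' g h := by
  rw [← kap_le_iff hs hB hW hne]
  exact ((kap_le_iff hs hB hW hne k' g h _).2 le_rfl).trans (sg_anti hs.unif hB (ρ g) hk _)

theorem kap_lip (hs : Stp hv π ρ S R) {B : ℝ → Lt hv n} (hB : Hn B) {W : Lt hv n} (hW : IsSub W) (hne : W ≠ ⊥)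
    (k : Fin n) (g h : G) {m : ℕ} {s : G} (hsm : s ∈ S ^ m) :
    |kap π ρ B W k g (h * s) - kap π ρ B W k g h| ≤ R * m := by
  have key : ∀ h1 h2 : G, La hv ρ h2 ≤ sh π (-(R * m : ℕ)) (La hv ρ h1) →
      kap π ρ B W k g h2 ≤ kap π ρ B W k g h1 + R * m := by
    intro h1 h2 hle
    rw [← kap_le_iff hs hB hW hne]
    have e1 : La hv ρ h2 ⊓ W ≤ sh π (-(R * m : ℕ)) (La hv ρ h1 ⊓ W) := by
      rw [sh_inf, sh_sub hW]
      exact inf_le_inf_right W hle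
    have e2 : sh π (-(R * m : ℕ)) (La hv ρ h1 ⊓ W) ≤ sh π (-(R * m : ℕ)) (sg π (La hv ρ g) B k (kap π ρ B W k g h1)) :=
      sh_le_sh.2 ((kap_le_iff hs hB hW hne k g h1 _).2 le_rfl)
    have e3 : sg π (La hv ρ g) B k (kap π ρ B W k g h1 + ((R * m : ℕ) : ℤ)) =
        sh π (-((R * m : ℕ) : ℤ)) (sg π (La hv ρ g) B k (kap π ρ B W k g h1)) :=
      (sg_nm hs.unif hB (ρ g) k).per _ _
    have e4 : kap π ρ B W k g h1 + (((R * m : ℕ) : ℤ) : ℝ) = kap π ρ B W k g h1 + R * m := by push_cast; ring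
    rw [← e4, e3]
    exact e1.trans e2
  obtain ⟨h1, h2⟩ := La_pow hs h hsm
  have a1 := key h (h * s) h2
  have a2 := key (h * s) h h1
  rw [abs_le]
  constructor <;> linarith

end Pool.Agent.H75.CO
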