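import Pool.Agent.H75.CO.Sta
import Pool.Agent.H2.EX.Str
import Pool.Agent.H76.FL.Trm
import Pool.Agent.H10.CO.Inj
import Pool.Agent.H25.CO.Wk
import Pool.Agent.H54.CE.Equ
import Pool.Agent.H54.CE.Cnt

/-!
# [H75 CO Core] THEOREM LG, CORE: the final statements (interface)

`n > 0`, `Stp hv π ρ S R`, scales `Ln A c i = A ^ i * c` with `A = AA n R`, `i < NN n`; `c ≥ 1` is the radius of the windows.
For every regime (`r`, `d` with `Rg r d`), every `g : G` and every honest norm `B` (`Hn B`) there are the relations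
`St .. r d g B f` and `Wk .. r d g B f`: `f : (Fin (r + 1) → ℤ) → Lt hv n` is a strong resp. weak window at `(g, B)`.
The lattice of `g` is `La hv ρ g = ρ g O^n`, `G` acts on norms by `B ↦ fun t => mv (ρ h) (B t)` and on lattices by `mv (ρ h)`.
-/

set_option autoImplicit false

namespace Pool.Agent.H75.CO

open Pool.Agent.H54.TT Pool.Agent.H98.RH Matrix
open scoped Pointwise

variable {K : Type} [Field K] {v : K → ℤ} {hv : IsDV v} {π : Kˣ} {n : ℕ} {G : Type} [Group G]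
  {ρ : G →* GL (Fin n) K} {S : Set G} {R : ℕ}

/-- (C1) every honest norm has a strong window of some regime -/
theorem exists_strong (hn : 0 < n) (hs : Stp hv π ρ S R) {c : ℕ} (hc : 1 ≤ c) (g : G) {B : ℝ → Lt hv n} (hB : Hn B) :
    ∃ (r : ℕ) (d : ℕ → Dat n (NN n)) (f : (Fin (r + 1) → ℤ) → Lt hv n), Rg r d ∧ St π ρ S (AA n R) c r d g B f :=
  Pool.Agent.H2.EX.exists_strong hn hs hc g hB

/-- (C2) stability: a strong window `f` at `(g, B0)`; at `(g s, B)`, `B` close to `B0`, there is a weak window of the same regime,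
and every one is a shift of `f` -/
theorem stable (hn : 0 < n) (hs : Stp hv π ρ S R) {c : ℕ} (hc : 1 ≤ c) {r : ℕ} {d : ℕ → Dat n (NN n)} (hd : Rg r d)
    {g s : G} (hsS : s ∈ S) {B0 B : ℝ → Lt hv n} (hB0 : Hn B0) (hB : Hn B)
    (hcl : Cl π (La hv ρ g) B B0 (ep n) (Ln (AA n R) c (NN n))) {f : (Fin (r + 1) → ℤ) → Lt hv n}
    (hf : St π ρ S (AA n R) c r d g B0 f) :
    (∃ f', Wk π ρ S (AA n R) c r d (g * s) B f') ∧
      ∀ f' : (Fin (r + 1) → ℤ) → Lt hv n, Wk π ρ S (AA n R) c r d (g * s) B f' →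
        ∃ δ : Fin (r + 1) → ℤ, (∀ l, |δ l| ≤ RR n R) ∧
          ∀ i : Fin (r + 1) → ℤ, (∀ l, |i l| + RR n R ≤ c) → f' i = f (i + δ) :=
  stable' hn hs hc hd hsS hB0 hB hcl hf

/-- (C3) windows at `1` consist of values of lattice terms of bounded size -/
theorem weak_term (hn : 0 < n) (hs : Stp hv π ρ S R) {c : ℕ} (hc : 1 ≤ c) {r : ℕ} {d : ℕ → Dat n (NN n)} (hd : Rg r d)
    {B : ℝ → Lt hv n} (hB : Hn B) {f : (Fin (r + 1) → ℤ) → Lt hv n} (hf : Wk π ρ S (AA n R) c r d 1 B f)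
    {i : Fin (r + 1) → ℤ} (hi : ∀ l, |i l| ≤ c) :
    ∃ t ∈ TL S (Ln (AA n R) c (NN n)) (CC n R c) (JJ n), f i = ev hv π (fun g : G => ρ g) t :=
  Pool.Agent.H76.FL.weak_term hn hs hc hd hB hf hi

/-- (C4) windows are injective -/
theorem weak_inj (hn : 0 < n) (hs : Stp hv π ρ S R) {c : ℕ} (hc : 1 ≤ c) {r : ℕ} {d : ℕ → Dat n (NN n)} (hd : Rg r d)
    {g : G} {B : ℝ → Lt hv n} (hB : Hn B) {f : (Fin (r + 1) → ℤ) → Lt hv n} (hf : Wk π ρ S (AA n R) c r d g B f)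
    {i i' : Fin (r + 1) → ℤ} (hi : ∀ l, |i l| ≤ c) (hi' : ∀ l, |i' l| ≤ c) (h : f i = f i') : i = i' :=
  Pool.Agent.H10.CO.weak_inj' hn hs hc hd hB hf hi hi' h

/-- (C5) equivariance -/
theorem weak_equiv {A c N r : ℕ} {d : ℕ → Dat n N} (_hs : Stp hv π ρ S R) (h g : G) {B : ℝ → Lt hv n} (_hB : Hn B)
    {f : (Fin (r + 1) → ℤ) → Lt hv n} (hf : Wk π ρ S A c r d g B f) :
    Wk π ρ S A c r d (h * g) (fun t => mv (ρ h) (B t)) (fun i => mv (ρ h) (f i)) :=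
  Pool.Agent.H54.CE.weak_equiv h g hf

/-- (C5) equivariance for strong windows -/
theorem strong_equiv {A c N r : ℕ} {d : ℕ → Dat n N} (_hs : Stp hv π ρ S R) (h g : G) {B : ℝ → Lt hv n} (_hB : Hn B)
    {f : (Fin (r + 1) → ℤ) → Lt hv n} (hf : St π ρ S A c r d g B f) :
    St π ρ S A c r d (h * g) (fun t => mv (ρ h) (B t)) (fun i => mv (ρ h) (f i)) :=
  Pool.Agent.H54.CE.strong_equiv h g hf

/-- strong windows are weak windows -/
theorem St.wk (hn : 0 < n) (hs : Stp hv π ρ S R) {c : ℕ} (hc : 1 ≤ c) {r : ℕ} {d : ℕ → Dat n (NN n)} (hd : Rg r d)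
    {g : G} {B : ℝ → Lt hv n} (hB : Hn B) {f : (Fin (r + 1) → ℤ) → Lt hv n} (hf : St π ρ S (AA n R) c r d g B f) :
    Wk π ρ S (AA n R) c r d g B f :=
  Pool.Agent.H25.CO.St.wk hn hs hc hd hB hf

/-- the number of the terms -/
theorem TL_card {S : Set G} (hS : S.Finite) (m C j : ℕ) :
    (TL S m C j).Finite ∧ (TL S m C j).ncard ≤ (10 * (C + 1) * (S.ncard + 1) ^ m) ^ 3 ^ j :=
  Pool.Agent.H54.CE.TL_card hS m C j

end Pool.Agent.H75.CO
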