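import Pool.Agent.H75.CO.Blk

/-!
# [H75 CO Flt] comparison of flats, injectivity

`flat_le`: let `l ≤ r`, `X = l Γ + Γ / 2`, `x ∈ Φ l (q l) ⊓ bl M X`. By `hle` `x = y + z`, `y ∈ Φ' l (q' l)`, `z ∈ bl M (X - D)`, so
`y = x - z ∈ bl M X ≤ bl M' (X + R)`. By `gen` `y = y₁ + w`, `y₁ ∈ Φ' l (q' l) ⊓ bl M' (q' l + X0) ≤ Φ' l (q' l) ⊓ bl M' X`
(`q' l + X0 ≤ l Γ + C + X0 ≤ X`),
`w ∈ W' (l + 1)`, `w = y - y₁ ∈ bl M' (X + R)`. If `l = r` then `w = 0`. Otherwise `w ∈ W' (l + 1) ⊓ bl M' (X + R)`, and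
`X + R ≤ (l + 1) Γ - C ≤ q' (l + 1)`, so by `big` `w ∈ Φ' (l + 1) (q' (l + 1)) ⊓ bl M' ((l + 1) Γ + Γ / 2)`. Finally
`z ∈ bl M (X - D) ≤ bl M' (X - D + R)`, `X - D + R ≤ -C ≤ q' 0`, and `W' 0 = ⊤`: `z ∈ Φ' 0 (q' 0) ⊓ bl M' (Γ / 2)`.
`flat_inj`: `f q = ⨆ l, Φ l (q l) ⊓ bl M (l Γ + Γ / 2)`. If `f q ≤ f q'` then `Φ l (q l) ≤ Φ l (q' l)` for all `l ≤ r`:
(a) `f q' ≤ bl M (q' l) ⊔ Φ l (q' l)`, so `f q' ⊓ W l ≤ Φ l (q' l)` by modularity and `big`.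
(b) `Φ l (q l) ≤ (Φ l (q l) ⊓ bl M (q l + X0)) ⊔ W (l + 1)` (`gen`), the first part is in `f q ⊓ W l ≤ f q' ⊓ W l`.
-/

set_option autoImplicit false

namespace Pool.Agent.H75.CO

open Pool.Agent.H54.TT Pool.Agent.H98.RH Matrix

variable {K : Type} [Field K] {v : K → ℤ} {hv : IsDV v} {n : ℕ} {π : Kˣ}

theorem flat_le (hπ : v π = 1) {r : ℕ} {M M' : Lt hv n} {R : ℕ} (hM : M ≤ sh π (-R) M') {W' : ℕ → Lt hv n}
    {Φ Φ' : ℕ → ℝ → Lt hv n} {q q' : ℕ → ℝ} {Γ D X0 C : ℝ} (htop : W' 0 = ⊤) (hbot : W' (r + 1) = ⊥)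
    (hb : ∀ l, l ≤ r → Bk π M' (W' l) (W' (l + 1)) (Φ' l) X0) (hq' : ∀ l, l ≤ r → |q' l - l * Γ| ≤ C)
    (hle : ∀ l, l ≤ r → Φ l (q l) ⊓ bl π M (l * Γ + Γ / 2) ≤ Φ' l (q' l) ⊔ bl π M (l * Γ + Γ / 2 - D))
    (hX : 0 ≤ X0) (hC : 0 ≤ C) (hΓ : 2 * (C + X0 + R + 2) ≤ Γ) (hD : (r + 1) * Γ + C + R + 2 ≤ D) :
    (⨆ l : Fin (r + 1), Φ l (q l) ⊓ bl π M (l * Γ + Γ / 2)) ≤
      ⨆ l : Fin (r + 1), Φ' l (q' l) ⊓ bl π M' (l * Γ + Γ / 2) := by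
  have hR : (0 : ℝ) ≤ R := Nat.cast_nonneg R
  have hr : (0 : ℝ) ≤ r := Nat.cast_nonneg r
  have hΓ0 : 0 ≤ Γ := by linarith only [hΓ, hX, hC, hR]
  have hmem : ∀ l, l ≤ r → Φ' l (q' l) ⊓ bl π M' (l * Γ + Γ / 2) ≤
      ⨆ l : Fin (r + 1), Φ' l (q' l) ⊓ bl π M' (l * Γ + Γ / 2) := fun l hl =>
    le_iSup (fun l : Fin (r + 1) => Φ' l (q' l) ⊓ bl π M' (l * Γ + Γ / 2)) ⟨l, Nat.lt_succ_of_le hl⟩
  have hrD : (r + 1) * Γ = r * Γ + Γ := by ring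
  refine iSup_le ?_
  rintro ⟨l, hl1⟩ x hx
  have hl : l ≤ r := Nat.lt_succ_iff.1 hl1
  have hlr : (l : ℝ) * Γ ≤ r * Γ := mul_le_mul_of_nonneg_right (Nat.cast_le.2 hl) hΓ0
  have hrΓ : 0 ≤ (r : ℝ) * Γ := mul_nonneg hr hΓ0
  have hx' : x ∈ Φ l (q l) ⊓ bl π M (l * Γ + Γ / 2) := hx
  obtain ⟨y, hy, z, hz, rfl⟩ := Submodule.mem_sup.1 (hle l hl hx')
  have hz' : z ∈ bl π M (l * Γ + Γ / 2) := bl_mono hπ M (by linarith only [hD, hrD, hrΓ, hC, hR, hΓ0]) hz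
  have hy' : y ∈ bl π M' (l * Γ + Γ / 2 + R) :=
    bl_change hπ hM _ ((Submodule.add_mem_iff_left _ hz').1 hx'.2)
  obtain ⟨y1, hy1, w, hw, rfl⟩ := Submodule.mem_sup.1 ((hb l hl).gen _ hy)
  have hql := abs_le.1 (hq' l hl)
  have hy1' : y1 ∈ bl π M' (l * Γ + Γ / 2) := bl_mono hπ M' (by linarith only [hql.2, hΓ, hR]) hy1.2
  have hw' : w ∈ bl π M' (l * Γ + Γ / 2 + R) :=
    (Submodule.add_mem_iff_right _ (bl_mono hπ M' (by linarith only [hR]) hy1')).1 hy'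
  refine Submodule.add_mem _ (Submodule.add_mem _ (hmem l hl ⟨hy1.1, hy1'⟩) ?_) ?_
  · rcases Nat.eq_or_lt_of_le hl with h | h
    · rw [h, hbot, Submodule.mem_bot] at hw
      rw [hw]
      exact Submodule.zero_mem _
    · have hq1 := abs_le.1 (hq' (l + 1) h)
      have e : ((l + 1 : ℕ) : ℝ) * Γ = l * Γ + Γ := by push_cast; ring
      rw [e] at hq1
      refine hmem (l + 1) h ⟨(hb (l + 1) h).big _ ⟨hw, bl_mono hπ M' ?_ hw'⟩, bl_mono hπ M' ?_ hw'⟩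
      · linarith only [hq1.1, hΓ, hX]
      · rw [e]
        linarith only [hΓ, hX, hC, hR]
  · have hq0 := abs_le.1 (hq' 0 (Nat.zero_le r))
    have e : ((0 : ℕ) : ℝ) * Γ = 0 := by rw [Nat.cast_zero, zero_mul]
    rw [e, sub_zero] at hq0
    have hz2 := bl_change hπ hM _ hz
    refine hmem 0 (Nat.zero_le r) ⟨(hb 0 (Nat.zero_le r)).big _ ⟨?_, bl_mono hπ M' ?_ hz2⟩, bl_mono hπ M' ?_ hz2⟩
    · rw [htop]
      exact Submodule.mem_top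
    · linarith only [hq0.1, hD, hrD, hlr, hΓ0]
    · rw [e]
      linarith only [hD, hrD, hlr, hC, hΓ0]

theorem flat_inj (hπ : v π = 1) {r : ℕ} {M : Lt hv n} {W : ℕ → Lt hv n} {Φ : ℕ → ℝ → Lt hv n} {q q' : ℕ → ℝ}
    {Γ X0 C : ℝ} (hbot : W (r + 1) = ⊥) (hW : ∀ l, l ≤ r → W (l + 1) ≤ W l)
    (hb : ∀ l, l ≤ r → Bk π M (W l) (W (l + 1)) (Φ l) X0) (hq : ∀ l, l ≤ r → |q l - l * Γ| ≤ C)
    (hq' : ∀ l, l ≤ r → |q' l - l * Γ| ≤ C) (hX : 0 ≤ X0) (hC : 0 ≤ C) (hΓ : 2 * (C + X0 + 2) ≤ Γ)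
    (h : (⨆ l : Fin (r + 1), Φ l (q l) ⊓ bl π M (l * Γ + Γ / 2)) ≤
      ⨆ l : Fin (r + 1), Φ l (q' l) ⊓ bl π M (l * Γ + Γ / 2)) (l : ℕ) (hl : l ≤ r) : Φ l (q l) ≤ Φ l (q' l) := by
  have hΓ0 : 0 ≤ Γ := by linarith only [hΓ, hX, hC]
  have hanti : ∀ j, j ≤ r → l + 1 ≤ j → W j ≤ W (l + 1) := by
    intro j hj hlj
    induction j, hlj using Nat.le_induction with
    | base => exact le_rfl
    | succ m hm ih => exact (hW m (by omega)).trans (ih (by omega))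
  have hql := abs_le.1 (hq l hl)
  have hql' := abs_le.1 (hq' l hl)
  have h1 : (⨆ l : Fin (r + 1), Φ l (q' l) ⊓ bl π M (l * Γ + Γ / 2)) ≤ bl π M (q' l) ⊔ Φ l (q' l) := by
    refine iSup_le ?_
    rintro ⟨j, hj1⟩
    have hj : j ≤ r := Nat.lt_succ_iff.1 hj1
    show Φ j (q' j) ⊓ bl π M (j * Γ + Γ / 2) ≤ _
    rcases lt_trichotomy j l with hjl | hjl | hjl
    · refine inf_le_right.trans ((bl_mono hπ M ?_).trans le_sup_left)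
      have : ((j : ℝ) + 1) * Γ ≤ l * Γ := mul_le_mul_of_nonneg_right (by exact_mod_cast hjl) hΓ0
      have e : ((j : ℝ) + 1) * Γ = j * Γ + Γ := by ring
      linarith only [this, e, hql'.1, hΓ, hX]
    · rw [hjl]
      exact inf_le_left.trans le_sup_right
    · exact inf_le_left.trans (((hb j hj).le _).trans ((hanti j hj hjl).trans (((hb l hl).ge _).trans le_sup_right)))
  have h2 : (⨆ l : Fin (r + 1), Φ l (q' l) ⊓ bl π M (l * Γ + Γ / 2)) ⊓ W l ≤ Φ l (q' l) := by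
    rintro x ⟨hx1, hx2⟩
    obtain ⟨y, hy, z, hz, rfl⟩ := Submodule.mem_sup.1 (h1 hx1)
    have hzW : z ∈ W l := (hb l hl).le _ hz
    have hyW : y ∈ W l := (Submodule.add_mem_iff_left _ hzW).1 hx2
    exact Submodule.add_mem _ ((hb l hl).big _ ⟨hyW, hy⟩) hz
  refine ((hb l hl).gen _).trans (sup_le ?_ ((hb l hl).ge _))
  refine le_trans (le_inf (le_trans ?_ h) (inf_le_left.trans ((hb l hl).le _))) h2
  refine le_trans ?_ (le_iSup (fun l : Fin (r + 1) => Φ l (q l) ⊓ bl π M (l * Γ + Γ / 2)) ⟨l, Nat.lt_succ_of_le hl⟩)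
  exact inf_le_inf le_rfl (bl_mono hπ M (by linarith only [hql.2, hΓ]))

end Pool.Agent.H75.CO
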