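import Pool.Agent.H75.CO.Cmp

/-!
# [H75 CO Blk] the shape of a level

`Bk M W W1 Φ X0`: properties of the family `Φ` of balls of the shape of `W / W1`. `Il M Φ Φ' μ η X0 D`: `Φ t` is contained in
`Φ' (t + μ + η)` up to precision `D`.
`Fb_bk`: `nm`: `hl_nm`, `Nm.shift`, `Nm.iSup`, `nm_const`. `big`: the member `m = 0` is `W ⊓ bl (La g) t` (`hl_zero`). `gen`: every
`hl .. m .. (κ g + t - ε m) ≤ bl (La g) (t - ε m + 2 R m) ≤ bl (La g) (t + 2 R M)` (`hl_size`), so it is contained in `Φ t ⊓ bl ..`.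
`Fb_il`: let `x ∈ Φ t ⊓ bl (La g) X`, `x = Σ x_m + w`, `x_m ∈ hl g m W κ (κ g + t - ε m)`, `w ∈ W1`. All `x_m ∈ bl (La g) (t + 2 R M) ≤ bl (La g) X`, so
`w ∈ W1 ⊓ bl (La g) X ≤ W1' ⊔ bl (La g) (X - D)` (`Ap.scale`). For `m < M` by `hl_cmp`
`x_m ∈ hl g' (m + 1) W' κ' (κ g + t - ε m + l + e) ⊔ bl (La g) (t - ε m + 2 R m - D)`, and
`κ g + l + t - ε m + e = κ' g' + (t + μ + ε + e) - ε (m + 1)`, so the first part is in `Φ' (t + μ + ε + e)`. For `m = M`: let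
`X0 = t + 2 R M`, `q = ⌈X0⌉`: `π ^ q x_M ∈ La g ⊓ hl g M' W κ (κ g - T)`, `T = ε M - t + q ≤ ε M + 2 R M + 1 ≤ b` (`M ≤ M'`, `hl_mono`), so by (t2)
`x_M ∈ W1 ⊔ bl (La g) (a - T + q) = W1 ⊔ bl (La g) (a + t - ε M) ≤ W1 ⊔ bl (La g) t`: `x_M = w' + z'`, `z' = x_M - w' ∈ W ⊓ bl (La g) t`, which is
the member `m = 0` of `Φ t`, treated as before (`M ≥ 1`), and `w' = x_M - z' ∈ W1 ⊓ bl (La g) X`.
-/

set_option autoImplicit false

namespace Pool.Agent.H75.CO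

open Pool.Agent.H54.TT Pool.Agent.H98.RH Matrix
open scoped Pointwise

/-- the shape of a block `W / W1` -/
structure Bk {K : Type} [Field K] {v : K → ℤ} {hv : IsDV v} {n : ℕ} (π : Kˣ) (M W W1 : Lt hv n) (Φ : ℝ → Lt hv n)
    (X0 : ℝ) : Prop where
  nm : Nm π Φ
  le : ∀ t, Φ t ≤ W
  ge : ∀ t, W1 ≤ Φ t
  big : ∀ t, W ⊓ bl π M t ≤ Φ t
  gen : ∀ t, Φ t ≤ (Φ t ⊓ bl π M (t + X0)) ⊔ W1

/-- `Φ` is contained in the shift of `Φ'` by `μ` with error `η` -/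
def Il {K : Type} [Field K] {v : K → ℤ} {hv : IsDV v} {n : ℕ} (π : Kˣ) (M : Lt hv n) (Φ Φ' : ℝ → Lt hv n)
    (μ η X0 D : ℝ) : Prop :=
  ∀ t X : ℝ, t + X0 ≤ X → Φ t ⊓ bl π M X ≤ Φ' (t + μ + η) ⊔ bl π M (X - D)

variable {K : Type} [Field K] {v : K → ℤ} {hv : IsDV v} {n : ℕ} {π : Kˣ} {G : Type} [Group G]
  {ρ : G →* GL (Fin n) K} {S : Set G} {R : ℕ}

theorem Fb_bk (hs : Stp hv π ρ S R) {W W1 : Lt hv n} (hW : IsSub W) (hW1 : IsSub W1) (hle : W1 ≤ W) {κ : G → ℝ}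
    (hκ : Lp S R κ) {ε : ℝ} (hε : 0 ≤ ε) (g : G) (M : ℕ) :
    Bk π (La hv ρ g) W W1 (Fb π ρ S ε g M W W1 κ) (2 * R * M) := by
  have hR : (0 : ℝ) ≤ R := Nat.cast_nonneg R
  refine ⟨?_, ?_, ?_, ?_, ?_⟩
  · have h1 : ∀ m ∈ (↑(Finset.range (M + 1)) : Set ℕ), Nm π (fun t => hl π ρ S g m W κ (κ g + t - ε * m)) := by
      intro m _
      have e : (fun t => hl π ρ S g m W κ (κ g + t - ε * m)) = fun t => hl π ρ S g m W κ (t + (κ g - ε * m)) := by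
        funext t
        rw [show κ g + t - ε * m = t + (κ g - ε * m) by ring]
      rw [e]
      exact (hl_nm hs hW g m κ).shift _
    exact (Nm.iSup (Finset.finite_toSet _) h1).sup (nm_const hW1)
  · intro t
    exact sup_le (iSup₂_le fun m _ => hl_le g m W κ _) hle
  · intro t
    exact le_sup_right
  · intro t
    have h1 : W ⊓ bl π (La hv ρ g) t = hl π ρ S g 0 W κ (κ g + t - ε * (0 : ℕ)) := by
      rw [hl_zero, show κ g + t - ε * (0 : ℕ) - κ g = t by push_cast; ring]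
    rw [h1]
    exact le_sup_of_le_left (le_iSup₂_of_le (f := fun m (_ : m ∈ Finset.range (M + 1)) =>
      hl π ρ S g m W κ (κ g + t - ε * m)) 0 (Finset.mem_range.2 (Nat.succ_pos M)) le_rfl)
  · intro t
    refine sup_le (iSup₂_le fun m hm => le_sup_of_le_left (le_inf ?_ ?_)) le_sup_right
    · exact le_sup_of_le_left (le_iSup₂_of_le (f := fun m (_ : m ∈ Finset.range (M + 1)) =>
        hl π ρ S g m W κ (κ g + t - ε * m)) m hm le_rfl)
    · refine (hl_size hs hκ g m W _).trans (bl_mono hs.unif _ ?_)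
      have hm1 : (m : ℝ) ≤ M := by exact_mod_cast Nat.lt_succ_iff.1 (Finset.mem_range.1 hm)
      have h2 : 0 ≤ ε * (m : ℝ) := mul_nonneg hε (Nat.cast_nonneg m)
      have h3 : 2 * (R : ℝ) * m ≤ 2 * R * M := mul_le_mul_of_nonneg_left hm1 (by positivity)
      linarith

theorem Fb_il (hs : Stp hv π ρ S R) {D e l a b ε : ℝ} {M M' : ℕ} {g s : G} (hsS : s ∈ S) {W W' W1 W1' : Lt hv n}
    (hW : IsSub W) (hW' : IsSub W') (hW1 : IsSub W1) (hW1' : IsSub W1') (hle : W1 ≤ W) {κ κ' : G → ℝ} (hκ : Lp S R κ)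
    (he : 0 ≤ e) (hε : 0 ≤ ε) (h : Cm π ρ S D e l M g W W' κ κ') (hap : Ap π (La hv ρ g) D W1 W1') (hM : 1 ≤ M)
    (hMM : M ≤ M')
    (t2 : ∀ T : ℝ, T ≤ b → La hv ρ g ⊓ hl π ρ S g M' W κ (κ g - T) ≤ W1 ⊔ bl π (La hv ρ g) (a - T))
    (h1 : 2 * R * M ≤ D) (h2 : ε * M + 2 * R * M + 1 ≤ b) (h3 : a ≤ ε * M) :
    Il π (La hv ρ g) (Fb π ρ S ε g M W W1 κ) (Fb π ρ S ε (g * s) M W' W1' κ') (κ g + l - κ' (g * s)) (ε + e)
      (2 * R * M) D := by
  have hR : (0 : ℝ) ≤ R := Nat.cast_nonneg R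
  have hM0 : (0 : ℝ) ≤ M := Nat.cast_nonneg M
  intro t X hX
  have htX : t ≤ X := by
    have : 0 ≤ 2 * (R : ℝ) * M := by positivity
    linarith
  -- the target
  set Y : Lt hv n := Fb π ρ S ε (g * s) M W' W1' κ' (t + (κ g + l - κ' (g * s)) + (ε + e)) ⊔ bl π (La hv ρ g) (X - D)
    with hY
  -- the deep part
  have hdeep : W1 ⊓ bl π (La hv ρ g) X ≤ Y := by
    refine (hap.scale hs.unif hW1 hW1' X).trans ?_
    exact sup_le_sup_right le_sup_right _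
  -- the members with m < M
  have hmem : ∀ m : ℕ, m < M → hl π ρ S g m W κ (κ g + t - ε * m) ≤ Y := by
    intro m hm
    have hm1 : (m : ℝ) ≤ M := by exact_mod_cast hm.le
    have h3 : 2 * (R : ℝ) * m ≤ 2 * R * M := mul_le_mul_of_nonneg_left hm1 (by positivity)
    have hc : Cm π ρ S D e l m g W W' κ κ' := Cm.weak hs h le_rfl hm.le
    refine (hl_cmp hs hsS hW hW' hκ hc (h3.trans h1) _).trans (sup_le_sup ?_ (bl_mono hs.unif _ ?_))
    · have e1 : κ g + t - ε * m + l + e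
          = κ' (g * s) + (t + (κ g + l - κ' (g * s)) + (ε + e)) - ε * ((m + 1 : ℕ) : ℝ) := by
        push_cast
        ring
      rw [e1]
      exact le_sup_of_le_left (le_iSup₂_of_le (f := fun m (_ : m ∈ Finset.range (M + 1)) =>
        hl π ρ S (g * s) m W' κ' (κ' (g * s) + (t + (κ g + l - κ' (g * s)) + (ε + e)) - ε * m)) (m + 1)
        (Finset.mem_range.2 (by omega)) le_rfl)
    · have h4 : 0 ≤ ε * (m : ℝ) := mul_nonneg hε (Nat.cast_nonneg m)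
      linarith
  have hmem0 : W ⊓ bl π (La hv ρ g) t ≤ Y := by
    have h5 := hmem 0 hM
    rwa [hl_zero, show κ g + t - ε * (0 : ℕ) - κ g = t by push_cast; ring] at h5
  -- sizes
  have hsize : ∀ m : ℕ, m ≤ M → hl π ρ S g m W κ (κ g + t - ε * m) ≤ bl π (La hv ρ g) (t + 2 * R * M) := by
    intro m hm
    refine (hl_size hs hκ g m W _).trans (bl_mono hs.unif _ ?_)
    have hm1 : (m : ℝ) ≤ M := by exact_mod_cast hm
    have h2 : 0 ≤ ε * (m : ℝ) := mul_nonneg hε (Nat.cast_nonneg m)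
    have h3 : 2 * (R : ℝ) * m ≤ 2 * R * M := mul_le_mul_of_nonneg_left hm1 (by positivity)
    linarith
  -- the member m = M
  have hlast : hl π ρ S g M W κ (κ g + t - ε * M) ≤ Y := by
    have hT : ε * M - t + (⌈t + 2 * R * M⌉ : ℤ) ≤ b := by
      have := Int.ceil_lt_add_one (t + 2 * R * M)
      linarith
    have h5 := (sh_le_sh (π := π) (k := -(⌈t + 2 * R * M⌉ : ℤ))).2 (t2 _ hT)
    rw [sh_inf, sh_sup, sh_sub hW1, sh_bl, ← (hl_nm hs hW g M' κ).per, ← bl_int] at h5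
    have e1 : κ g - (ε * M - t + (⌈t + 2 * R * M⌉ : ℤ)) + (⌈t + 2 * R * M⌉ : ℤ) = κ g + t - ε * M := by ring
    have e2 : a - (ε * M - t + (⌈t + 2 * R * M⌉ : ℤ)) - ((-⌈t + 2 * R * M⌉ : ℤ) : ℝ) = a + t - ε * M := by
      push_cast
      ring
    rw [e1, e2] at h5
    have h6 : hl π ρ S g M W κ (κ g + t - ε * M) ≤ W1 ⊔ bl π (La hv ρ g) t := by
      refine le_trans (le_inf ((hsize M le_rfl).trans (bl_mono hs.unif _ (Int.le_ceil _))) (hl_mono hs g hMM W κ _))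
        (h5.trans (sup_le_sup_left (bl_mono hs.unif _ (by linarith)) _))
    have h7 : hl π ρ S g M W κ (κ g + t - ε * M) ≤ (W1 ⊔ bl π (La hv ρ g) t) ⊓ W := le_inf h6 (hl_le g M W κ _)
    rw [sup_inf_assoc_of_le _ hle] at h7
    have h8 : hl π ρ S g M W κ (κ g + t - ε * M) ≤ ((bl π (La hv ρ g) t ⊓ W) ⊔ W1) ⊓ bl π (La hv ρ g) X := by
      rw [sup_comm]
      exact le_inf h7 ((hsize M le_rfl).trans (bl_mono hs.unif _ hX))
    rw [sup_inf_assoc_of_le _ (inf_le_left.trans (bl_mono hs.unif _ htX))] at h8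
    refine h8.trans (sup_le ?_ hdeep)
    rw [inf_comm]
    exact hmem0
  -- conclusion
  have hall : ∀ m ∈ Finset.range (M + 1), hl π ρ S g m W κ (κ g + t - ε * m) ≤ Y := by
    intro m hm
    rcases Nat.lt_or_ge m M with h5 | h5
    · exact hmem m h5
    · have h6 : m = M := le_antisymm (Nat.lt_succ_iff.1 (Finset.mem_range.1 hm)) h5
      rw [h6]
      exact hlast
  have h9 : (⨆ m ∈ Finset.range (M + 1), hl π ρ S g m W κ (κ g + t - ε * m)) ≤ bl π (La hv ρ g) X :=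
    iSup₂_le fun m hm => (hsize m (Nat.lt_succ_iff.1 (Finset.mem_range.1 hm))).trans (bl_mono hs.unif _ hX)
  show ((⨆ m ∈ Finset.range (M + 1), hl π ρ S g m W κ (κ g + t - ε * m)) ⊔ W1) ⊓ bl π (La hv ρ g) X ≤ Y
  rw [sup_inf_assoc_of_le _ h9]
  exact sup_le (iSup₂_le hall) hdeep

end Pool.Agent.H75.CO
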