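import Pool.Agent.H75.CO.Ltc

/-!
# [H75 CO Adp] adapted bases

`Ad.nm`: from `Ad.mem`; `rc`: the condition is `⌈-t - β i⌉ ≤ v (x i)` for the finitely many `i`, and `⌈-t - β i⌉` is constant to the
right of `t`.
`ad_le`: `β k ≤ β' k + R`. Let `U` be the span over `K` of the `e i`, `i ≥ k`, and `U'` that of the `e' i`, `i ≤ k` (`n - k` and
`k + 1` vectors), so there is `x ≠ 0` in both. For every `s`: `x ∈ bl π M s` implies `x ∈ B (s - β k)` (coordinates `i ≥ k` only,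
`β i ≥ β k`), this implies `x ∈ bl π M' (s - β k + β' k)` (coordinates `i ≤ k` only, `β' i ≤ β' k`), so
`x ∈ bl π M (s - β k + β' k + R)` (`bl_change`). If `β k > β' k + R` then by iteration `x` is in `bl π M s` for arbitrarily small `s`, so
`x = 0` (`exists_not_mem_sh`). `bt_eq`: `ad_le` twice with `R = 0`.
`mem_sg`: write `y = e⁻¹ x`. `y` is a sum of `y'` with `v (y' i) ≥ -(t - β k) - β i` and `y''` with `v (y'' i) ≥ -⌊t⌋`, equivalently
`≥ -t`. For each `i` one of the two conditions is weaker than the other. `Hn.mv`: for the lattice of `h'` use the adapted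
basis `h * e` with `e` for `h⁻¹ * h'`.
-/

set_option autoImplicit false

namespace Pool.Agent.H75.CO

open Pool.Agent.H54.TT Pool.Agent.H98.RH Matrix

variable {K : Type} [Field K] {v : K → ℤ} {hv : IsDV v} {n : ℕ} {π : Kˣ}

private theorem geR_iff {r : ℝ} {x : K} : GeR v r x ↔ Ge v ⌈r⌉ x :=
  ⟨fun h hx => Int.ceil_le.2 (h hx), fun h hx => Int.ceil_le.1 (h hx)⟩

private theorem geR_mono {r s : ℝ} {x : K} (h : GeR v r x) (hs : s ≤ r) : GeR v s x := fun hx => hs.trans (h hx)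

private theorem geR_add (hv : IsDV v) {r : ℝ} {x y : K} (hx : GeR v r x) (hy : GeR v r y) : GeR v r (x + y) :=
  geR_iff.2 (ge_add hv (geR_iff.1 hx) (geR_iff.1 hy))

private theorem geR_zero (r : ℝ) : GeR v r (0 : K) := fun h => absurd rfl h

private theorem v_npow (hv : IsDV v) {x : K} (hx : x ≠ 0) (m : ℕ) : v (x ^ m) = m * v x := by
  induction m with
  | zero =>
    rw [pow_zero, hv.one]
    simp
  | succ m ih =>
    rw [pow_succ, hv.mul _ _ (pow_ne_zero _ hx) hx, ih]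
    push_cast
    ring

private theorem v_unif (hv : IsDV v) (hπ : v π = 1) (k : ℤ) : v ((π ^ k : Kˣ) : K) = k := by
  have hp : (π : K) ≠ 0 := π.ne_zero
  rw [Units.val_zpow_eq_zpow_val]
  obtain ⟨m, rfl | rfl⟩ := Int.eq_nat_or_neg k
  · rw [zpow_natCast, v_npow hv hp, hπ, mul_one]
  · rw [_root_.zpow_neg, zpow_natCast, hv.inv (pow_ne_zero _ hp), v_npow hv hp, hπ, mul_one]

private theorem geR_unif (hv : IsDV v) (hπ : v π = 1) (k : ℤ) {r : ℝ} {y : K} :
    GeR v r (((π ^ k : Kˣ) : K) * y) ↔ GeR v (r - k) y := by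
  have hu : ((π ^ k : Kˣ) : K) ≠ 0 := (π ^ k).ne_zero
  constructor
  · intro h hy
    have h1 := h (mul_ne_zero hu hy)
    rw [hv.mul _ _ hu hy, v_unif hv hπ] at h1
    push_cast at h1
    linarith
  · intro h hy
    have hy' := right_ne_zero_of_mul hy
    have h1 := h hy'
    rw [hv.mul _ _ hu hy', v_unif hv hπ]
    push_cast
    linarith

private theorem exists_lt_all {m : ℕ} (t : ℝ) (a : Fin m → ℝ) (h : ∀ i, t < a i) : ∃ s, t < s ∧ ∀ i, s < a i := by
  rcases isEmpty_or_nonempty (Fin m) with h0 | h0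
  · exact ⟨t + 1, by linarith, fun i => (h0.false i).elim⟩
  · obtain ⟨i0, hi0⟩ := Finite.exists_min a
    refine ⟨(t + a i0) / 2, by linarith [h i0], fun i => ?_⟩
    linarith [h i0, hi0 i]

private theorem mul_inv_vec (e : GL (Fin n) K) (x : Fin n → K) : e.val *ᵥ ((e⁻¹ : GL (Fin n) K).val *ᵥ x) = x := by
  rw [Matrix.mulVec_mulVec, ← Units.val_mul, mul_inv_cancel, Units.val_one, Matrix.one_mulVec]

private theorem inv_mul_vec (e : GL (Fin n) K) (x : Fin n → K) : (e⁻¹ : GL (Fin n) K).val *ᵥ (e.val *ᵥ x) = x := by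
  rw [Matrix.mulVec_mulVec, ← Units.val_mul, inv_mul_cancel, Units.val_one, Matrix.one_mulVec]

private theorem mem_bl_ad (hπ : v π = 1) {B : ℝ → Lt hv n} {M : Lt hv n} {e : GL (Fin n) K} {β : Fin n → ℝ}
    (h : Ad B M e β) (t : ℝ) (x : Fin n → K) :
    x ∈ bl π M t ↔ ∀ i, GeR v (-t) (((e⁻¹ : GL (Fin n) K).val *ᵥ x) i) := by
  rw [← h.lat]
  show x ∈ sh π (-⌊t⌋) (LM hv e) ↔ _
  rw [mem_sh_LM hπ]
  refine forall_congr' fun i => ?_
  rw [geR_iff, Int.ceil_neg]

theorem Ad.nm (hπ : v π = 1) {B : ℝ → Lt hv n} {M : Lt hv n} {e : GL (Fin n) K} {β : Fin n → ℝ} (h : Ad B M e β) :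
    Nm π B := by
  refine ⟨?_, ?_, ?_⟩
  · intro s t hst x hx
    rw [h.mem] at hx ⊢
    intro i
    exact geR_mono (hx i) (by linarith)
  · intro t k
    ext x
    rw [mem_sh, neg_neg, h.mem, h.mem]
    refine forall_congr' fun i => ?_
    rw [Matrix.mulVec_smul, Pi.smul_apply, smul_eq_mul, geR_unif hv hπ]
    have e : -(t + k) - β i = -t - β i - k := by ring
    rw [e]
  · intro t
    obtain ⟨s, hts, hs⟩ := exists_lt_all t (fun i => 1 - (⌈-t - β i⌉ : ℝ) - β i) (fun i => by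
      have := Int.ceil_lt_add_one (-t - β i)
      show t < 1 - (⌈-t - β i⌉ : ℝ) - β i
      linarith)
    refine ⟨s, hts, ?_⟩
    ext x
    rw [h.mem, h.mem]
    refine forall_congr' fun i => ?_
    have e : ⌈-s - β i⌉ = ⌈-t - β i⌉ := by
      refine le_antisymm (Int.ceil_mono (by linarith)) ?_
      have h1 : s < 1 - (⌈-t - β i⌉ : ℝ) - β i := hs i
      have h2 : (⌈-t - β i⌉ : ℝ) < (⌈-s - β i⌉ : ℝ) + 1 := by
        have := Int.le_ceil (-s - β i)
        linarith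
      have h3 : ⌈-t - β i⌉ < ⌈-s - β i⌉ + 1 := by exact_mod_cast h2
      omega
    rw [geR_iff, geR_iff, e]

theorem Ad.exh {B : ℝ → Lt hv n} {M : Lt hv n} {e : GL (Fin n) K} {β : Fin n → ℝ} (h : Ad B M e β) (x : Fin n → K) :
    ∃ t, x ∈ B t := by
  refine ⟨∑ i, |β i + (v (((e⁻¹ : GL (Fin n) K).val *ᵥ x) i) : ℝ)|, ?_⟩
  rw [h.mem]
  intro i _
  have h1 : |β i + (v (((e⁻¹ : GL (Fin n) K).val *ᵥ x) i) : ℝ)| ≤
      ∑ i, |β i + (v (((e⁻¹ : GL (Fin n) K).val *ᵥ x) i) : ℝ)| :=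
    Finset.single_le_sum (f := fun i => |β i + (v (((e⁻¹ : GL (Fin n) K).val *ᵥ x) i) : ℝ)|)
      (fun i _ => abs_nonneg _) (Finset.mem_univ i)
  have h2 := neg_abs_le (β i + (v (((e⁻¹ : GL (Fin n) K).val *ᵥ x) i) : ℝ))
  linarith

theorem Ad.sep {B : ℝ → Lt hv n} {M : Lt hv n} {e : GL (Fin n) K} {β : Fin n → ℝ} (h : Ad B M e β) {x : Fin n → K}
    (hx : x ≠ 0) : ∃ t, x ∉ B t := by
  have h1 : (e⁻¹ : GL (Fin n) K).val *ᵥ x ≠ 0 := by
    intro h2
    apply hx
    rw [← mul_inv_vec e x, h2, Matrix.mulVec_zero]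
  obtain ⟨i, hi⟩ := Function.ne_iff.1 h1
  refine ⟨-β i - v (((e⁻¹ : GL (Fin n) K).val *ᵥ x) i) - 1, fun h2 => ?_⟩
  rw [h.mem] at h2
  have h3 := h2 i hi
  linarith

theorem ad_le (hπ : v π = 1) {B : ℝ → Lt hv n} {h h' e e' : GL (Fin n) K} {β β' : Fin n → ℝ} (hB : Ad B (LM hv h) e β)
    (hB' : Ad B (LM hv h') e' β') {R : ℕ} (hle : LM hv h' ≤ sh π (-R) (LM hv h)) (k : Fin n) : β k ≤ β' k + R := by
  let A : Matrix (Fin n) (Fin n) K := fun j =>
    if j < k then (e⁻¹ : GL (Fin n) K).val j else if k < j then (e'⁻¹ : GL (Fin n) K).val j else 0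
  have hA : A.det = 0 := Matrix.det_eq_zero_of_row_eq_zero k fun j => by
    have h1 : A k = 0 := by
      show (if k < k then (e⁻¹ : GL (Fin n) K).val k else if k < k then (e'⁻¹ : GL (Fin n) K).val k else 0) = 0
      rw [if_neg (lt_irrefl k), if_neg (lt_irrefl k)]
    rw [h1]
    rfl
  obtain ⟨x, hx0, hx⟩ := Matrix.exists_mulVec_eq_zero_iff.2 hA
  have h1 : ∀ j, j < k → ((e⁻¹ : GL (Fin n) K).val *ᵥ x) j = 0 := by
    intro j hj
    have e1 : A j = (e⁻¹ : GL (Fin n) K).val j := if_pos hj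
    have e2 : A j ⬝ᵥ x = 0 := congrFun hx j
    rw [e1] at e2
    exact e2
  have h2 : ∀ j, k < j → ((e'⁻¹ : GL (Fin n) K).val *ᵥ x) j = 0 := by
    intro j hj
    have e1 : A j = (e'⁻¹ : GL (Fin n) K).val j := by
      show (if j < k then (e⁻¹ : GL (Fin n) K).val j else if k < j then (e'⁻¹ : GL (Fin n) K).val j else 0) = _
      rw [if_neg (not_lt.2 hj.le), if_pos hj]
    have e2 : A j ⬝ᵥ x = 0 := congrFun hx j
    rw [e1] at e2
    exact e2
  by_contra hc
  have hδ : 0 < β k - β' k - R := by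
    have := not_le.1 hc
    linarith
  have step : ∀ s, x ∈ bl π (LM hv h) s → x ∈ bl π (LM hv h) (s - (β k - β' k - R)) := by
    intro s hs
    have m1 : x ∈ B (s - β k) := by
      rw [hB.mem]
      intro i hi
      have hki : k ≤ i := by
        by_contra hlt
        exact hi (h1 i (not_le.1 hlt))
      have m0 := (mem_bl_ad hπ hB s x).1 hs i hi
      have := hB.mono hki
      linarith
    have m2 : x ∈ bl π (LM hv h') (s - β k + β' k) := by
      rw [mem_bl_ad hπ hB']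
      intro i hi
      have hki : i ≤ k := by
        by_contra hlt
        exact hi (h2 i (not_le.1 hlt))
      have m0 := (hB'.mem _ _).1 m1 i hi
      have := hB'.mono hki
      linarith
    have m3 := bl_change hπ hle (s - β k + β' k) m2
    have e1 : s - β k + β' k + R = s - (β k - β' k - R) := by ring
    rwa [e1] at m3
  obtain ⟨k1, hk1⟩ := exists_mem_sh hπ h x
  obtain ⟨k0, hk0⟩ := exists_not_mem_sh hπ h hx0
  have hs : ∀ m : ℕ, x ∈ bl π (LM hv h) (-k1 - m * (β k - β' k - R)) := by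
    intro m
    induction m with
    | zero =>
      have e1 : -(k1 : ℝ) - ((0 : ℕ) : ℝ) * (β k - β' k - R) = ((-k1 : ℤ) : ℝ) := by
        push_cast
        ring
      rw [e1, bl_int, neg_neg]
      exact hk1
    | succ m ih =>
      have e1 : -(k1 : ℝ) - ((m + 1 : ℕ) : ℝ) * (β k - β' k - R) =
          -(k1 : ℝ) - (m : ℝ) * (β k - β' k - R) - (β k - β' k - R) := by
        push_cast
        ring
      rw [e1]
      exact step _ ih
  obtain ⟨m, hm⟩ := exists_nat_ge (((k0 : ℝ) - k1) / (β k - β' k - R))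
  have h3 : (k0 : ℝ) - k1 ≤ m * (β k - β' k - R) := (div_le_iff₀ hδ).1 hm
  have h4 : -(k1 : ℝ) - (m : ℝ) * (β k - β' k - R) ≤ ((-k0 : ℤ) : ℝ) := by
    push_cast
    linarith
  have h5 := bl_mono hπ (LM hv h) h4 (hs m)
  rw [bl_int, neg_neg] at h5
  exact hk0 h5

theorem bt_eq (hπ : v π = 1) {B : ℝ → Lt hv n} {h e : GL (Fin n) K} {β : Fin n → ℝ} (hB : Ad B (LM hv h) e β)
    (k : Fin n) : bt B (LM hv h) k = β k := by
  have hex : ∃ e β, Ad B (LM hv h) e β := ⟨e, β, hB⟩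
  have h1 : bt B (LM hv h) k = hex.choose_spec.choose k := dif_pos hex
  have h2 : Ad B (LM hv h) hex.choose hex.choose_spec.choose := hex.choose_spec.choose_spec
  have h0 : LM hv h ≤ sh π (-((0 : ℕ) : ℤ)) (LM hv h) := by
    rw [Nat.cast_zero, neg_zero, sh_zero]
  have h3 := ad_le hπ hB h2 h0 k
  have h4 := ad_le hπ h2 hB h0 k
  rw [h1]
  rw [Nat.cast_zero, add_zero] at h3 h4
  exact le_antisymm h4 h3

theorem bt_lip (hπ : v π = 1) {B : ℝ → Lt hv n} (hB : Hn B) {h h' : GL (Fin n) K} {R : ℕ}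
    (h1 : LM hv h ≤ sh π (-R) (LM hv h')) (h2 : LM hv h' ≤ sh π (-R) (LM hv h)) (k : Fin n) :
    |bt B (LM hv h') k - bt B (LM hv h) k| ≤ R := by
  obtain ⟨e, β, he⟩ := hB h
  obtain ⟨e', β', he'⟩ := hB h'
  rw [bt_eq hπ he k, bt_eq hπ he' k, abs_le]
  have h3 := ad_le hπ he he' h2 k
  have h4 := ad_le hπ he' he h1 k
  constructor <;> linarith

theorem mem_sg (hπ : v π = 1) {B : ℝ → Lt hv n} {h e : GL (Fin n) K} {β : Fin n → ℝ} (hB : Ad B (LM hv h) e β)
    (k : Fin n) (t : ℝ) (x : Fin n → K) :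
    x ∈ sg π (LM hv h) B k t ↔ ∀ i, GeR v (-t - max (β i - β k) 0) (((e⁻¹ : GL (Fin n) K).val *ᵥ x) i) := by
  unfold sg
  rw [bt_eq hπ hB k, Submodule.mem_sup]
  constructor
  · rintro ⟨y, hy, z, hz, rfl⟩ i
    rw [Matrix.mulVec_add, Pi.add_apply]
    refine geR_add hv (geR_mono ((hB.mem _ _).1 hy i) ?_) (geR_mono ((mem_bl_ad hπ hB t z).1 hz i) ?_)
    · have := le_max_left (β i - β k) 0
      linarith
    · have := le_max_right (β i - β k) 0
      linarith
  · intro hx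
    let y : Fin n → K := fun i => if 0 ≤ β i - β k then ((e⁻¹ : GL (Fin n) K).val *ᵥ x) i else 0
    let z : Fin n → K := fun i => if 0 ≤ β i - β k then 0 else ((e⁻¹ : GL (Fin n) K).val *ᵥ x) i
    have hyz : y + z = (e⁻¹ : GL (Fin n) K).val *ᵥ x := by
      funext i
      show (if 0 ≤ β i - β k then ((e⁻¹ : GL (Fin n) K).val *ᵥ x) i else 0) +
        (if 0 ≤ β i - β k then 0 else ((e⁻¹ : GL (Fin n) K).val *ᵥ x) i) = _
      by_cases hi : 0 ≤ β i - β k
      · rw [if_pos hi, if_pos hi, add_zero]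
      · rw [if_neg hi, if_neg hi, zero_add]
    refine ⟨e.val *ᵥ y, ?_, e.val *ᵥ z, ?_, ?_⟩
    · rw [hB.mem]
      intro i
      rw [inv_mul_vec]
      show GeR v _ (if 0 ≤ β i - β k then ((e⁻¹ : GL (Fin n) K).val *ᵥ x) i else 0)
      by_cases hi : 0 ≤ β i - β k
      · rw [if_pos hi]
        refine geR_mono (hx i) ?_
        rw [max_eq_left hi]
        linarith
      · rw [if_neg hi]
        exact geR_zero _
    · rw [mem_bl_ad hπ hB]
      intro i
      rw [inv_mul_vec]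
      show GeR v _ (if 0 ≤ β i - β k then 0 else ((e⁻¹ : GL (Fin n) K).val *ᵥ x) i)
      by_cases hi : 0 ≤ β i - β k
      · rw [if_pos hi]
        exact geR_zero _
      · rw [if_neg hi]
        refine geR_mono (hx i) ?_
        rw [max_eq_right (not_le.1 hi).le]
        linarith
    · rw [← Matrix.mulVec_add, hyz, mul_inv_vec]

theorem Hn.mv {B : ℝ → Lt hv n} (hB : Hn B) (h : GL (Fin n) K) : Hn (fun t => mv h (B t)) := by
  intro h'
  obtain ⟨e, β, he⟩ := hB (h⁻¹ * h')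
  refine ⟨h * e, β, ?_, he.mono, ?_⟩
  · rw [LM_mul, he.lat, ← LM_mul, mul_inv_cancel_left]
  · intro t x
    show x ∈ Pool.Agent.H75.CO.mv h (B t) ↔ _
    rw [mem_mv, he.mem]
    refine forall_congr' fun i => ?_
    rw [Matrix.mulVec_mulVec, ← Units.val_mul, ← _root_.mul_inv_rev]

end Pool.Agent.H75.CO
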