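import Pool.Agent.H75.CO.Sgl

/-!
# [H75 CO BCh] base change lemma

Write `M = LM hv h`, `M' = LM hv h'`, `β = bt B M`, `β' = bt B M'`, `l = β' k - β k`, `|l| ≤ R` (`bt_lip`).
CLAIM A. Let `T` be an integer, `T ≤ Y`, `-T ≤ t`, and `x ∈ W ⊓ M`, `x ∈ sg M B k t`. Then `x ∈ B (t - β k) ⊔ sh π T M`. Proof: take an
adapted basis `e` and `y = e⁻¹ x`. For `i < k`: `v (y i) ≥ Y` by `hY` and `mem_sg` for the predecessor `k'` of `k` (`i ≤ k'`, so the maximum is
zero), so `v (y i) ≥ T`. For `i ≥ k`: `v (y i) ≥ -t - (β i - β k) = -(t - β k) - β i` by `mem_sg`, so `y i • e i ∈ B (t - β k)`. Sum up.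
CLAIM B. `B (t - β k) ⊔ sh π T M ≤ sg M B k t` if `-T ≤ t` (definition of `sg`, `bl_int`, `bl_mono`).
(⇒) `T = ⌊Y⌋`: `x ∈ B (t - β k) ⊔ sh π T M ≤ B (t + l - β' k) ⊔ sh π (T - R) M' ≤ sg M' B k (t + l)`, because
`-(T - R) ≤ t + l` for `t ≥ -Y + 1 + 2 R`.
(⇐) The hypothesis holds for `M'` with `Y' = Y - 3 R`: `W ⊓ M' ≤ sh (-R) (W ⊓ M) ≤ sg M B k' (-Y + R) ≤ sg M' B k' (-Y + 3 R)`
(`sg_change`, `Nm.per`). `π ^ R x ∈ W ⊓ M'` and `∈ sg M' B k (t + l - R)`. Claim A for `M'`, `T' = ⌊Y - 3 R⌋`: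
`π ^ R x ∈ B (t + l - R - β' k) ⊔ sh π T' M'`, so `x ∈ B (t - β k) ⊔ sh π (T' - R) M' ≤ B (t - β k) ⊔ sh π (T' - 2 R) M ≤ sg M B k t`, as
`-(T' - 2 R) ≤ t` for `t ≥ -Y + 5 R + 1`.
-/

set_option autoImplicit false

namespace Pool.Agent.H75.CO

open Pool.Agent.H54.TT Pool.Agent.H98.RH Matrix

variable {K : Type} [Field K] {v : K → ℤ} {hv : IsDV v} {n : ℕ} {π : Kˣ}

/-- CLAIM A -/
private theorem claimA (hπ : v π = 1) {B : ℝ → Lt hv n} (hB : Hn B) {h : GL (Fin n) K} {W : Lt hv n} (k : Fin n) {Y : ℝ}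
    (hY : ∀ k' : Fin n, (k' : ℕ) + 1 = k → W ⊓ LM hv h ≤ sg π (LM hv h) B k' (-Y)) {T : ℤ} (hT : (T : ℝ) ≤ Y) {t : ℝ}
    {x : Fin n → K} (hx : x ∈ W ⊓ LM hv h) (hxs : x ∈ sg π (LM hv h) B k t) :
    x ∈ B (t - bt B (LM hv h) k) ⊔ sh π T (LM hv h) := by
  classical
  obtain ⟨e, β, hA⟩ := hB h
  have hbt : bt B (LM hv h) k = β k := bt_eq hπ hA k
  rw [hbt]
  have hinv : (e⁻¹ : GL (Fin n) K).val * e.val = 1 := by
    rw [← Units.val_mul, inv_mul_cancel, Units.val_one]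
  have hinv' : e.val * (e⁻¹ : GL (Fin n) K).val = 1 := by
    rw [← Units.val_mul, mul_inv_cancel, Units.val_one]
  set y : Fin n → K := (e⁻¹ : GL (Fin n) K).val *ᵥ x with hy
  have hyy := (mem_sg hπ hA k t x).1 hxs
  rw [← hy] at hyy
  let y1 : Fin n → K := fun i => if k ≤ i then y i else 0
  let y2 : Fin n → K := fun i => if k ≤ i then 0 else y i
  have hsum : y1 + y2 = y := by
    funext i
    show (if k ≤ i then y i else 0) + (if k ≤ i then 0 else y i) = y i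
    split_ifs
    · rw [add_zero]
    · rw [zero_add]
  have hx12 : e.val *ᵥ y1 + e.val *ᵥ y2 = x := by
    rw [← Matrix.mulVec_add, hsum, hy, Matrix.mulVec_mulVec, hinv', Matrix.one_mulVec]
  have he : ∀ z : Fin n → K, (e⁻¹ : GL (Fin n) K).val *ᵥ (e.val *ᵥ z) = z := by
    intro z
    rw [Matrix.mulVec_mulVec, hinv, Matrix.one_mulVec]
  have h1 : e.val *ᵥ y1 ∈ B (t - β k) := by
    rw [hA.mem]
    intro i
    rw [he]
    show GeR v (-(t - β k) - β i) (if k ≤ i then y i else 0)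
    split_ifs with hki
    · intro hne
      have h3 := hyy i hne
      have h4 : β k ≤ β i := hA.mono hki
      rw [max_eq_left (by linarith)] at h3
      linarith
    · intro hne
      exact absurd rfl hne
  have h2 : e.val *ᵥ y2 ∈ sh π T (LM hv h) := by
    rw [← hA.lat, mem_sh_LM hπ]
    intro i
    rw [he]
    show Ge v T (if k ≤ i then 0 else y i)
    split_ifs with hki
    · intro hne
      exact absurd rfl hne
    · intro hne
      have hik : (i : ℕ) < k := by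
        rw [not_le] at hki
        exact hki
      have hlt : (k : ℕ) - 1 < n := by
        have := k.2
        omega
      let k' : Fin n := ⟨(k : ℕ) - 1, hlt⟩
      have hk' : (k' : ℕ) + 1 = k := by
        show (k : ℕ) - 1 + 1 = k
        omega
      have h3 := (mem_sg hπ hA k' (-Y) x).1 (hY k' hk' hx) i
      rw [← hy] at h3
      have h4 := h3 hne
      have h5 : β i ≤ β k' := by
        apply hA.mono
        show (i : ℕ) ≤ (k : ℕ) - 1
        omega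
      rw [max_eq_right (by linarith)] at h4
      have h6 : (T : ℝ) ≤ (v (y i) : ℝ) := by linarith
      exact_mod_cast h6
  rw [← hx12]
  exact Submodule.add_mem_sup h1 h2

/-- CLAIM B -/
private theorem claimB (hπ : v π = 1) {B : ℝ → Lt hv n} {h : GL (Fin n) K} (k : Fin n) {T : ℤ} {t : ℝ}
    (hT : -(T : ℝ) ≤ t) : B (t - bt B (LM hv h) k) ⊔ sh π T (LM hv h) ≤ sg π (LM hv h) B k t := by
  refine sup_le_sup le_rfl ?_
  have h1 : sh π T (LM hv h) = bl π (LM hv h) ((-T : ℤ) : ℝ) := by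
    rw [bl_int, neg_neg]
  rw [h1]
  refine bl_mono hπ _ ?_
  push_cast
  exact hT

theorem base_change (hπ : v π = 1) {B : ℝ → Lt hv n} (hB : Hn B) {h h' : GL (Fin n) K} {R : ℕ}
    (h1 : LM hv h ≤ sh π (-R) (LM hv h')) (h2 : LM hv h' ≤ sh π (-R) (LM hv h)) {W : Lt hv n} (hW : IsSub W)
    (k : Fin n) {Y : ℝ} (hY : ∀ k' : Fin n, (k' : ℕ) + 1 = k → W ⊓ LM hv h ≤ sg π (LM hv h) B k' (-Y)) :
    ∃ l : ℝ, |l| ≤ R ∧ ∀ t : ℝ, -Y + 6 * R + 3 ≤ t → ∀ x ∈ W ⊓ LM hv h,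
      (x ∈ sg π (LM hv h) B k t ↔ x ∈ sg π (LM hv h') B k (t + l)) := by
  have hR : (0 : ℝ) ≤ R := Nat.cast_nonneg R
  have hl := bt_lip hπ hB h1 h2 k
  refine ⟨bt B (LM hv h') k - bt B (LM hv h) k, hl, ?_⟩
  set l : ℝ := bt B (LM hv h') k - bt B (LM hv h) k with hldef
  have hl' := abs_le.1 hl
  intro t ht x hx
  -- multiplication with the power of the uniformiser
  have hup : ∀ {M M' : Lt hv n}, M ≤ sh π (-R) M' → ∀ z ∈ M, ((π ^ (R : ℤ) : Kˣ) : K) • z ∈ M' := by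
    intro M M' hM z hz
    have h3 := mem_sh.1 (hM hz)
    rw [neg_neg] at h3
    exact h3
  have hBnm : Nm π B := by
    obtain ⟨e, β, hA⟩ := hB h
    exact hA.nm hπ
  constructor
  · intro hxs
    have hT : ((⌊Y⌋ : ℤ) : ℝ) ≤ Y := Int.floor_le Y
    have hT' : Y < (⌊Y⌋ : ℝ) + 1 := Int.lt_floor_add_one Y
    have h3 := claimA hπ hB k hY hT hx hxs
    have h4 : sh π ⌊Y⌋ (LM hv h) ≤ sh π (⌊Y⌋ - R) (LM hv h') := by
      have h5 : sh π ⌊Y⌋ (LM hv h) ≤ sh π ⌊Y⌋ (sh π (-R) (LM hv h')) := sh_le_sh.2 h1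
      rw [sh_sh] at h5
      exact h5
    have h6 : t - bt B (LM hv h) k = t + l - bt B (LM hv h') k := by
      rw [hldef]
      ring
    rw [h6] at h3
    refine claimB hπ k (T := ⌊Y⌋ - R) ?_ (sup_le_sup le_rfl h4 h3)
    push_cast
    linarith
  · intro hxs
    set z : Fin n → K := ((π ^ (R : ℤ) : Kˣ) : K) • x with hz
    have hzW : z ∈ W := hW _ x hx.1
    have hzM : z ∈ LM hv h' := hup h1 x hx.2
    have hzs : z ∈ sg π (LM hv h') B k (t + l - R) := by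
      have h3 : sg π (LM hv h') B k (t + l) = sh π (-R) (sg π (LM hv h') B k (t + l - R)) := by
        have h4 := (sg_nm hπ hB h' k).per (t + l - R) R
        rw [← h4]
        congr 1
        push_cast
        ring
      rw [h3] at hxs
      have h5 := mem_sh.1 hxs
      rw [neg_neg] at h5
      exact h5
    have hY' : ∀ k' : Fin n, (k' : ℕ) + 1 = k → W ⊓ LM hv h' ≤ sg π (LM hv h') B k' (-(Y - 3 * R)) := by
      intro k' hk' u hu
      have hu1 : ((π ^ (R : ℤ) : Kˣ) : K) • u ∈ W ⊓ LM hv h := ⟨hW _ u hu.1, hup h2 u hu.2⟩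
      have hu2 := hY k' hk' hu1
      have hu3 : u ∈ sh π (-R) (sg π (LM hv h) B k' (-Y)) := by
        rw [mem_sh, neg_neg]
        exact hu2
      have h4 := (sg_nm hπ hB h k').per (-Y) R
      rw [← h4] at hu3
      have h5 := sg_change hπ hB h1 h2 k' _ hu3
      have h6 : -Y + ((R : ℤ) : ℝ) + 2 * (R : ℝ) = -(Y - 3 * R) := by
        push_cast
        ring
      rw [h6] at h5
      exact h5
    have hT : ((⌊Y - 3 * R⌋ : ℤ) : ℝ) ≤ Y - 3 * R := Int.floor_le _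
    have hT' : Y - 3 * R < (⌊Y - 3 * (R : ℝ)⌋ : ℝ) + 1 := Int.lt_floor_add_one _
    have h3 := claimA hπ hB k hY' hT ⟨hzW, hzM⟩ hzs
    set T' : ℤ := ⌊Y - 3 * (R : ℝ)⌋ with hTdef
    have h4 : x ∈ sh π (-R) (B (t + l - R - bt B (LM hv h') k) ⊔ sh π T' (LM hv h')) := by
      rw [mem_sh, neg_neg]
      exact h3
    rw [sh_sup, sh_sh, ← hBnm.per] at h4
    have h5 : t + l - R - bt B (LM hv h') k + ((R : ℤ) : ℝ) = t - bt B (LM hv h) k := by
      rw [hldef]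
      push_cast
      ring
    rw [h5] at h4
    have h6 : sh π (-R + T') (LM hv h') ≤ sh π (T' - 2 * R) (LM hv h) := by
      have h7 : sh π (-R + T') (LM hv h') ≤ sh π (-R + T') (sh π (-R) (LM hv h)) := sh_le_sh.2 h2
      rw [sh_sh] at h7
      have h8 : (-R + T' + -R : ℤ) = T' - 2 * R := by ring
      rw [h8] at h7
      exact h7
    refine claimB hπ k (T := T' - 2 * R) ?_ (sup_le_sup le_rfl h6 h4)
    push_cast
    linarith

end Pool.Agent.H75.CO
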