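import Pool.Agent.H75.CO.Sh

/-!
# [H75 CO Bl] balls of the norm of a lattice, approximation of subspaces

`mem_bl`: definition. `bl_mono`: `sh_anti`, `Int.floor_le_floor`. `bl_add_int`, `sh_bl`, `bl_sh`: `sh_sh`, `Int.floor_add_intCast`.
`bl_bl_le`: `⌊s⌋ + ⌊t⌋ ≤ ⌊s + t⌋`. `nm_bl`: for `rc` take `s = ⌊t⌋ + 1 - ε'`, any `s` between `t` and `⌊t⌋ + 1`. `Ap.scale`: apply `sh π (-⌊X⌋)` to
the definition, `sh_sub`, and `⌊X⌋ - D ≤ X - D`. `Ap.change`: `W ⊓ M' ≤ sh (-R) (W ⊓ M) ≤ sh (-R) (W' ⊔ bl M (-D))`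
`= W' ⊔ bl M (R - D) ≤ W' ⊔ bl M' (2 R - D)`.
-/

set_option autoImplicit false

namespace Pool.Agent.H75.CO

open Pool.Agent.H54.TT Pool.Agent.H98.RH Matrix

variable {K : Type} [Field K] {v : K → ℤ} {hv : IsDV v} {n : ℕ} {π : Kˣ}

theorem mem_bl {M : Lt hv n} {t : ℝ} {x : Fin n → K} : x ∈ bl π M t ↔ ((π ^ ⌊t⌋ : Kˣ) : K) • x ∈ M := by
  rw [bl, mem_sh, neg_neg]

theorem bl_mono (hπ : v π = 1) (M : Lt hv n) {s t : ℝ} (h : s ≤ t) : bl π M s ≤ bl π M t := by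
  exact Pool.Agent.H25.CO.bl_mono hπ h M

theorem bl_le_bl {M M' : Lt hv n} (h : M ≤ M') (t : ℝ) : bl π M t ≤ bl π M' t := by
  exact Pool.Agent.H25.CO.bl_le_bl h t

theorem bl_zero (M : Lt hv n) : bl π M 0 = M := by
  exact Pool.Agent.H25.CO.bl_zero M

theorem bl_int (M : Lt hv n) (k : ℤ) : bl π M (k : ℝ) = sh π (-k) M := by
  exact Pool.Agent.H25.CO.bl_int M k

theorem bl_add_int (M : Lt hv n) (t : ℝ) (k : ℤ) : bl π M (t + k) = sh π (-k) (bl π M t) := by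
  exact Pool.Agent.H25.CO.bl_per M t k

theorem sh_bl (M : Lt hv n) (k : ℤ) (t : ℝ) : sh π k (bl π M t) = bl π M (t - k) := by
  exact Pool.Agent.H25.CO.sh_bl M t k

theorem bl_sh (M : Lt hv n) (k : ℤ) (t : ℝ) : bl π (sh π k M) t = bl π M (t - k) := by
  exact Pool.Agent.H25.CO.bl_sh M t k

theorem bl_bl_le (hπ : v π = 1) (M : Lt hv n) (s t : ℝ) : bl π (bl π M s) t ≤ bl π M (s + t) := by
  have h := Int.le_floor_add s t
  rw [bl, bl, bl, sh_sh]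
  exact sh_anti hπ (by linarith) M

/-- the ball of the norm of a smaller lattice -/
theorem bl_change (hπ : v π = 1) {M M' : Lt hv n} {R : ℕ} (h : M' ≤ sh π (-R) M) (t : ℝ) :
    bl π M' t ≤ bl π M (t + R) := by
  have h1 := bl_le_bl (π := π) h t
  rw [bl_sh] at h1
  refine h1.trans (le_of_eq ?_)
  rw [show t - ((-(R : ℤ) : ℤ) : ℝ) = t + R by push_cast; ring]

theorem bl_inf (M M' : Lt hv n) (t : ℝ) : bl π (M ⊓ M') t = bl π M t ⊓ bl π M' t := by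
  exact sh_inf _ M M'

theorem bl_sup (M M' : Lt hv n) (t : ℝ) : bl π (M ⊔ M') t = bl π M t ⊔ bl π M' t := by
  exact sh_sup _ M M'

theorem bl_sub {W : Lt hv n} (hW : IsSub W) (t : ℝ) : bl π W t = W := by
  exact sh_sub hW _

theorem mv_bl (g : GL (Fin n) K) (M : Lt hv n) (t : ℝ) : mv g (bl π M t) = bl π (mv g M) t := by
  exact mv_sh g _ M

theorem nm_bl (hπ : v π = 1) (M : Lt hv n) : Nm π (bl π M) := by
  exact Pool.Agent.H25.CO.bl_nm hπ M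

theorem Ap.scale (hπ : v π = 1) {M W W' : Lt hv n} {D : ℝ} (hW : IsSub W) (hW' : IsSub W') (h : Ap π M D W W') (X : ℝ) :
    W ⊓ bl π M X ≤ W' ⊔ bl π M (X - D) := by
  have h1 : sh π (-⌊X⌋) (W ⊓ M) ≤ sh π (-⌊X⌋) (W' ⊔ bl π M (-D)) := sh_le_sh.2 h
  rw [sh_inf, sh_sup, sh_sub hW, sh_sub hW', sh_bl] at h1
  refine h1.trans (sup_le_sup_left (bl_mono hπ M ?_) W')
  have h2 := Int.floor_le X
  push_cast
  linarith

theorem Ap.mono (hπ : v π = 1) {M W W' : Lt hv n} {D D' : ℝ} (h : Ap π M D W W') (hD : D' ≤ D) : Ap π M D' W W' := by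
  exact le_trans h (sup_le_sup_left (bl_mono hπ M (by linarith)) W')

theorem Ap.change (hπ : v π = 1) {M M' W W' : Lt hv n} {D : ℝ} {R : ℕ} (hW : IsSub W) (hW' : IsSub W')
    (h1 : M' ≤ sh π (-R) M) (h2 : M ≤ sh π (-R) M') (h : Ap π M D W W') : Ap π M' (D - 2 * R) W W' := by
  have h3 : sh π (-(R : ℤ)) (W ⊓ M) ≤ sh π (-(R : ℤ)) (W' ⊔ bl π M (-D)) := sh_le_sh.2 h
  rw [sh_inf, sh_sup, sh_sub hW, sh_sub hW', sh_bl] at h3
  refine le_trans (inf_le_inf_left W h1) (le_trans h3 (sup_le_sup_left ?_ W'))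
  refine le_trans (bl_change hπ h2 _) (le_of_eq ?_)
  rw [show -D - ((-(R : ℤ) : ℤ) : ℝ) + (R : ℝ) = -(D - 2 * R) by push_cast; ring]

theorem Ap.refl (M W : Lt hv n) (D : ℝ) : Ap π M D W W := by
  exact inf_le_left.trans le_sup_left

end Pool.Agent.H75.CO
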