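import Pool.Agent.H75.CO.Hul

/-!
# [H75 CO Cmp] comparison of hulls and of deep parts

`Cm D e l m g g' W W' κ κ'`: `W`, `W'` approximate each other with precision `D` (with respect to `La g`) and
`|κ' - κ - l| ≤ e` on `g S ^ m`.
`Cm.symm`: `Ap.change`; `g s t = g (s t)`, `s t ∈ S ^ (m + 1)`.
`hl_cmp` (`g' = g s`): let `t' ∈ S ^ m`, `h = g t'`, `x ∈ W ⊓ bl (La h) (t - κ h)`. Then `x ∈ bl (La g) X`, `X = t - κ h + R m ≤ t - κ g + 2 R m`. By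
`Ap.scale` `x = y + z`, `y ∈ W'`, `z ∈ bl (La g) (X - D) ≤ bl (La h) (X - D + R m) ≤ bl (La h) (t - κ h)` (`2 R m ≤ D`). So
`y = x - z ∈ W' ⊓ bl (La h) (t - κ h) ≤ W' ⊓ bl (La h) (t + l + e - κ' h)`, `h = g' (s⁻¹ t')`, `s⁻¹ t' ∈ S ^ (m + 1)`.
`hl_cmp0`: the same without approximation. `hl_cmp'`, `hl_cmp0'`: followed by `hl_step`.
`deep_cmp`: let `x ∈ W1 ⊓ La g`. By (t1) and `hl_cmp'`, `x = y + z`, `y ∈ P' (κ g - b + l + e + 2 R)`, `z ∈ bl (La g) (-b + 2 R m - D) ≤ La g`, so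
`y ∈ La g`. `κ g + l ≤ κ' g + e ≤ κ' g' + R + e`, so `π ^ R y ∈ La g' ⊓ P' (κ' g' - (b - 2 R - 2 e))`. Let `T = min b' (b - 2 R - 2 e)`:
`π ^ R y ∈ W1' ⊔ bl (La g') (a' - T)`, `y ∈ W1' ⊔ bl (La g') (a' - T + R) ≤ W1' ⊔ bl (La g) (a' - T + 2 R)`.
-/

set_option autoImplicit false

namespace Pool.Agent.H75.CO

open Pool.Agent.H54.TT Pool.Agent.H98.RH Matrix
open scoped Pointwise

variable {K : Type} [Field K] {v : K → ℤ} {hv : IsDV v} {n : ℕ} {π : Kˣ} {G : Type} [Group G]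
  {ρ : G →* GL (Fin n) K} {S : Set G} {R : ℕ}

/-- comparison data -/
structure Cm {K : Type} [Field K] {v : K → ℤ} {hv : IsDV v} {n : ℕ} (π : Kˣ) {G : Type} [Group G]
    (ρ : G →* GL (Fin n) K) (S : Set G) (D e l : ℝ) (m : ℕ) (g : G) (W W' : Lt hv n) (κ κ' : G → ℝ) : Prop where
  ap : Ap π (La hv ρ g) D W W'
  ap' : Ap π (La hv ρ g) D W' W
  cmp : ∀ t ∈ S ^ m, |κ' (g * t) - κ (g * t) - l| ≤ e

theorem Cm.symm (hs : Stp hv π ρ S R) {D e l : ℝ} {m : ℕ} {g s : G} (hsS : s ∈ S) {W W' : Lt hv n} (hW : IsSub W)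
    (hW' : IsSub W') {κ κ' : G → ℝ} (h : Cm π ρ S D e l (m + 1) g W W' κ κ') :
    Cm π ρ S (D - 2 * R) e (-l) m (g * s) W' W κ' κ := by
  refine ⟨?_, ?_, ?_⟩
  · exact Ap.change hs.unif hW' hW (La_ge hs g hsS) (La_le hs g hsS) h.ap'
  · exact Ap.change hs.unif hW hW' (La_ge hs g hsS) (La_le hs g hsS) h.ap
  · intro t ht
    have h1 := h.cmp (s * t) (hs.mul_mem hsS ht)
    rw [← mul_assoc] at h1
    rw [show κ (g * s * t) - κ' (g * s * t) - -l = -(κ' (g * s * t) - κ (g * s * t) - l) by ring, abs_neg]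
    exact h1

theorem Cm.weak (hs : Stp hv π ρ S R) {D D' e l : ℝ} {m m' : ℕ} {g : G} {W W' : Lt hv n} {κ κ' : G → ℝ}
    (h : Cm π ρ S D e l m g W W' κ κ') (hD : D' ≤ D) (hm : m' ≤ m) : Cm π ρ S D' e l m' g W W' κ κ' := by
  exact ⟨h.ap.mono hs.unif hD, h.ap'.mono hs.unif hD, fun t ht => h.cmp t (hs.pow_mono hm ht)⟩

theorem hl_cmp (hs : Stp hv π ρ S R) {D e l : ℝ} {m : ℕ} {g s : G} (hsS : s ∈ S) {W W' : Lt hv n} (hW : IsSub W)
    (hW' : IsSub W') {κ κ' : G → ℝ} (hκ : Lp S R κ) (h : Cm π ρ S D e l m g W W' κ κ') (hD : 2 * R * m ≤ D) (t : ℝ) :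
    hl π ρ S g m W κ t ≤ hl π ρ S (g * s) (m + 1) W' κ' (t + l + e) ⊔
      bl π (La hv ρ g) (t - κ g + 2 * R * m - D) := by
  refine iSup₂_le fun t' ht' => ?_
  intro x hx
  have h1 := (abs_le.1 (h.cmp t' ht')).2
  have h2 := (abs_le.1 (hκ.pow g ht')).1
  have h3 : x ∈ bl π (La hv ρ g) (t - κ (g * t') + R * m) := (bl_La hs g ht' _).2 hx.2
  have h4 : x ∈ W' ⊔ bl π (La hv ρ g) (t - κ (g * t') + R * m - D) :=
    h.ap.scale hs.unif hW hW' _ (Submodule.mem_inf.2 ⟨hx.1, h3⟩)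
  obtain ⟨y, hy, z, hz, hyz⟩ := Submodule.mem_sup.1 h4
  have h5 : z ∈ bl π (La hv ρ (g * t')) (t - κ (g * t')) := by
    refine bl_mono hs.unif _ ?_ ((bl_La hs g ht' _).1 hz)
    linarith
  have h6 : y ∈ bl π (La hv ρ (g * t')) (t - κ (g * t')) := by
    have h7 : y = x - z := by rw [← hyz, add_sub_cancel_right]
    rw [h7]
    exact Submodule.sub_mem _ hx.2 h5
  rw [← hyz]
  refine Submodule.add_mem_sup ?_ (bl_mono hs.unif _ ?_ hz)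
  · have h8 : W' ⊓ bl π (La hv ρ (g * t')) (t + l + e - κ' (g * t')) ≤
        hl π ρ S (g * s) (m + 1) W' κ' (t + l + e) := by
      refine le_iSup₂_of_le
        (f := fun a (_ : a ∈ S ^ (m + 1)) => W' ⊓ bl π (La hv ρ (g * s * a)) (t + l + e - κ' (g * s * a)))
        (s⁻¹ * t') (hs.inv_mul_mem hsS ht') ?_
      rw [show g * s * (s⁻¹ * t') = g * t' by group]
    refine h8 (Submodule.mem_inf.2 ⟨hy, bl_mono hs.unif _ ?_ h6⟩)
    linarith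
  · linarith

theorem hl_cmp' (hs : Stp hv π ρ S R) {D e l : ℝ} {m : ℕ} {g s : G} (hsS : s ∈ S) {W W' : Lt hv n} (hW : IsSub W)
    (hW' : IsSub W') {κ κ' : G → ℝ} (hκ : Lp S R κ) (hκ' : Lp S R κ') (h : Cm π ρ S D e l m g W W' κ κ')
    (hD : 2 * R * m ≤ D) (t : ℝ) :
    hl π ρ S g m W κ t ≤ hl π ρ S (g * s) m W' κ' (t + l + e + 2 * R) ⊔
      bl π (La hv ρ g) (t - κ g + 2 * R * m - D) := by
  exact (hl_cmp hs hsS hW hW' hκ h hD t).trans (sup_le_sup_right (hl_step hs hκ' (g * s) m W' _) _)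

theorem hl_cmp0 (hs : Stp hv π ρ S R) {e l : ℝ} {m : ℕ} {g s : G} (hsS : s ∈ S) {W : Lt hv n} {κ κ' : G → ℝ}
    (h : ∀ t ∈ S ^ m, |κ' (g * t) - κ (g * t) - l| ≤ e) (t : ℝ) :
    hl π ρ S g m W κ t ≤ hl π ρ S (g * s) (m + 1) W κ' (t + l + e) := by
  refine iSup₂_le fun t' ht' => ?_
  have h1 := (abs_le.1 (h t' ht')).2
  refine le_iSup₂_of_le
    (f := fun a (_ : a ∈ S ^ (m + 1)) => W ⊓ bl π (La hv ρ (g * s * a)) (t + l + e - κ' (g * s * a)))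
    (s⁻¹ * t') (hs.inv_mul_mem hsS ht') ?_
  rw [show g * s * (s⁻¹ * t') = g * t' by group]
  refine inf_le_inf_left W (bl_mono hs.unif _ ?_)
  linarith

theorem hl_cmp0' (hs : Stp hv π ρ S R) {e l : ℝ} {m : ℕ} {g s : G} (hsS : s ∈ S) {W : Lt hv n} {κ κ' : G → ℝ}
    (hκ' : Lp S R κ') (h : ∀ t ∈ S ^ m, |κ' (g * t) - κ (g * t) - l| ≤ e) (t : ℝ) :
    hl π ρ S g m W κ t ≤ hl π ρ S (g * s) m W κ' (t + l + e + 2 * R) := by
  exact (hl_cmp0 hs hsS h t).trans (hl_step hs hκ' (g * s) m W _)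

theorem deep_cmp (hs : Stp hv π ρ S R) {D D1 e l a' b b' : ℝ} {m : ℕ} {g s : G} (hsS : s ∈ S) {W W' W1 W1' : Lt hv n}
    (hW : IsSub W) (hW' : IsSub W') (hW1' : IsSub W1') {κ κ' : G → ℝ} (hκ : Lp S R κ) (hκ' : Lp S R κ') (he : 0 ≤ e)
    (h : Cm π ρ S D e l m g W W' κ κ') (hb : 0 ≤ b)
    (t1 : W1 ⊓ La hv ρ g ≤ hl π ρ S g m W κ (κ g - b))
    (t2 : ∀ T : ℝ, T ≤ b' → La hv ρ (g * s) ⊓ hl π ρ S (g * s) m W' κ' (κ' (g * s) - T) ≤
      W1' ⊔ bl π (La hv ρ (g * s)) (a' - T))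
    (h0 : 2 * R * m ≤ D) (h1 : D1 ≤ D - 2 * R * m) (h2 : D1 ≤ b' - a' - 2 * R) (h3 : D1 ≤ b - a' - 4 * R - 2 * e) :
    Ap π (La hv ρ g) D1 W1 W1' := by
  have k1 := (abs_le.1 (h.cmp 1 (hs.one_mem m))).1
  have k2 := (abs_le.1 (hκ' g s hsS)).1
  rw [mul_one] at k1
  have hN : Nm π (hl π ρ S (g * s) m W' κ') := hl_nm hs hW' (g * s) m κ'
  set T : ℝ := min b' (b - 2 * R - 2 * e) with hT
  have hT1 : T ≤ b' := min_le_left _ _
  have hT2 : T ≤ b - 2 * R - 2 * e := min_le_right _ _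
  have hT3 : a' - T + 2 * R ≤ -D1 := by
    rcases min_choice b' (b - 2 * R - 2 * e) with h5 | h5
    · rw [hT, h5]; linarith
    · rw [hT, h5]; linarith
  have k3 : La hv ρ g ⊓ hl π ρ S (g * s) m W' κ' (κ' (g * s) - T + R) ≤ W1' ⊔ bl π (La hv ρ g) (-D1) := by
    have h6 : sh π R (La hv ρ g ⊓ hl π ρ S (g * s) m W' κ' (κ' (g * s) - T + R)) ≤
        W1' ⊔ bl π (La hv ρ (g * s)) (a' - T) := by
      rw [sh_inf]
      refine le_trans (inf_le_inf ?_ (le_of_eq ?_)) (t2 T hT1)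
      · have h7 := sh_le_sh (π := π) (k := (R : ℤ)) |>.2 (La_le hs g hsS)
        rw [sh_sh, add_neg_cancel, sh_zero] at h7
        exact h7
      · have h8 := hN.per (κ' (g * s) - T + R) (-(R : ℤ))
        rw [neg_neg] at h8
        rw [← h8]
        congr 1
        push_cast
        ring
    have h9 := sh_le_sh (π := π) (k := -(R : ℤ)) |>.2 h6
    rw [sh_sh, neg_add_cancel, sh_zero, sh_sup, sh_sub hW1', sh_bl] at h9
    refine h9.trans (sup_le_sup_left ?_ W1')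
    refine (bl_change hs.unif (La_ge hs g hsS) _).trans (bl_mono hs.unif _ ?_)
    push_cast
    linarith
  intro x hx
  have hx1 := hl_cmp' hs hsS hW hW' hκ hκ' h h0 (κ g - b) (t1 hx)
  obtain ⟨y, hy, z, hz, hyz⟩ := Submodule.mem_sup.1 hx1
  have hz1 : z ∈ bl π (La hv ρ g) (-D1) := bl_mono hs.unif _ (by linarith) hz
  have hz2 : z ∈ La hv ρ g := by
    have h5 : z ∈ bl π (La hv ρ g) 0 := bl_mono hs.unif _ (by linarith) hz
    rw [bl_zero] at h5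
    exact h5
  have hy1 : y ∈ La hv ρ g := by
    have h7 : y = x - z := by rw [← hyz, add_sub_cancel_right]
    rw [h7]
    exact Submodule.sub_mem _ hx.2 hz2
  have hy2 : y ∈ hl π ρ S (g * s) m W' κ' (κ' (g * s) - T + R) := hN.mono (by linarith) hy
  rw [← hyz]
  exact Submodule.add_mem _ (k3 (Submodule.mem_inf.2 ⟨hy1, hy2⟩)) (Submodule.mem_sup_right hz1)

end Pool.Agent.H75.CO
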