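import Pool.Agent.H98.RH.Defs
import Mathlib.Algebra.Group.Pointwise.Set.Finite
import Mathlib.Algebra.Order.Floor.Ring
import Mathlib.Data.Real.Basic
import Mathlib.Order.ConditionallyCompleteLattice.Basic
import Mathlib.Tactic

/-!
# [H75 CO Defs] THEOREM LG, CORE: definitions

`K` is a field with a discrete valuation `v`, `π` a uniformiser. A norm `b` on `K^n` is given by its balls `B t = {b ≤ q ^ t}`, which
are modules over the valuation ring. Everything is said in terms of inclusions of such modules.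

`bl π M t`: ball of the norm of the lattice `M`. `sg π M B k`: the balls of the largest norm below `q ^ (β k) b` and the norm of
`M`, where `q ^ (- β k)` are the values of `b` on an adapted basis of `M` (`Ad`). `kp P M`: the least `t` with `M ≤ P t`. `hl`: the
balls of the largest norm on `W` below the multiples `q ^ (κ h)` of the norms of the lattices `L_h`, `h ∈ g S ^ m`. `Fb`: the
discounted norm modulo the deep part `W1`. `Lv`, `Tw`: levels and towers of levels. `Le`: left endpoints of the long intervals on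
which a family is constant. `Wd`: the window (flat) of a tower.
-/

set_option autoImplicit false

namespace Pool.Agent.H75.CO

open Pool.Agent.H54.TT Pool.Agent.H98.RH Matrix
open scoped Pointwise

/-- `v x ≥ r` for a real number `r` -/
def GeR {K : Type} [Field K] (v : K → ℤ) (r : ℝ) (x : K) : Prop := x ≠ 0 → r ≤ (v x : ℝ)

/-- the submodules of `K^n` over the valuation ring -/
abbrev Lt {K : Type} [Field K] {v : K → ℤ} (hv : IsDV v) (n : ℕ) : Type := Submodule (Ov hv) (Fin n → K)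

section

variable {K : Type} [Field K] {v : K → ℤ} {hv : IsDV v} {n : ℕ}

/-- `π ^ k M` -/
noncomputable def sh (π : Kˣ) (k : ℤ) (M : Lt hv n) : Lt hv n :=
  M.map (((LinearMap.lsmul K (Fin n → K)) ((π ^ k : Kˣ) : K)).restrictScalars (Ov hv))

/-- the ball of radius `q ^ t` of the norm of `M` -/
noncomputable def bl (π : Kˣ) (M : Lt hv n) (t : ℝ) : Lt hv n := sh π (-⌊t⌋) M

/-- the image under an invertible matrix -/
noncomputable def mv (g : GL (Fin n) K) (M : Lt hv n) : Lt hv n := M.map ((Matrix.mulVecLin g.val).restrictScalars (Ov hv))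

/-- stable under all scalars: a vector space -/
def IsSub (W : Lt hv n) : Prop := ∀ c : K, ∀ x ∈ W, c • x ∈ W

/-- the dimension -/
noncomputable def dm (W : Lt hv n) : ℕ := Module.finrank K (Submodule.span K (W : Set (Fin n → K)))

/-- families of balls: monotone, homogeneous, and constant to the right of every point -/
structure Nm (π : Kˣ) (P : ℝ → Lt hv n) : Prop where
  mono : Monotone P
  per : ∀ (t : ℝ) (k : ℤ), P (t + k) = sh π (-k) (P t)
  rc : ∀ t, ∃ s, t < s ∧ P s = P t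

/-- the least `t` with `M ≤ P t` (logarithm of the supremum over `M` of the norm with the balls `P`) -/
noncomputable def kp (P : ℝ → Lt hv n) (M : Lt hv n) : ℝ := sInf {t | M ≤ P t}

/-- `e` is a basis of the lattice `M`, orthogonal for the norm with the balls `B`, the norms are `q ^ (-β i)` -/
structure Ad (B : ℝ → Lt hv n) (M : Lt hv n) (e : GL (Fin n) K) (β : Fin n → ℝ) : Prop where
  lat : LM hv e = M
  mono : Monotone β
  mem : ∀ t x, x ∈ B t ↔ ∀ i, GeR v (-t - β i) (((e⁻¹ : GL (Fin n) K).val *ᵥ x) i)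

/-- honest norms: there is an adapted basis for every lattice -/
def Hn (B : ℝ → Lt hv n) : Prop := ∀ h : GL (Fin n) K, ∃ e β, Ad B (LM hv h) e β

open Classical in
/-- the exponents of the norm with respect to the lattice, increasing (they do not depend on the adapted basis) -/
noncomputable def bt (B : ℝ → Lt hv n) (M : Lt hv n) (k : Fin n) : ℝ :=
  if h : ∃ e β, Ad B M e β then h.choose_spec.choose k else 0

/-- the balls of `(q ^ (β k) b) ∧ |.|_M` -/
noncomputable def sg (π : Kˣ) (M : Lt hv n) (B : ℝ → Lt hv n) (k : Fin n) (t : ℝ) : Lt hv n :=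
  B (t - bt B M k) ⊔ bl π M t

/-- the norms `B`, `B0` are close for the lattice `M` -/
def Cl (π : Kˣ) (M : Lt hv n) (B B0 : ℝ → Lt hv n) (e D : ℝ) : Prop :=
  ∀ (k : Fin n) (t : ℝ), -D ≤ t →
    M ⊓ sg π M B k t ≤ sg π M B0 k (t + e) ∧ M ⊓ sg π M B0 k t ≤ sg π M B k (t + e)

/-- `W` is approximated by `W'` with precision `D` -/
def Ap (π : Kˣ) (M : Lt hv n) (D : ℝ) (W W' : Lt hv n) : Prop := W ⊓ M ≤ W' ⊔ bl π M (-D)

end

/-! ### levels -/

section

variable {K : Type} [Field K] {v : K → ℤ} (hv : IsDV v) (π : Kˣ) {n : ℕ} {G : Type} [Group G]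
  (ρ : G →* GL (Fin n) K) (S : Set G)

/-- the lattice of `g` -/
noncomputable def La (g : G) : Lt hv n := LM hv (ρ g)

/-- the setup -/
structure Stp (R : ℕ) : Prop where
  unif : v π = 1
  fin : S.Finite
  one : (1 : G) ∈ S
  inv : ∀ s ∈ S, s⁻¹ ∈ S
  low : ∀ s ∈ S, sh π R (L0 hv n) ≤ La hv ρ s
  up : ∀ s ∈ S, La hv ρ s ≤ sh π (-R) (L0 hv n)

variable {hv}

/-- the logarithm of the supremum over `L_h ∩ W` of the `k`-th norm `sg` with respect to `L_g` -/
noncomputable def kap (B : ℝ → Lt hv n) (W : Lt hv n) (k : Fin n) (g h : G) : ℝ :=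
  kp (sg π (La hv ρ g) B k) (La hv ρ h ⊓ W)

/-- the hull -/
noncomputable def hl (g : G) (m : ℕ) (W : Lt hv n) (κ : G → ℝ) (t : ℝ) : Lt hv n :=
  ⨆ s ∈ S ^ m, W ⊓ bl π (La hv ρ (g * s)) (t - κ (g * s))

/-- the discounted hull modulo `W1` -/
noncomputable def Fb (ε : ℝ) (g : G) (M : ℕ) (W W1 : Lt hv n) (κ : G → ℝ) (t : ℝ) : Lt hv n :=
  (⨆ m ∈ Finset.range (M + 1), hl π ρ S g m W κ (κ g + t - ε * m)) ⊔ W1

end

/-- the scales -/
def Ln (A L1 i : ℕ) : ℕ := A ^ i * L1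

/-- the ratio of the scales -/
def AA (n R : ℕ) : ℕ := 10 ^ 6 * (n + 2) * 4 ^ (n + 2) * (R + 1)

/-- the number of scales -/
def NN (n : ℕ) : ℕ := 30 * (20 * (n + 2) ^ 2) ^ (n + 1)

/-- bound for the shifts -/
def RR (n R : ℕ) : ℕ := (2 * R + 4) * (n + 1) * 4 ^ (n + 1)

/-- thresholds for the lengths of intervals -/
noncomputable def cc (n j : ℕ) : ℝ := 1 / ((n + 1) * 4 ^ j)

/-- between `cc n (j + 1)` and `cc n j` -/
noncomputable def md (n j : ℕ) : ℝ := (cc n j + cc n (j + 1)) / 2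

/-- the discount -/
noncomputable def ep (n : ℕ) : ℝ := 1 / (1000 * (n + 1) * 4 ^ (n + 1))

/-- the data of a level: `al < a < b < be` are indices of scales, `j` is the index of the threshold, `k` the number of the
norm -/
structure Dat (n N : ℕ) : Type where
  al : Fin N
  be : Fin N
  a : Fin N
  b : Fin N
  j : Fin (n + 1)
  k : Fin n

/-- the left endpoints of the intervals of length at least `c` on which `Φ` is constant -/
def Le {P : Type} (Φ : ℝ → P) (c : ℝ) : Set ℝ := {t | Φ t = Φ (t + c) ∧ ∀ s, s < t → Φ s ≠ Φ t}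

/-- `p` enumerates `P`, `p 0` is the last point which is at most `T` -/
structure En (P : Set ℝ) (T : ℝ) (p : ℤ → ℝ) : Prop where
  mono : StrictMono p
  rng : Set.range p = P
  le : p 0 ≤ T
  lt : T < p 1

section

variable {K : Type} [Field K] {v : K → ℤ} {hv : IsDV v} (π : Kˣ) {n : ℕ} {G : Type} [Group G]
  (ρ : G →* GL (Fin n) K) (S : Set G) (A L1 : ℕ) {N : ℕ}

/-- the conditions for a level: `W1` is the deep part of the hull of the `k`-th norm on `W`; `θ = 1` strong, `θ = 2` weak -/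
structure Lv (θ : ℝ) (d : Dat n N) (g : G) (B : ℝ → Lt hv n) (W W1 : Lt hv n) : Prop where
  le : W1 ≤ W
  y1 : -(θ * Ln A L1 d.al) ≤ kap π ρ B W d.k g g
  y2 : ∀ k' : Fin n, (k' : ℕ) + 1 = d.k → W ⊓ La hv ρ g ≤ sg π (La hv ρ g) B k' (-(Ln A L1 d.be / θ))
  t1 : W1 ⊓ La hv ρ g ≤
    hl π ρ S g (Ln A L1 (d.be - 2)) W (kap π ρ B W d.k g) (kap π ρ B W d.k g g - Ln A L1 d.b / θ)
  t2 : ∀ T : ℝ, T ≤ Ln A L1 d.b / θ → La hv ρ g ⊓
    hl π ρ S g (Ln A L1 (d.be - 2)) W (kap π ρ B W d.k g) (kap π ρ B W d.k g g - T) ≤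
      W1 ⊔ bl π (La hv ρ g) (θ * Ln A L1 d.a - T)

/-- the balls of the shape of a level -/
noncomputable def Sp (d : Dat n N) (g : G) (B : ℝ → Lt hv n) (W W1 : Lt hv n) : ℝ → Lt hv n :=
  Fb π ρ S (ep n) g (Ln A L1 (d.a + 1)) W W1 (kap π ρ B W d.k g)

/-- towers -/
structure Tw (θ : ℝ) (r : ℕ) (d : ℕ → Dat n N) (g : G) (B : ℝ → Lt hv n) (W : ℕ → Lt hv n) : Prop where
  top : W 0 = ⊤
  bot : W (r + 1) = ⊥
  ne : ∀ l, l ≤ r → W l ≠ ⊥
  sub : ∀ l, l ≤ r → IsSub (W l)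
  lv : ∀ l, l ≤ r → Lv π ρ S A L1 θ (d l) g B (W l) (W (l + 1))

/-- the distance of the centres -/
noncomputable def Gm (r : ℕ) (d : ℕ → Dat n N) : ℝ := Ln A L1 ((d r).be - 2)

/-- the window `f` of a tower, `p l` are the positions of the long balls of level `l` -/
structure Wd (r : ℕ) (d : ℕ → Dat n N) (g : G) (B : ℝ → Lt hv n) (W : ℕ → Lt hv n) (p : ℕ → ℤ → ℝ)
    (f : (Fin (r + 1) → ℤ) → Lt hv n) : Prop where
  en : ∀ l, l ≤ r → En (Le (Sp π ρ S A L1 (d l) g B (W l) (W (l + 1))) (md n (d l).j)) (l * Gm A L1 r d) (p l)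
  eq : ∀ i, f i = ⨆ l : Fin (r + 1), Sp π ρ S A L1 (d l) g B (W l) (W (l + 1)) (p l (i l)) ⊓
    bl π (La hv ρ g) (l * Gm A L1 r d + Gm A L1 r d / 2)

/-- weak windows -/
def Wk (r : ℕ) (d : ℕ → Dat n N) (g : G) (B : ℝ → Lt hv n) (f : (Fin (r + 1) → ℤ) → Lt hv n) : Prop :=
  ∃ W p, Tw π ρ S A L1 2 r d g B W ∧ Wd π ρ S A L1 r d g B W p f

/-- no length of an interval is between the thresholds -/
def Gap (r : ℕ) (d : ℕ → Dat n N) (g : G) (B : ℝ → Lt hv n) (W : ℕ → Lt hv n) : Prop :=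
  ∀ l, l ≤ r → Le (Sp π ρ S A L1 (d l) g B (W l) (W (l + 1))) (cc n ((d l).j + 1)) ⊆
    Le (Sp π ρ S A L1 (d l) g B (W l) (W (l + 1))) (cc n (d l).j)

/-- strong windows -/
def St (r : ℕ) (d : ℕ → Dat n N) (g : G) (B : ℝ → Lt hv n) (f : (Fin (r + 1) → ℤ) → Lt hv n) : Prop :=
  ∃ W p, Tw π ρ S A L1 1 r d g B W ∧ Gap π ρ S A L1 r d g B W ∧ Wd π ρ S A L1 r d g B W p f

end

/-- lattice terms of depth at most `j` over the symbols in `S ^ m`, with exponents at most `C` -/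
def TL {G : Type} [Group G] (S : Set G) (m C : ℕ) : ℕ → Set (Pool.Agent.H98.RH.LT G)
  | 0 => {t | ∃ s ∈ S ^ m, ∃ k : ℤ, |k| ≤ C ∧ t = Pool.Agent.H98.RH.LT.sc k (Pool.Agent.H98.RH.LT.sym s)}
  | j + 1 => TL S m C j ∪ {t | ∃ t₁ ∈ TL S m C j, ∃ t₂ ∈ TL S m C j, ∃ k : ℤ, |k| ≤ C ∧
      (t = Pool.Agent.H98.RH.LT.sc k t₁ ∨ t = Pool.Agent.H98.RH.LT.sum t₁ t₂ ∨ t = Pool.Agent.H98.RH.LT.inf t₁ t₂)}

/-- the depth of the terms -/
def JJ (n : ℕ) : ℕ := 20 * (n + 2) ^ 2

/-- bound for the exponents -/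
def CC (n R L1 : ℕ) : ℕ := 10 * (R + 1) * Ln (AA n R) L1 (NN n)

/-- admissible regimes -/
structure Rg {n N : ℕ} (r : ℕ) (d : ℕ → Dat n N) : Prop where
  lt : r < n
  c1 : ∀ l, l ≤ r → ((d l).al : ℕ) + 4 ≤ (d l).a ∧ ((d l).a : ℕ) + 6 ≤ (d l).b ∧ ((d l).b : ℕ) + 4 ≤ (d l).be
  c2 : ∀ l, l < r → ((d l).a : ℕ) ≤ (d (l + 1)).al ∧ ((d (l + 1)).be : ℕ) + 1 ≤ (d l).b

end Pool.Agent.H75.CO
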