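import Pool.Agent.H75.CO.Kap

/-!
# [H75 CO Hul] hulls

`hl_nm`: `Nm.iSup` over the finite set `S ^ m`, `nm_const`, `nm_bl`, `Nm.shift`, `Nm.inf`. `hl_zero`: `S ^ 0 = {1}`. `hl_mono`: `pow_mono`.
`hl_step`: `S ^ (m + 1) = S ^ m * S`: for `s ∈ S ^ m`, `s' ∈ S`: `bl (La (g s s')) (t - κ (g s s')) ≤ bl (La (g s)) (t - κ (g s s') + R)` (`bl_La`,
`m = 1`) `≤ bl (La (g s)) (t + 2 R - κ (g s))` (`Lp`). `Lp.pow`: induction. `hl_size`: `bl_La` and `Lp.pow`. `hl_base`: `g * S ^ m` is contained in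
`g * s * S ^ (m + 1)` (`inv_mul_mem`) and conversely (`mul_mem`). `hl_kap`: let `u = t - κ (g s)`, `x ∈ W ⊓ bl (La (g s)) u`; then
`π ^ ⌊u⌋ x ∈ La (g s) ⊓ W ≤ sg .. (κ (g s))` (`kap_le_iff`), so `x ∈ sg .. (κ (g s) + ⌊u⌋) ≤ sg .. t` (`Nm.per`).
-/

set_option autoImplicit false

namespace Pool.Agent.H75.CO

open Pool.Agent.H54.TT Pool.Agent.H98.RH Matrix
open scoped Pointwise

/-- the function `κ` on the group changes by at most `R` along the generators -/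
def Lp {G : Type} [Group G] (S : Set G) (R : ℕ) (κ : G → ℝ) : Prop := ∀ h, ∀ s ∈ S, |κ (h * s) - κ h| ≤ R

variable {K : Type} [Field K] {v : K → ℤ} {hv : IsDV v} {n : ℕ} {π : Kˣ} {G : Type} [Group G]
  {ρ : G →* GL (Fin n) K} {S : Set G} {R : ℕ}

theorem Lp.pow {κ : G → ℝ} (hκ : Lp S R κ) (h : G) {m : ℕ} {s : G} (hsm : s ∈ S ^ m) : |κ (h * s) - κ h| ≤ R * m := by
  induction m generalizing s with
  | zero =>
    rw [pow_zero, Set.mem_one] at hsm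
    rw [hsm, mul_one, sub_self, abs_zero, Nat.cast_zero, mul_zero]
  | succ m ih =>
    rw [pow_succ] at hsm
    obtain ⟨a, ha, b, hb, rfl⟩ := Set.mem_mul.1 hsm
    have h1 := ih ha
    have h2 := hκ (h * a) b hb
    have h3 := abs_sub_le (κ (h * a * b)) (κ (h * a)) (κ h)
    rw [← mul_assoc]
    push_cast
    linarith

theorem kap_lp (hs : Stp hv π ρ S R) {B : ℝ → Lt hv n} (hB : Hn B) {W : Lt hv n} (hW : IsSub W) (hne : W ≠ ⊥)
    (k : Fin n) (g : G) : Lp S R (kap π ρ B W k g) := by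
  intro h s hsS
  have h1 : s ∈ S ^ 1 := by
    rw [pow_one]
    exact hsS
  have h2 := kap_lip hs hB hW hne k g h h1
  rw [Nat.cast_one, mul_one] at h2
  exact h2

theorem hl_nm (hs : Stp hv π ρ S R) {W : Lt hv n} (hW : IsSub W) (g : G) (m : ℕ) (κ : G → ℝ) :
    Nm π (hl π ρ S g m W κ) := by
  have e1 : hl π ρ S g m W κ = fun t => ⨆ s ∈ S ^ m, W ⊓ bl π (La hv ρ (g * s)) (t + -κ (g * s)) := by
    funext t
    unfold hl
    simp only [sub_eq_add_neg]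
  rw [e1]
  exact Nm.iSup (hs.fin_pow m) fun s _ => (nm_const hW).inf ((nm_bl hs.unif (La hv ρ (g * s))).shift (-κ (g * s)))

theorem hl_le (g : G) (m : ℕ) (W : Lt hv n) (κ : G → ℝ) (t : ℝ) : hl π ρ S g m W κ t ≤ W := by
  exact iSup₂_le fun s _ => inf_le_left

theorem hl_zero (g : G) (W : Lt hv n) (κ : G → ℝ) (t : ℝ) :
    hl π ρ S g 0 W κ t = W ⊓ bl π (La hv ρ g) (t - κ g) := by
  refine le_antisymm (iSup₂_le fun s hsm => ?_) ?_
  · rw [pow_zero, Set.mem_one] at hsm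
    rw [hsm, mul_one]
  · have h1 : (1 : G) ∈ S ^ 0 := by
      rw [pow_zero]
      exact Set.mem_one.2 rfl
    refine le_iSup₂_of_le (f := fun s (_ : s ∈ S ^ 0) => W ⊓ bl π (La hv ρ (g * s)) (t - κ (g * s))) 1 h1 ?_
    rw [mul_one]

theorem hl_mono (hs : Stp hv π ρ S R) (g : G) {m m' : ℕ} (h : m ≤ m') (W : Lt hv n) (κ : G → ℝ) (t : ℝ) :
    hl π ρ S g m W κ t ≤ hl π ρ S g m' W κ t := by
  exact biSup_mono fun s hsm => hs.pow_mono h hsm

theorem hl_step (hs : Stp hv π ρ S R) {κ : G → ℝ} (hκ : Lp S R κ) (g : G) (m : ℕ) (W : Lt hv n) (t : ℝ) :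
    hl π ρ S g (m + 1) W κ t ≤ hl π ρ S g m W κ (t + 2 * R) := by
  refine iSup₂_le fun s hsm => ?_
  rw [pow_succ] at hsm
  obtain ⟨a, ha, b, hb, rfl⟩ := Set.mem_mul.1 hsm
  refine le_iSup₂_of_le (f := fun s (_ : s ∈ S ^ m) => W ⊓ bl π (La hv ρ (g * s)) (t + 2 * R - κ (g * s))) a ha ?_
  refine inf_le_inf_left W ?_
  have hb1 : b ∈ S ^ 1 := by
    rw [pow_one]
    exact hb
  have h1 := (bl_La hs (g * a) hb1 (t - κ (g * (a * b)))).2
  have h2 := (abs_le.1 (hκ (g * a) b hb)).1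
  rw [mul_assoc] at h1 h2
  refine h1.trans (bl_mono hs.unif _ ?_)
  push_cast
  linarith

theorem hl_size (hs : Stp hv π ρ S R) {κ : G → ℝ} (hκ : Lp S R κ) (g : G) (m : ℕ) (W : Lt hv n) (t : ℝ) :
    hl π ρ S g m W κ t ≤ bl π (La hv ρ g) (t - κ g + 2 * R * m) := by
  refine iSup₂_le fun s hsm => inf_le_right.trans ?_
  have h1 := (bl_La hs g hsm (t - κ (g * s))).2
  have h2 := (abs_le.1 (hκ.pow g hsm)).1
  refine h1.trans (bl_mono hs.unif _ ?_)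
  linarith

theorem hl_kap (hs : Stp hv π ρ S R) {B : ℝ → Lt hv n} (hB : Hn B) {W : Lt hv n} (hW : IsSub W) (hne : W ≠ ⊥)
    (k : Fin n) (g : G) (m : ℕ) (t : ℝ) :
    hl π ρ S g m W (kap π ρ B W k g) t ≤ sg π (La hv ρ g) B k t := by
  refine iSup₂_le fun s _ => ?_
  have h1 : La hv ρ (g * s) ⊓ W ≤ sg π (La hv ρ g) B k (kap π ρ B W k g (g * s)) :=
    (kap_le_iff hs hB hW hne k g (g * s) _).2 le_rfl
  have h2 : sh π (-⌊t - kap π ρ B W k g (g * s)⌋) (La hv ρ (g * s) ⊓ W) ≤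
      sh π (-⌊t - kap π ρ B W k g (g * s)⌋) (sg π (La hv ρ g) B k (kap π ρ B W k g (g * s))) := sh_le_sh.2 h1
  have h3 : sg π (La hv ρ g) B k (kap π ρ B W k g (g * s) + (⌊t - kap π ρ B W k g (g * s)⌋ : ℤ)) =
      sh π (-⌊t - kap π ρ B W k g (g * s)⌋) (sg π (La hv ρ g) B k (kap π ρ B W k g (g * s))) :=
    (sg_nm hs.unif hB (ρ g) k).per _ _
  rw [sh_inf, sh_sub hW, ← h3, inf_comm] at h2
  refine h2.trans ((sg_nm hs.unif hB (ρ g) k).mono ?_)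
  have h4 := Int.floor_le (t - kap π ρ B W k g (g * s))
  linarith

end Pool.Agent.H75.CO
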