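import Pool.Agent.H75.CO.Blk

/-!
# [H75 CO Mat] long intervals of two interleaved shapes correspond

`absorb`: if `t₂ ≤ t₁`, `Φ' t₁ ⊓ bl M' (t₁ + X0) ≤ Φ' t₂ ⊔ bl M' X3` with `X3 ≤ t₂` then `Φ' t₁ ≤ Φ' t₂`: let `y = y₁ + z₂`, `y₁ ∈ Φ' t₂`; then
`z₂ = y - y₁ ∈ W' ⊓ bl M' X3 ≤ W' ⊓ bl M' t₂ ≤ Φ' t₂` (`big`); and `Φ' t₁ ≤ (Φ' t₁ ⊓ bl M' (t₁ + X0)) ⊔ W1'` (`gen`), `W1' ≤ Φ' t₂`.
`back_forth`: (i) if `Φ a₁ = Φ a₂`, `a₁ ≤ a₂` (distance at most `1`) then `Φ' (a₂ + μ - η) ≤ Φ' (a₁ + μ + η)`: put `t₁ = a₂ + μ - η`,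
`t₂ = a₁ + μ + η`. If `t₁ ≤ t₂`: `mono`. Otherwise for `y ∈ Φ' t₁ ⊓ bl M' (t₁ + X0)`, by `hil'`
`y = u + z`, `u ∈ Φ (t₁ - μ + η) = Φ a₂ = Φ a₁`, `z ∈ bl M' (t₁ + X0 - D)`, so `u = y - z ∈ bl M' (t₁ + X0) ≤ bl M (t₁ + X0 + R)`; let
`X2 = max (t₁ + X0 + R) (a₁ + X0)`: by `hil` `u ∈ Φ' (a₁ + μ + η) ⊔ bl M (X2 - D)`. So `y ∈ Φ' t₂ ⊔ bl M' X3`,
`X3 = max (X2 - D + R) (t₁ + X0 - D) ≤ t₂`; `absorb`.
`match_left`: `Y' = Φ' (x + μ + η)`. By (i) `Φ' (x + c + μ - η) ≤ Y'`, so they are equal by monotonicity (`c ≥ 2 η`). If `Φ' s = Y'` then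
`s ≥ x + μ - η`: otherwise by (i) for the roles exchanged (`Φ' s = Φ' (x + μ + η)`, `s ≤ x + μ + η`; if the distance of `s` and `x + μ + η` is more
than `1` replace `s` by `x + μ + η - 1`, it is in between):
`Φ ((x + μ + η) - μ - η) ≤ Φ (s - μ + η)`, i.e. `Φ x ≤ Φ (s - μ + η)`, `s - μ + η < x`, so equality, a contradiction to `x ∈ Le Φ c`.
`exists_left` gives the left endpoint `x' ∈ [x + μ - η, x + μ + η]` of `Y'`, and `Φ' (x' + c - 2 η) = Y'` as `x' ≤ x' + c - 2 η ≤ x + μ + c - η`.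
-/

set_option autoImplicit false

namespace Pool.Agent.H75.CO

open Pool.Agent.H54.TT Pool.Agent.H98.RH Matrix

variable {K : Type} [Field K] {v : K → ℤ} {hv : IsDV v} {n : ℕ} {π : Kˣ}

/-- two shapes which are interleaved -/
structure IL2 {K : Type} [Field K] {v : K → ℤ} {hv : IsDV v} {n : ℕ} (π : Kˣ) (M M' W W1 W' W1' : Lt hv n)
    (Φ Φ' : ℝ → Lt hv n) (R : ℕ) (μ η X0 D : ℝ) : Prop where
  hM : M ≤ sh π (-R) M'
  hM' : M' ≤ sh π (-R) M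
  bk : Bk π M W W1 Φ X0
  bk' : Bk π M' W' W1' Φ' X0
  il : Il π M Φ Φ' μ η X0 D
  il' : Il π M' Φ' Φ (-μ) η X0 D

private theorem absorb (hπ : v π = 1) {M' W' W1' : Lt hv n} {Φ' : ℝ → Lt hv n} {X0 : ℝ} (bk' : Bk π M' W' W1' Φ' X0)
    {t₁ t₂ X3 : ℝ} (hX3 : X3 ≤ t₂) (h : Φ' t₁ ⊓ bl π M' (t₁ + X0) ≤ Φ' t₂ ⊔ bl π M' X3) : Φ' t₁ ≤ Φ' t₂ := by
  refine (bk'.gen t₁).trans (sup_le ?_ (bk'.ge t₂))
  intro y hy
  obtain ⟨y₁, hy₁, z₂, hz₂, hyz⟩ := Submodule.mem_sup.1 (h hy)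
  have h1 : z₂ ∈ W' := by
    have e : z₂ = y - y₁ := by
      rw [← hyz, add_sub_cancel_left]
    rw [e]
    exact W'.sub_mem (bk'.le t₁ hy.1) (bk'.le t₂ hy₁)
  have h2 : z₂ ∈ Φ' t₂ := bk'.big t₂ ⟨h1, bl_mono hπ M' hX3 hz₂⟩
  rw [← hyz]
  exact (Φ' t₂).add_mem hy₁ h2

theorem back_forth (hπ : v π = 1) {M M' W W1 W' W1' : Lt hv n} {Φ Φ' : ℝ → Lt hv n} {R : ℕ} {μ η X0 D : ℝ}
    (h : IL2 π M M' W W1 W' W1' Φ Φ' R μ η X0 D) (hη : 0 ≤ η) (hη1 : η ≤ 1) (hX : 0 ≤ X0)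
    (hD : 2 * X0 + 2 * |μ| + 4 * R + 10 ≤ D) {a₁ a₂ : ℝ} (ha : a₁ ≤ a₂) (ha1 : a₂ ≤ a₁ + 1) (he : Φ a₁ = Φ a₂) :
    Φ' (a₂ + μ - η) ≤ Φ' (a₁ + μ + η) := by
  have hR : (0 : ℝ) ≤ R := Nat.cast_nonneg R
  have hμ1 := neg_abs_le μ
  have hμ2 := abs_nonneg μ
  refine absorb hπ h.bk' (X3 := max (max (a₂ + μ - η + X0 + R) (a₁ + X0) - D + R) (a₂ + μ - η + X0 - D)) ?_ ?_
  · refine max_le ?_ (by linarith)
    have h1 : max (a₂ + μ - η + X0 + R) (a₁ + X0) ≤ a₁ + μ + η + D - R := max_le (by linarith) (by linarith)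
    linarith
  · intro y hy
    have h1 := h.il' (a₂ + μ - η) (a₂ + μ - η + X0) le_rfl hy
    have e1 : a₂ + μ - η + -μ + η = a₂ := by ring
    rw [e1, ← he] at h1
    obtain ⟨u, hu, z, hz, huz⟩ := Submodule.mem_sup.1 h1
    have h2 : z ∈ bl π M' (a₂ + μ - η + X0) := bl_mono hπ M' (by linarith) hz
    have h3 : u ∈ bl π M' (a₂ + μ - η + X0) := by
      have e : u = y - z := by rw [← huz, add_sub_cancel_right]
      rw [e]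
      exact Submodule.sub_mem _ hy.2 h2
    have h4 : u ∈ bl π M (max (a₂ + μ - η + X0 + R) (a₁ + X0)) :=
      bl_mono hπ M (le_max_left _ _) (bl_change hπ h.hM' _ h3)
    have h5 := h.il a₁ (max (a₂ + μ - η + X0 + R) (a₁ + X0)) (le_max_right _ _) ⟨hu, h4⟩
    have h6 : Φ' (a₁ + μ + η) ⊔ bl π M (max (a₂ + μ - η + X0 + R) (a₁ + X0) - D) ≤
        Φ' (a₁ + μ + η) ⊔ bl π M' (max (max (a₂ + μ - η + X0 + R) (a₁ + X0) - D + R) (a₂ + μ - η + X0 - D)) :=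
      sup_le_sup_left ((bl_change hπ h.hM _).trans (bl_mono hπ M' (le_max_left _ _))) _
    have h7 : bl π M' (a₂ + μ - η + X0 - D) ≤
        Φ' (a₁ + μ + η) ⊔ bl π M' (max (max (a₂ + μ - η + X0 + R) (a₁ + X0) - D + R) (a₂ + μ - η + X0 - D)) :=
      (bl_mono hπ M' (le_max_right _ _)).trans le_sup_right
    rw [← huz]
    exact Submodule.add_mem _ (h6 h5) (h7 hz)

theorem IL2.symm {M M' W W1 W' W1' : Lt hv n} {Φ Φ' : ℝ → Lt hv n} {R : ℕ} {μ η X0 D : ℝ}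
    (h : IL2 π M M' W W1 W' W1' Φ Φ' R μ η X0 D) : IL2 π M' M W' W1' W W1 Φ' Φ R (-μ) η X0 D := by
  refine ⟨h.hM', h.hM, h.bk', h.bk, h.il', ?_⟩
  rw [neg_neg]
  exact h.il

theorem match_left (hπ : v π = 1) {M M' W W1 W' W1' : Lt hv n} {Φ Φ' : ℝ → Lt hv n} {R : ℕ} {μ η X0 D c : ℝ}
    (h : IL2 π M M' W W1 W' W1' Φ Φ' R μ η X0 D) (hη : 0 ≤ η) (hX : 0 ≤ X0)
    (hD : 2 * X0 + 2 * |μ| + 4 * R + 10 ≤ D) (hc : 4 * η < c) (hc1 : c ≤ 1) {x : ℝ} (hx : x ∈ Le Φ c) :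
    ∃ x' ∈ Le Φ' (c - 2 * η), |x' - x - μ| ≤ η := by
  have hm := h.bk'.nm.mono
  have h1 : Φ' (x + c + μ - η) = Φ' (x + μ + η) :=
    le_antisymm (back_forth hπ h hη (by linarith) hX hD (by linarith) (by linarith) hx.1) (hm (by linarith))
  have h2 : ∀ s, Φ' s = Φ' (x + μ + η) → x + μ - η ≤ s := by
    intro s hs
    by_contra hcon
    have hlt : s < x + μ - η := not_le.1 hcon
    have h3 : max s (x + μ + η - 1) < x + μ - η := max_lt hlt (by linarith)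
    have h4 : Φ' (max s (x + μ + η - 1)) = Φ' (x + μ + η) :=
      le_antisymm (hm (by linarith)) (hs.ge.trans (hm (le_max_left _ _)))
    have hD' : 2 * X0 + 2 * |(-μ)| + 4 * R + 10 ≤ D := by
      rw [abs_neg]
      exact hD
    have h5 := back_forth hπ h.symm hη (by linarith) hX hD' (a₁ := max s (x + μ + η - 1)) (a₂ := x + μ + η)
      (by linarith) (by linarith [le_max_right s (x + μ + η - 1)]) h4
    have e1 : x + μ + η + -μ - η = x := by ring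
    rw [e1] at h5
    exact hx.2 (max s (x + μ + η - 1) + -μ + η) (by linarith)
      (le_antisymm (h.bk.nm.mono (by linarith)) h5)
  obtain ⟨x', hx1, hx2, hx3, hx4⟩ := exists_left h.bk'.nm h2
  refine ⟨x', ⟨le_antisymm (hm (by linarith)) ?_, fun s hs he => hx4 s hs (he.trans hx3)⟩, ?_⟩
  · rw [hx3, ← h1]
    exact hm (by linarith)
  · rw [abs_le]
    constructor <;> linarith

end Pool.Agent.H75.CO
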