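import Pool.Agent.H75.CO.Prc
import Pool.Agent.H75.CO.Mat

/-!
# [H75 CO Ilv] the shapes of two towers are interleaved

Write `Λ i = Ln (AA n R) c i`, `g' = g * s`, `D = Λ (be_r + 1) / 4`, `M = Λ (a_l + 1)`, `M' = Λ (be_l - 2)`, `e = ε = ep n`, `X0 = 2 R Λ (a_r + 1)`.
`pt_il`: `pt_cm` for the level `l` (the number `x` there). `bk`, `bk'`: `Fb_bk` with `2 R M ≤ X0` (`Bk.mono`, `a_l ≤ a_r`, `Rg.a_le`). `μ = κ g + x - κ' g'`;
`|μ| ≤ |κ g + x - κ' g| + |κ' g - κ' g'| ≤ ep n + R` (`Cm.cmp` for `t = 1`, `kap_lip`).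
`il`: `Fb_il` with `D`, `M`, `M'`, `b = Λ b_l`, `a = Λ a_l` (t2 of the strong tower), `Cm.weak` to `m = M ≤ M' + 1`; the result has `μ`, `η = ep n + ep n`, `2 R M`
and `D`; `Il.mono`. (`h3`: `Λ a ≤ ep n * Λ (a + 1)` is `Ln_ep`.)
`il'`: `Cm.symm` gives `Cm .. (D - 2 R) e (-x) M' g' (W' l) (W l) κ' κ` (use `Cm.weak` to `M' + 1` before, to `M` afterwards); `Fb_il` with `g := g'`, `s := s⁻¹`
(`g' s⁻¹ = g`), `D := D - 2 R`, `b = Λ b_l / 2`, `a = 2 Λ a_l` (t2 of the weak tower), `Ap.change` for `W (l + 1)`, `W' (l + 1)`: the result has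
`κ' g' - x - κ g = -μ`.
-/

set_option autoImplicit false

namespace Pool.Agent.H75.CO

open Pool.Agent.H54.TT Pool.Agent.H98.RH Matrix
open scoped Pointwise

variable {K : Type} [Field K] {v : K → ℤ} {hv : IsDV v} {n : ℕ} {π : Kˣ} {G : Type} [Group G]
  {ρ : G →* GL (Fin n) K} {S : Set G} {R : ℕ}

theorem Bk.mono (hπ : v π = 1) {M W W1 : Lt hv n} {Φ : ℝ → Lt hv n} {X0 X0' : ℝ} (h : Bk π M W W1 Φ X0) (hX : X0 ≤ X0') :
    Bk π M W W1 Φ X0' where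
  nm := h.nm
  le := h.le
  ge := h.ge
  big := h.big
  gen t := (h.gen t).trans (sup_le_sup_right (inf_le_inf_left _ (bl_mono hπ M (by linarith))) _)

theorem Il.mono (hπ : v π = 1) {M : Lt hv n} {Φ Φ' : ℝ → Lt hv n} {μ η X0 X0' D D' : ℝ} (h : Il π M Φ Φ' μ η X0 D)
    (hX : X0 ≤ X0') (hD : D' ≤ D) : Il π M Φ Φ' μ η X0' D' := by
  intro t X hX'
  exact (h t X (by linarith)).trans (sup_le_sup_left (bl_mono hπ M (by linarith)) _)

private theorem ln_a_le {c r : ℕ} {d : ℕ → Dat n (NN n)} (hd : Rg r d) {l : ℕ} (hl : l ≤ r) :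
    2 * (R : ℝ) * Ln (AA n R) c ((d l).a + 1) ≤ 2 * R * Ln (AA n R) c ((d r).a + 1) := by
  have h1 := Ln_mono' n R c (Nat.add_le_add_right (hd.a_le hl le_rfl) 1)
  exact mul_le_mul_of_nonneg_left h1 (by positivity)

/-- the shape of a level of a tower -/
theorem tw_bk (hs : Stp hv π ρ S R) {c r : ℕ} {d : ℕ → Dat n (NN n)} (hd : Rg r d) {g : G} {B : ℝ → Lt hv n}
    (hB : Hn B) {θ : ℝ} {W : ℕ → Lt hv n} (h : Tw π ρ S (AA n R) c θ r d g B W) {l : ℕ} (hl : l ≤ r) :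
    Bk π (La hv ρ g) (W l) (W (l + 1)) (Sp π ρ S (AA n R) c (d l) g B (W l) (W (l + 1)))
      (2 * R * Ln (AA n R) c ((d r).a + 1)) := by
  have hW : IsSub (W l) := h.isSub (by omega)
  have hW1 : IsSub (W (l + 1)) := h.isSub (by omega)
  exact Bk.mono hs.unif (Fb_bk hs hW hW1 (h.lv l hl).le (kap_lp hs hB hW (h.ne l hl) (d l).k g) (ep_pos n).le g
    (Ln (AA n R) c ((d l).a + 1))) (ln_a_le hd hl)

theorem pt_il {c r : ℕ} {d : ℕ → Dat n (NN n)} {g s : G} {B0 B : ℝ → Lt hv n} {W W' : ℕ → Lt hv n}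
    (h : Pt π ρ S R c r d g s B0 B W W') {l : ℕ} (hl : l ≤ r) :
    ∃ μ : ℝ, |μ| ≤ R + 1 ∧ IL2 π (La hv ρ g) (La hv ρ (g * s)) (W l) (W (l + 1)) (W' l) (W' (l + 1))
      (Sp π ρ S (AA n R) c (d l) g B0 (W l) (W (l + 1))) (Sp π ρ S (AA n R) c (d l) (g * s) B (W' l) (W' (l + 1)))
      R μ (2 * ep n) (2 * R * Ln (AA n R) c ((d r).a + 1)) ((Ln (AA n R) c ((d r).be + 1) : ℝ) / 4 - 2 * R) := by
  obtain ⟨hap, hap', x, -, hC⟩ := pt_cm h hl
  have hs := h.hs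
  have hπ := hs.unif
  have hc := h.hc
  have hd := h.hd
  have hR0 : (0 : ℝ) ≤ R := Nat.cast_nonneg R
  have hep := ep_pos n
  have hep1 := ep_le n
  obtain ⟨c1, c2, c3⟩ := hd.c1 l hl
  have cbe : ((d r).be : ℕ) ≤ (d l).be := hd.be_le hl le_rfl
  have ca : ((d l).a : ℕ) ≤ (d r).a := hd.a_le hl le_rfl
  obtain ⟨r1, r2, r3⟩ := hd.c1 r le_rfl
  have hW : IsSub (W l) := h.tw.isSub (by omega)
  have hW1 : IsSub (W (l + 1)) := h.tw.isSub (by omega)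
  have hW' : IsSub (W' l) := h.tw'.isSub (by omega)
  have hW1' : IsSub (W' (l + 1)) := h.tw'.isSub (by omega)
  have hκ : Lp S R (kap π ρ B0 (W l) (d l).k g) := kap_lp hs h.hB0 hW (h.tw.ne l hl) (d l).k g
  have hκ' : Lp S R (kap π ρ B (W' l) (d l).k (g * s)) := kap_lp hs h.hB hW' (h.tw'.ne l hl) (d l).k (g * s)
  have hM : 1 ≤ Ln (AA n R) c ((d l).a + 1) := Ln_one' n R hc _
  have hMM : Ln (AA n R) c ((d l).a + 1) ≤ Ln (AA n R) c ((d l).be - 2) := Ln_mono n R c (by omega)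
  have hD1 : 1000000 * ((R : ℝ) * Ln (AA n R) c ((d l).a + 1)) ≤ Ln (AA n R) c ((d r).be + 1) :=
    Ln_R_lt n R c (by omega)
  have hD2 : 1000000 * (R : ℝ) ≤ Ln (AA n R) c ((d r).be + 1) := Ln_R n R hc (by omega)
  have hb1 : 1000000 * ((R : ℝ) * Ln (AA n R) c ((d l).a + 1)) ≤ Ln (AA n R) c (d l).b := Ln_R_lt n R c (by omega)
  have hb2 : 1000000 * (Ln (AA n R) c ((d l).a + 1) : ℝ) ≤ Ln (AA n R) c (d l).b := Ln_one_lt n R c (by omega)
  have hb3 : (1000000 : ℝ) ≤ Ln (AA n R) c (d l).b := Ln_big n R hc (by omega)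
  have ha : 1000 * (Ln (AA n R) c (d l).a : ℝ) ≤ ep n * Ln (AA n R) c ((d l).a + 1) := Ln_ep n R c (by omega)
  have ha0 : (1 : ℝ) ≤ Ln (AA n R) c (d l).a := Ln_one n R hc _
  have hM0 : (1 : ℝ) ≤ Ln (AA n R) c ((d l).a + 1) := Ln_one n R hc _
  have hRM : (R : ℝ) ≤ R * Ln (AA n R) c ((d l).a + 1) := le_mul_of_one_le_right hR0 hM0
  have hRM0 : 0 ≤ (R : ℝ) * Ln (AA n R) c ((d l).a + 1) := mul_nonneg hR0 (by linarith)
  have heM : ep n * Ln (AA n R) c ((d l).a + 1) ≤ Ln (AA n R) c ((d l).a + 1) :=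
    mul_le_of_le_one_left (by linarith) (by linarith)
  refine ⟨kap π ρ B0 (W l) (d l).k g g + x - kap π ρ B (W' l) (d l).k (g * s) (g * s), ?_,
    La_le hs g h.hsS, La_ge hs g h.hsS, tw_bk hs hd h.hB0 h.tw hl, tw_bk hs hd h.hB h.tw' hl, ?_, ?_⟩
  · have h1 := hC.cmp 1 (hs.one_mem _)
    rw [mul_one] at h1
    have h2 := hκ' g s h.hsS
    rw [abs_le] at h1 h2 ⊢
    constructor <;> linarith [h1.1, h1.2, h2.1, h2.2]
  · have key := Fb_il hs (b := Ln (AA n R) c (d l).b) (a := Ln (AA n R) c (d l).a) h.hsS hW hW' hW1 hW1'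
      (h.tw.lv l hl).le hκ hep.le hep.le (Cm.weak hs hC le_rfl (by omega)) hap hM hMM (fun T hT => by
        have h2 := (h.tw.lv l hl).t2 T (by rwa [div_one])
        rwa [one_mul] at h2) (by linarith) (by linarith) (by linarith)
    rw [← two_mul] at key
    exact Il.mono hπ key (ln_a_le hd hl) (by linarith)
  · have hC' := Cm.symm hs h.hsS hW hW' hC
    have key := Fb_il hs (b := Ln (AA n R) c (d l).b / 2) (a := 2 * Ln (AA n R) c (d l).a) (hs.inv s h.hsS) hW' hW hW1'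
      hW1 (h.tw'.lv l hl).le hκ' hep.le hep.le (Cm.weak hs hC' le_rfl hMM)
      (Ap.change hπ hW1' hW1 (La_ge hs g h.hsS) (La_le hs g h.hsS) hap') hM hMM (h.tw'.lv l hl).t2
      (by linarith) (by linarith) (by linarith)
    rw [← two_mul, mul_inv_cancel_right] at key
    have e1 : kap π ρ B (W' l) (d l).k (g * s) (g * s) + -x - kap π ρ B0 (W l) (d l).k g g =
        -(kap π ρ B0 (W l) (d l).k g g + x - kap π ρ B (W' l) (d l).k (g * s) (g * s)) := by ring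
    rw [e1] at key
    exact Il.mono hπ key (ln_a_le hd hl) le_rfl

end Pool.Agent.H75.CO
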