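import Pool.Agent.H75.CO.Kap
import Pool.Agent.H75.CO.BCh

/-!
# [H75 CO Kcm] comparison of the numbers `kap`

Put `g' = g * s` and `h = g * t`, `t ∈ S ^ m`, `c = R * m`; `π ^ c La h ≤ La g`, `π ^ c La g ≤ La h` (`La_pow`).
(1) `κ_0 = kap B0 W k g h`, `κ_1 = kap B W k g h`: `|κ_1 - κ_0| ≤ e`. `κ_0 ≥ -Y1 - c` (`kap_lip`), so `κ_0 - c ≥ -D`. For `x ∈ La h ⊓ W`:
`π ^ c x ∈ La g ⊓ sg B0 (κ_0 - c) ≤ sg B (κ_0 - c + e)` (`Cl`), so `x ∈ sg B (κ_0 + e)`: `κ_1 ≤ κ_0 + e`. Conversely for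
`t' = max κ_1 (c - D)` in the same way `κ_0 ≤ t' + e`; as `κ_0 > c - D + e`, `t' = κ_1`.
(2) `κ_2 = kap B W' k g h` satisfies `κ_2 = κ_1`: for `x ∈ La h ⊓ W'`, `π ^ c x ∈ W' ⊓ La g ≤ W ⊔ bl (La g) (-D)`, so `x = y + z`, `y ∈ W`,
`z ∈ bl (La g) (c - D) ≤ La h` (`2 c ≤ D`), so `y = x - z ∈ La h ⊓ W ≤ sg B κ_1`, and `z ∈ bl (La g) (c - D) ≤ sg B (c - D) ≤ sg B κ_1`
(`κ_1 ≥ κ_0 - e ≥ c - D`). So `κ_2 ≤ κ_1`. Conversely `κ_1 ≤ max κ_2 (c - D)` and `κ_1 > c - D`.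
(3) `κ' = kap B W' k g' h`. `base_change` with `h := ρ g'`, `h' := ρ g`, `Y := Y2` gives `l₀`, `|l₀| ≤ R`, for `x ∈ W' ⊓ La g'`,
`t ≥ -Y2 + 6 R + 3`: `x ∈ sg (La g') t ↔ x ∈ sg (La g) (t + l₀)`. For `x ∈ La h ⊓ W'` apply this to `π ^ (c + R) x ∈ W' ⊓ La g'`: for
`t ≥ c + R - Y2 + 6 R + 3 =: t₀` we have `La h ⊓ W' ≤ sg (La g') t ↔ La h ⊓ W' ≤ sg (La g) (t + l₀)`, that is `κ' ≤ t ↔ κ_2 ≤ t + l₀`. As
`κ_2 - l₀ > t₀` this gives `κ' = κ_2 - l₀` (`κ_2 ≥ κ_0 - e ≥ -Y1 - c - e`). So `l = - l₀` does not depend on `t`.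
-/

set_option autoImplicit false

namespace Pool.Agent.H75.CO

open Pool.Agent.H54.TT Pool.Agent.H98.RH Matrix
open scoped Pointwise

variable {K : Type} [Field K] {v : K → ℤ} {hv : IsDV v} {n : ℕ} {π : Kˣ} {G : Type} [Group G]
  {ρ : G →* GL (Fin n) K} {S : Set G} {R : ℕ}

private lemma per_sub {P : ℝ → Lt hv n} (hP : Nm π P) (a : ℝ) (c : ℕ) : P (a - c) = sh π (c : ℤ) (P a) := by
  have h := hP.per a (-(c : ℤ))
  rw [neg_neg] at h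
  rw [← h]
  congr 1
  push_cast
  ring

/-- transfer of an inclusion -/
private lemma tr {P Q : ℝ → Lt hv n} (hP : Nm π P) (hQ : Nm π Q) {M N : Lt hv n} {c : ℕ}
    (hN : N ≤ sh π (-(c : ℤ)) M) {a b : ℝ} (h : M ⊓ P (a - c) ≤ Q (b - c)) (ha : N ≤ P a) : N ≤ Q b := by
  rw [← sh_le_sh (π := π) (k := (c : ℤ)), ← per_sub hQ]
  refine le_trans (le_inf ?_ ?_) h
  · have h1 := (sh_le_sh (π := π) (k := (c : ℤ))).2 hN
    rwa [sh_sh, add_neg_cancel, sh_zero] at h1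
  · rw [per_sub hP]
    exact sh_le_sh.2 ha

private lemma swap (hπ : v π = 1) {Mg Mh W W' : Lt hv n} (hW : IsSub W) (hW' : IsSub W') {c : ℕ} {D : ℝ}
    (h1 : Mg ≤ sh π (-(c : ℤ)) Mh) (h2 : Mh ≤ sh π (-(c : ℤ)) Mg) (hD : 2 * (c : ℝ) ≤ D)
    (hap : Ap π Mg D W' W) : Mh ⊓ W' ≤ (Mh ⊓ W) ⊔ bl π Mg (c - D) := by
  rintro x ⟨hx1, hx2⟩
  have hsc := Ap.scale hπ hW' hW hap (c : ℝ)
  have e : bl π Mg (c : ℝ) = sh π (-(c : ℤ)) Mg := by
    have h := bl_int (π := π) Mg (c : ℤ)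
    rwa [Int.cast_natCast] at h
  have hx3 : x ∈ W ⊔ bl π Mg (c - D) := hsc ⟨hx2, by rw [e]; exact h2 hx1⟩
  obtain ⟨y, hy, z, hz, hyz⟩ := Submodule.mem_sup.1 hx3
  have hz2 : z ∈ Mh := by
    have h3 := bl_change hπ h1 ((c : ℝ) - D) hz
    have h4 := bl_mono hπ Mh (show (c : ℝ) - D + (c : ℕ) ≤ 0 by linarith) h3
    rwa [bl_zero] at h4
  refine Submodule.mem_sup.2 ⟨y, ⟨?_, hy⟩, z, hz, hyz⟩
  have h5 : y = x - z := by rw [← hyz, add_sub_cancel_right]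
  rw [h5]
  exact Submodule.sub_mem _ hx1 hz2

theorem kap_cmp (hs : Stp hv π ρ S R) {B0 B : ℝ → Lt hv n} (hB0 : Hn B0) (hB : Hn B) {g s : G} (hsS : s ∈ S)
    {W W' : Lt hv n} (hW : IsSub W) (hW' : IsSub W') (hne : W ≠ ⊥) (hne' : W' ≠ ⊥) {k : Fin n} {e D Y1 Y2 : ℝ} {m : ℕ}
    (he : 0 ≤ e) (he1 : e ≤ 1) (hcl : Cl π (La hv ρ g) B B0 e D) (hap : Ap π (La hv ρ g) D W W')
    (hap' : Ap π (La hv ρ g) D W' W) (hy1 : -Y1 ≤ kap π ρ B0 W k g g)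
    (hy2 : ∀ k' : Fin n, (k' : ℕ) + 1 = k → W' ⊓ La hv ρ (g * s) ≤ sg π (La hv ρ (g * s)) B k' (-Y2))
    (hY : Y1 + 3 * R * (m + 1) + 10 * R + 10 ≤ Y2) (hD : Y1 + 3 * R * (m + 1) + 10 * R + 10 ≤ D) :
    ∃ l : ℝ, |l| ≤ R ∧ ∀ t ∈ S ^ m, |kap π ρ B W' k (g * s) (g * t) - kap π ρ B0 W k g (g * t) - l| ≤ e := by
  have hπ := hs.unif
  have hR0 : (0 : ℝ) ≤ R := Nat.cast_nonneg R
  obtain ⟨l0, hl0, hbc⟩ := base_change hπ hB (h := ρ (g * s)) (h' := ρ g) (R := R) (La_ge hs g hsS)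
    (La_le hs g hsS) hW' k hy2
  refine ⟨-l0, by rwa [abs_neg], fun t ht => ?_⟩
  obtain ⟨hgh, hhg⟩ := La_pow hs g ht
  have hc0 : (0 : ℝ) ≤ ((R * m : ℕ) : ℝ) := Nat.cast_nonneg _
  have hc3 : (3 : ℝ) * R * (m + 1) = 3 * ((R * m : ℕ) : ℝ) + 3 * R := by
    push_cast
    ring
  have hlip := kap_lip hs hB0 hW hne k g g ht
  have hcr : (R : ℝ) * m = ((R * m : ℕ) : ℝ) := by push_cast; ring
  rw [hcr] at hlip
  rw [hc3] at hY hD
  generalize (R * m : ℕ) = c at hgh hhg hc0 hlip hY hD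
  have hnB : Nm π (sg π (La hv ρ g) B k) := sg_nm hπ hB (ρ g) k
  have hnB0 : Nm π (sg π (La hv ρ g) B0 k) := sg_nm hπ hB0 (ρ g) k
  have hnB' : Nm π (sg π (La hv ρ (g * s)) B k) := sg_nm hπ hB (ρ (g * s)) k
  have hY1 : 0 ≤ Y1 := by
    have h1 := kap_nonpos hs hB0 hW hne k g
    linarith
  have hlo : -Y1 - c ≤ kap π ρ B0 W k g (g * t) := by
    have h1 := (abs_le.1 hlip).1
    linarith
  -- step 1
  have i0 := fun x => kap_le_iff hs hB0 hW hne k g (g * t) x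
  have i1 := fun x => kap_le_iff hs hB hW hne k g (g * t) x
  have i2 := fun x => kap_le_iff hs hB hW' hne' k g (g * t) x
  have i3 := fun x => kap_le_iff hs hB hW' hne' k (g * s) (g * t) x
  generalize hk0 : kap π ρ B0 W k g (g * t) = κ0 at *
  generalize hk1 : kap π ρ B W k g (g * t) = κ1 at *
  generalize hk2 : kap π ρ B W' k g (g * t) = κ2 at *
  generalize hk3 : kap π ρ B W' k (g * s) (g * t) = κ3 at *
  have a1 : κ1 ≤ κ0 + e := by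
    refine (i1 _).1 (tr hnB0 hnB (inf_le_left.trans hhg) ?_ ((i0 κ0).2 le_rfl))
    have h1 := (hcl k (κ0 - c) (by linarith)).2
    rwa [show κ0 - c + e = κ0 + e - c by ring] at h1
  have a2 : κ0 ≤ κ1 + e := by
    have h1 : κ0 ≤ max κ1 (c - D) + e := by
      refine (i0 _).1 (tr hnB hnB0 (inf_le_left.trans hhg) ?_ ((i1 _).2 (le_max_left κ1 (c - D))))
      have h2 := (hcl k (max κ1 (c - D) - c) (by
        have := le_max_right κ1 ((c : ℝ) - D)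
        linarith)).1
      rwa [show max κ1 (c - D) - c + e = max κ1 (c - D) + e - c by ring] at h2
    rcases le_total ((c : ℝ) - D) κ1 with h2 | h2
    · rwa [max_eq_left h2] at h1
    · rw [max_eq_right h2] at h1
      exfalso
      linarith
  -- step 2
  have hcD : (c : ℝ) - D ≤ κ1 := by linarith
  have b1 : κ2 ≤ κ1 := by
    refine (i2 _).1 ((swap hπ hW hW' hgh hhg (by linarith) hap').trans (sup_le ((i1 κ1).2 le_rfl) ?_))
    exact (bl_le_sg _ _ _ _).trans (hnB.mono hcD)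
  have b2 : κ1 ≤ κ2 := by
    have h1 : κ1 ≤ max κ2 (c - D) := by
      refine (i1 _).1 ((swap hπ hW' hW hgh hhg (by linarith) hap).trans (sup_le
        ((i2 _).2 (le_max_left _ _)) ?_))
      exact (bl_le_sg _ _ _ _).trans (hnB.mono (le_max_right _ _))
    rcases le_total ((c : ℝ) - D) κ2 with h2 | h2
    · rwa [max_eq_left h2] at h1
    · rw [max_eq_right h2] at h1
      exfalso
      linarith
  have b3 : κ2 = κ1 := le_antisymm b1 b2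
  -- step 3
  have key : ∀ x : ℝ, (c : ℝ) + R - Y2 + 6 * R + 3 ≤ x → (κ3 ≤ x ↔ κ2 ≤ x + l0) := by
    intro x hx
    have hsh : La hv ρ (g * t) ≤ sh π (-((c + R : ℕ) : ℤ)) (La hv ρ (g * s)) := by
      refine hhg.trans ?_
      have h1 := (sh_le_sh (π := π) (k := -(c : ℤ))).2 (La_le hs g hsS)
      rw [sh_sh] at h1
      have e1 : -((c + R : ℕ) : ℤ) = -(c : ℤ) + -(R : ℤ) := by push_cast; ring
      rw [e1]
      exact h1
    have hsub : sh π ((c + R : ℕ) : ℤ) (La hv ρ (g * t) ⊓ W') ≤ W' ⊓ La hv ρ (g * s) := by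
      refine le_inf ?_ ?_
      · rw [sh_inf, sh_sub hW']
        exact inf_le_right
      · have h1 := (sh_le_sh (π := π) (k := ((c + R : ℕ) : ℤ))).2 ((inf_le_left (b := W')).trans hsh)
        rwa [sh_sh, add_neg_cancel, sh_zero] at h1
    have hx2 : -Y2 + 6 * R + 3 ≤ x - (c + R : ℕ) := by
      push_cast
      linarith
    rw [← i3 x, ← i2 (x + l0), ← sh_le_sh (π := π) (k := ((c + R : ℕ) : ℤ)), ← per_sub hnB',
      ← sh_le_sh (π := π) (k := ((c + R : ℕ) : ℤ)) (M' := sg π (La hv ρ g) B k (x + l0)), ← per_sub hnB,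
      show x + l0 - ((c + R : ℕ) : ℝ) = x - ((c + R : ℕ) : ℝ) + l0 by ring]
    constructor
    · intro h y hy
      exact (hbc _ hx2 y (hsub hy)).1 (h hy)
    · intro h y hy
      exact (hbc _ hx2 y (hsub hy)).2 (h hy)
  have hl1 := (abs_le.1 hl0).1
  have hl2 := (abs_le.1 hl0).2
  have c1 : κ3 ≤ κ2 - l0 := by
    rw [key _ (by linarith)]
    linarith
  have c2 : κ2 - l0 ≤ κ3 := by
    by_contra hcon
    rw [not_le] at hcon
    have h1 : κ3 ≤ max κ3 ((c : ℝ) + R - Y2 + 6 * R + 3) := le_max_left _ _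
    rw [key _ (le_max_right _ _)] at h1
    rcases le_total ((c : ℝ) + R - Y2 + 6 * R + 3) κ3 with h2 | h2
    · rw [max_eq_left h2] at h1
      linarith
    · rw [max_eq_right h2] at h1
      linarith
  rw [abs_le]
  constructor
  · linarith
  · linarith

end Pool.Agent.H75.CO
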