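import Pool.Agent.H75.CO.Nmf

/-!
# [H75 CO Ltc] lattices `LM hv h` and the lattices of the group elements

`mem_sh_LM`: `x ∈ sh π k (LM hv h)` iff all coordinates of `h⁻¹ x` have valuation at least `k` (or are zero). `exists_mem_sh`,
`exists_not_mem_sh`: there are only finitely many coordinates. `exists_LM_le`: `LM hv h` is spanned by the `n` columns of `h`; take
the maximum of the `t` with `column i ∈ P t`. `inf_LM_ne_bot`: take `x ≠ 0` in `W` and multiply with a power of `π`.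
`exists_prim`: if `W ≠ ⊥` then `LM hv h ⊓ W` is not contained in `sh π 1 (LM hv h)`: take `x ≠ 0` in `W`, and the largest `k` with
`x ∈ sh π k (LM hv h)`. `La_le`, `La_ge`: `La (g s) = ρ g (La s)` and `sh π R L0 ≤ La s ≤ sh π (-R) L0`. `La_pow`: induction on `m`,
`S ^ (m + 1) = S ^ m * S`. `bl_La`: `bl_change`. The rest: `S` is symmetric and contains `1`.
-/

set_option autoImplicit false

namespace Pool.Agent.H75.CO

open Pool.Agent.H54.TT Pool.Agent.H98.RH Matrix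
open scoped Pointwise

variable {K : Type} [Field K] {v : K → ℤ} {hv : IsDV v} {n : ℕ} {π : Kˣ}

theorem mem_sh_LM (hπ : v π = 1) {k : ℤ} {h : GL (Fin n) K} {x : Fin n → K} :
    x ∈ sh π k (LM hv h) ↔ ∀ i, Ge v k (((h⁻¹ : GL (Fin n) K).val *ᵥ x) i) := by
  rw [mem_sh, Pool.Agent.H25.DI.mem_LM]
  refine forall_congr' fun i => ?_
  rw [Matrix.mulVec_smul, Pi.smul_apply, smul_eq_mul, Pool.Agent.H25.DI.ge_zpow hv hπ]

theorem exists_mem_sh (hπ : v π = 1) (h : GL (Fin n) K) (x : Fin n → K) : ∃ k : ℤ, x ∈ sh π k (LM hv h) := by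
  obtain ⟨k, hk⟩ := (Set.finite_range fun i => v (((h⁻¹ : GL (Fin n) K).val *ᵥ x) i)).bddBelow
  exact ⟨k, (mem_sh_LM hπ).2 fun i _ => hk ⟨i, rfl⟩⟩

theorem exists_not_mem_sh (hπ : v π = 1) (h : GL (Fin n) K) {x : Fin n → K} (hx : x ≠ 0) :
    ∃ k : ℤ, x ∉ sh π k (LM hv h) := by
  have hy : (h⁻¹ : GL (Fin n) K).val *ᵥ x ≠ 0 := by
    intro h0
    apply hx
    rw [← Pool.Agent.H25.DI.mulVec_inv h x, h0, Matrix.mulVec_zero]
  obtain ⟨i, hi⟩ := Function.ne_iff.1 hy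
  refine ⟨v (((h⁻¹ : GL (Fin n) K).val *ᵥ x) i) + 1, fun hm => ?_⟩
  have h1 := (mem_sh_LM hπ).1 hm i hi
  omega

theorem exists_LM_le (h : GL (Fin n) K) {P : ℝ → Lt hv n} (hP : Nm π P) (hex : ∀ x, ∃ t, x ∈ P t) :
    ∃ t, LM hv h ≤ P t := by
  choose t ht using hex
  obtain ⟨T, hT⟩ := (Set.finite_range fun i => t (h.val.col i)).bddAbove
  refine ⟨T, ?_⟩
  rintro _ ⟨y, hy, rfl⟩
  show h.val *ᵥ y ∈ P T
  rw [Matrix.mulVec_eq_sum]
  refine Submodule.sum_mem _ fun i _ => ?_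
  have h1 : h.val.col i ∈ P T := hP.mono (hT ⟨i, rfl⟩) (ht _)
  have h2 : MulOpposite.op (y i) • (h.val)ᵀ i = (⟨y i, hy i⟩ : Ov hv) • h.val.col i := by
    ext j
    show h.val j i * y i = y i * h.val j i
    ring
  rw [h2]
  exact (P T).smul_mem _ h1

theorem inf_LM_ne_bot (hπ : v π = 1) {W : Lt hv n} (hW : IsSub W) (hne : W ≠ ⊥) (h : GL (Fin n) K) :
    LM hv h ⊓ W ≠ ⊥ := by
  obtain ⟨x, hx, hx0⟩ := Submodule.exists_mem_ne_zero_of_ne_bot hne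
  obtain ⟨k, hk⟩ := exists_mem_sh (hv := hv) hπ h x
  intro hbot
  have h1 : ((π ^ (-k) : Kˣ) : K) • x ∈ LM hv h ⊓ W := ⟨mem_sh.1 hk, hW _ _ hx⟩
  rw [hbot, Submodule.mem_bot] at h1
  exact (smul_ne_zero (Units.ne_zero _) hx0) h1

theorem exists_prim (hπ : v π = 1) {W : Lt hv n} (hW : IsSub W) (hne : W ≠ ⊥) (h : GL (Fin n) K) :
    ¬ LM hv h ⊓ W ≤ sh π 1 (LM hv h) := by
  obtain ⟨x, hx, hx0⟩ := Submodule.exists_mem_ne_zero_of_ne_bot hne
  obtain ⟨k1, hk1⟩ := exists_not_mem_sh (hv := hv) hπ h hx0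
  have hb : ∃ b : ℤ, ∀ z : ℤ, x ∈ sh π z (LM hv h) → z ≤ b := by
    refine ⟨k1, fun z hz => ?_⟩
    by_contra hcon
    exact hk1 (sh_anti hπ (not_le.1 hcon).le _ hz)
  obtain ⟨k, hk, hmax⟩ := Int.exists_greatest_of_bdd hb (exists_mem_sh (hv := hv) hπ h x)
  intro hle
  have h1 : ((π ^ (-k) : Kˣ) : K) • x ∈ LM hv h ⊓ W := ⟨mem_sh.1 hk, hW _ _ hx⟩
  have h2 := hle h1
  rw [← mem_sh, sh_sh] at h2
  have h3 := hmax _ h2
  omega

variable {G : Type} [Group G] {ρ : G →* GL (Fin n) K} {S : Set G} {R : ℕ}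

theorem La_mul (g h : G) : La hv ρ (g * h) = mv (ρ g) (La hv ρ h) := by
  unfold La
  rw [map_mul, LM_mul]

theorem La_le (hs : Stp hv π ρ S R) (g : G) {s : G} (hsS : s ∈ S) : La hv ρ g ≤ sh π (-R) (La hv ρ (g * s)) := by
  have h1 : L0 hv n ≤ sh π (-R) (La hv ρ s) := by
    have h2 := (sh_le_sh (π := π) (k := -(R : ℤ))).2 (hs.low s hsS)
    rwa [sh_sh, neg_add_cancel, sh_zero] at h2
  have h3 := (mv_le_mv (g := ρ g)).2 h1
  rw [mv_sh, ← La_mul, ← LM_eq] at h3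
  exact h3

theorem La_ge (hs : Stp hv π ρ S R) (g : G) {s : G} (hsS : s ∈ S) : La hv ρ (g * s) ≤ sh π (-R) (La hv ρ g) := by
  have h3 := (mv_le_mv (g := ρ g)).2 (hs.up s hsS)
  rw [mv_sh, ← La_mul, ← LM_eq] at h3
  exact h3

theorem La_pow (hs : Stp hv π ρ S R) (g : G) {m : ℕ} {s : G} (hsm : s ∈ S ^ m) :
    La hv ρ g ≤ sh π (-(R * m : ℕ)) (La hv ρ (g * s)) ∧ La hv ρ (g * s) ≤ sh π (-(R * m : ℕ)) (La hv ρ g) := by
  induction m generalizing s with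
  | zero =>
    rw [pow_zero] at hsm
    have h1 : s = 1 := hsm
    rw [h1, mul_one, Nat.mul_zero, Nat.cast_zero, neg_zero, sh_zero]
    exact ⟨le_rfl, le_rfl⟩
  | succ m ih =>
    rw [pow_succ] at hsm
    obtain ⟨a, ha, b, hb, rfl⟩ := Set.mem_mul.1 hsm
    obtain ⟨h1, h2⟩ := ih ha
    have h3 := La_le hs (g * a) hb
    have h4 := La_ge hs (g * a) hb
    have e : ((R * (m + 1) : ℕ) : ℤ) = (R * m : ℕ) + R := by push_cast; ring
    rw [← mul_assoc, e]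
    constructor
    · refine h1.trans (((sh_le_sh (π := π) (k := -((R * m : ℕ) : ℤ))).2 h3).trans (le_of_eq ?_))
      rw [sh_sh]
      congr 1
      ring
    · refine h4.trans (((sh_le_sh (π := π) (k := -(R : ℤ))).2 h2).trans (le_of_eq ?_))
      rw [sh_sh]
      congr 1
      ring

theorem bl_La (hs : Stp hv π ρ S R) (g : G) {m : ℕ} {s : G} (hsm : s ∈ S ^ m) (t : ℝ) :
    bl π (La hv ρ g) t ≤ bl π (La hv ρ (g * s)) (t + R * m) ∧
      bl π (La hv ρ (g * s)) t ≤ bl π (La hv ρ g) (t + R * m) := by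
  obtain ⟨h1, h2⟩ := La_pow hs g hsm
  have h3 := bl_change hs.unif h1 t
  have h4 := bl_change hs.unif h2 t
  rw [Nat.cast_mul] at h3 h4
  exact ⟨h3, h4⟩

theorem Stp.pow_mono (hs : Stp hv π ρ S R) {m m' : ℕ} (h : m ≤ m') : S ^ m ⊆ S ^ m' := by
  exact Set.pow_subset_pow_right hs.one h

theorem Stp.one_mem (hs : Stp hv π ρ S R) (m : ℕ) : (1 : G) ∈ S ^ m := by
  exact Set.one_mem_pow hs.one

theorem Stp.inv_mul_mem (hs : Stp hv π ρ S R) {s t : G} {m : ℕ} (hsS : s ∈ S) (ht : t ∈ S ^ m) :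
    s⁻¹ * t ∈ S ^ (m + 1) := by
  rw [pow_succ']
  exact Set.mul_mem_mul (hs.inv s hsS) ht

theorem Stp.mul_mem (hs : Stp hv π ρ S R) {s t : G} {m : ℕ} (hsS : s ∈ S) (ht : t ∈ S ^ m) : s * t ∈ S ^ (m + 1) := by
  rw [pow_succ']
  exact Set.mul_mem_mul hsS ht

theorem Stp.fin_pow (hs : Stp hv π ρ S R) (m : ℕ) : (S ^ m).Finite := by
  induction m with
  | zero =>
    rw [pow_zero]
    exact Set.finite_one
  | succ m ih =>
    rw [pow_succ]
    exact ih.mul hs.fin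

end Pool.Agent.H75.CO
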