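import Pool.Agent.H75.CO.Bl

/-!
# [H75 CO Nmf] families of balls

Closure properties: `rc` for finitely many families at once: take the minimum of the finitely many `s` (`mono`).
`kp_le_iff`: the set `A = {t | M ≤ P t}` is upward closed, not empty and bounded below (if `¬ M ≤ P t₀` then `t₀` is a lower
bound). Its infimum `κ` is in `A`: by `rc` there is `s > κ` with `P s = P κ`, and some element of `A` is less than `s`. `kp_sh`: the
set for `sh π k M` is the translate of `A` by `-k` (`per`, `sh_le_sh`). `exists_left`: the set `{s | P s = P t}` is bounded below by `a`;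
its infimum `t₀` satisfies `P t₀ = P t`: by `rc` some `s > t₀` has `P s = P t₀` and there is `s' < s`, `s' ≥ t₀` in the set.
`le_anti`, `le_sep`: monotonicity. `le_add_int`: `per`.
-/

set_option autoImplicit false

namespace Pool.Agent.H75.CO

open Pool.Agent.H54.TT Pool.Agent.H98.RH Matrix

variable {K : Type} [Field K] {v : K → ℤ} {hv : IsDV v} {n : ℕ} {π : Kˣ}

/-- constant to the right, as a filter statement -/
private theorem rc_ev {P : ℝ → Lt hv n} (hP : Nm π P) (t : ℝ) : ∀ᶠ s in nhdsWithin t (Set.Ioi t), P s = P t := by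
  obtain ⟨s, hs, he⟩ := hP.rc t
  filter_upwards [Ioo_mem_nhdsGT hs] with r hr
  exact le_antisymm ((hP.mono hr.2.le).trans_eq he) (hP.mono hr.1.le)

private theorem of_ev {P : ℝ → Lt hv n} {t : ℝ} (h : ∀ᶠ s in nhdsWithin t (Set.Ioi t), P s = P t) :
    ∃ s, t < s ∧ P s = P t := by
  obtain ⟨s, hs, hs2⟩ := (h.and self_mem_nhdsWithin).exists
  exact ⟨s, hs2, hs⟩

theorem Nm.sup {P Q : ℝ → Lt hv n} (hP : Nm π P) (hQ : Nm π Q) : Nm π (fun t => P t ⊔ Q t) := by
  refine ⟨fun s t h => sup_le_sup (hP.mono h) (hQ.mono h), fun t k => ?_, fun t => of_ev ?_⟩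
  · show P (t + k) ⊔ Q (t + k) = sh π (-k) (P t ⊔ Q t)
    rw [hP.per, hQ.per, sh_sup]
  · filter_upwards [rc_ev hP t, rc_ev hQ t] with s h1 h2
    rw [h1, h2]

theorem Nm.inf {P Q : ℝ → Lt hv n} (hP : Nm π P) (hQ : Nm π Q) : Nm π (fun t => P t ⊓ Q t) := by
  refine ⟨fun s t h => inf_le_inf (hP.mono h) (hQ.mono h), fun t k => ?_, fun t => of_ev ?_⟩
  · show P (t + k) ⊓ Q (t + k) = sh π (-k) (P t ⊓ Q t)
    rw [hP.per, hQ.per, sh_inf]
  · filter_upwards [rc_ev hP t, rc_ev hQ t] with s h1 h2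
    rw [h1, h2]

theorem nm_const {W : Lt hv n} (hW : IsSub W) : Nm π (fun _ : ℝ => W) :=
  ⟨fun _ _ _ => le_rfl, fun _ k => (sh_sub hW (-k)).symm, fun t => ⟨t + 1, by linarith, rfl⟩⟩

theorem Nm.shift {P : ℝ → Lt hv n} (hP : Nm π P) (c : ℝ) : Nm π (fun t => P (t + c)) := by
  refine ⟨fun s t h => hP.mono (by linarith), fun t k => ?_, fun t => ?_⟩
  · show P (t + k + c) = sh π (-k) (P (t + c))
    rw [← hP.per]
    congr 1
    ring
  · obtain ⟨s, hs, he⟩ := hP.rc (t + c)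
    refine ⟨s - c, by linarith, ?_⟩
    show P (s - c + c) = P (t + c)
    rw [sub_add_cancel, he]

theorem Nm.iSup {ι : Type} {F : Set ι} (hF : F.Finite) {P : ι → ℝ → Lt hv n} (hP : ∀ i ∈ F, Nm π (P i)) :
    Nm π (fun t => ⨆ i ∈ F, P i t) := by
  refine ⟨fun s t h => iSup₂_mono fun i hi => (hP i hi).mono h, fun t k => ?_, fun t => of_ev ?_⟩
  · show (⨆ i ∈ F, P i (t + k)) = sh π (-k) (⨆ i ∈ F, P i t)
    rw [sh_iSup]
    refine iSup_congr fun i => ?_
    rw [sh_iSup]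
    exact iSup_congr fun hi => (hP i hi).per t k
  · have h : ∀ᶠ s in nhdsWithin t (Set.Ioi t), ∀ i ∈ F, P i s = P i t :=
      (Filter.eventually_all_finite hF).2 fun i hi => rc_ev (hP i hi) t
    filter_upwards [h] with s hs
    exact iSup_congr fun i => iSup_congr fun hi => hs i hi

theorem Nm.mv {P : ℝ → Lt hv n} (hP : Nm π P) (g : GL (Fin n) K) : Nm π (fun t => mv g (P t)) := by
  refine ⟨fun s t h => mv_le_mv.2 (hP.mono h), fun t k => ?_, fun t => of_ev ?_⟩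
  · show Pool.Agent.H75.CO.mv g (P (t + k)) = sh π (-k) (Pool.Agent.H75.CO.mv g (P t))
    rw [hP.per, mv_sh]
  · filter_upwards [rc_ev hP t] with s h1
    rw [h1]

theorem kp_le_iff {P : ℝ → Lt hv n} (hP : Nm π P) {M : Lt hv n} (h1 : ∃ t, M ≤ P t) (h2 : ∃ t, ¬ M ≤ P t) (s : ℝ) :
    M ≤ P s ↔ kp P M ≤ s := by
  have hbd : BddBelow {t | M ≤ P t} := by
    obtain ⟨t, ht⟩ := h2
    refine ⟨t, fun s hs => ?_⟩
    by_contra hcon
    exact ht ((show M ≤ P s from hs).trans (hP.mono (not_le.1 hcon).le))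
  have hmem : M ≤ P (kp P M) := by
    obtain ⟨s, hs, he⟩ := hP.rc (kp P M)
    obtain ⟨a, ha, has⟩ := exists_lt_of_csInf_lt (s := {t | M ≤ P t}) h1 hs
    rw [← he]
    exact (show M ≤ P a from ha).trans (hP.mono has.le)
  exact ⟨fun h => csInf_le hbd h, fun h => hmem.trans (hP.mono h)⟩

theorem kp_sh {P : ℝ → Lt hv n} (hP : Nm π P) {M : Lt hv n} (h1 : ∃ t, M ≤ P t) (h2 : ∃ t, ¬ M ≤ P t) (k : ℤ) :
    kp P (sh π k M) = kp P M - k := by
  have key : ∀ t, sh π k M ≤ P t ↔ M ≤ P (t + k) := by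
    intro t
    rw [hP.per, ← sh_le_sh (k := k) (M := M), sh_sh, add_neg_cancel, sh_zero]
  have h1' : ∃ t, sh π k M ≤ P t := by
    obtain ⟨t, ht⟩ := h1
    refine ⟨t - k, (key _).2 ?_⟩
    rwa [sub_add_cancel]
  have h2' : ∃ t, ¬ sh π k M ≤ P t := by
    obtain ⟨t, ht⟩ := h2
    refine ⟨t - k, fun h => ht ?_⟩
    have h3 := (key _).1 h
    rwa [sub_add_cancel] at h3
  have e : ∀ s, kp P (sh π k M) ≤ s ↔ kp P M - k ≤ s := by
    intro s
    rw [← kp_le_iff hP h1' h2', key, kp_le_iff hP h1 h2, sub_le_iff_le_add]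
  exact le_antisymm ((e _).2 le_rfl) ((e _).1 le_rfl)

theorem exists_left {P : ℝ → Lt hv n} (hP : Nm π P) {t a : ℝ} (h : ∀ s, P s = P t → a ≤ s) :
    ∃ t₀, t₀ ≤ t ∧ a ≤ t₀ ∧ P t₀ = P t ∧ ∀ s, s < t₀ → P s ≠ P t := by
  have hbd : BddBelow {s | P s = P t} := ⟨a, fun s hs => h s hs⟩
  have hne : {s | P s = P t}.Nonempty := ⟨t, rfl⟩
  refine ⟨sInf {s | P s = P t}, csInf_le hbd rfl, le_csInf hne fun s hs => h s hs, ?_, fun s hs he => ?_⟩
  · obtain ⟨s, hs, he⟩ := hP.rc (sInf {s | P s = P t})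
    obtain ⟨b, hb, hbs⟩ := exists_lt_of_csInf_lt hne hs
    have h1 : sInf {s | P s = P t} ≤ b := csInf_le hbd hb
    have h2 : P b = P (sInf {s | P s = P t}) := le_antisymm ((hP.mono hbs.le).trans_eq he) (hP.mono h1)
    rw [← h2]
    exact hb
  · exact absurd (csInf_le hbd (show s ∈ {s | P s = P t} from he)) (not_le.2 hs)

theorem le_anti {P : ℝ → Lt hv n} (hP : Monotone P) {c c' : ℝ} (h0 : 0 ≤ c) (h : c ≤ c') : Le P c' ⊆ Le P c := by
  rintro t ⟨h1, h2⟩
  exact ⟨le_antisymm (hP (by linarith)) ((hP (by linarith : t + c ≤ t + c')).trans_eq h1.symm), h2⟩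

theorem le_sep {P : ℝ → Lt hv n} (hP : Monotone P) {c x y : ℝ} (hx : x ∈ Le P c) (hy : y ∈ Le P c) (h : x < y) :
    x + c < y := by
  by_contra hcon
  exact hy.2 x h (le_antisymm (hP h.le) ((hP (not_lt.1 hcon)).trans_eq hx.1.symm))

theorem le_add_int {P : ℝ → Lt hv n} (hP : Nm π P) {c t : ℝ} (k : ℤ) : t + k ∈ Le P c ↔ t ∈ Le P c := by
  have key : ∀ (t : ℝ) (k : ℤ), t ∈ Le P c → t + k ∈ Le P c := by
    rintro t k ⟨h1, h2⟩
    refine ⟨?_, fun s hs he => h2 (s - k) (by linarith) ?_⟩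
    · have e : t + k + c = t + c + k := by ring
      rw [e, hP.per, hP.per, ← h1]
    · have e : P s = sh π (-k) (P (s - k)) := by rw [← hP.per, sub_add_cancel]
      rw [e, hP.per] at he
      exact sh_inj.1 he
  refine ⟨fun h => ?_, key t k⟩
  have h1 := key _ (-k) h
  rwa [Int.cast_neg, add_neg_cancel_right] at h1

end Pool.Agent.H75.CO
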