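import Pool.Agent.H75.CO.Defs

/-!
# [H75 CO Num] numeric facts

`A = AA n R = 10 ^ 6 (n + 2) 4 ^ (n + 2) (R + 1)`, `Ln A c i = A ^ i * c`, `ep n = 1 / (1000 (n + 1) 4 ^ (n + 1))`,
`cc n j = 1 / ((n + 1) 4 ^ j)`, `md n j = (cc n j + cc n (j + 1)) / 2 = (5 / 8) cc n j`, `cc n (j + 1) = cc n j / 4`. For `i < j`:
`Ln j = A ^ (j - i) Ln i ≥ A Ln i`. `ep n * A = 10 ^ 3 (n + 2) 4 (R + 1) / (n + 1) ≥ 1000`. For `j ≤ n`: `cc n j ≥ 1 / ((n + 1) 4 ^ n) = 4000 ep n`, and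
`cc n j - md n j = md n j - cc n (j + 1) = (3 / 8) cc n j ≥ 1500 ep n`. `RR n R * md n j ≥ (2 R + 4) (n + 1) 4 ^ (n + 1) (5 / 8) / ((n + 1) 4 ^ n) ≥ 5 R + 10`.
-/

set_option autoImplicit false

namespace Pool.Agent.H75.CO

private theorem AA_ge1 (n R : ℕ) : 1 ≤ AA n R := by
  unfold AA
  have h1 : 0 < 4 ^ (n + 2) := by positivity
  have h2 : 0 < 10 ^ 6 * (n + 2) * 4 ^ (n + 2) * (R + 1) := by positivity
  omega

/-- `10 ^ 6 X ≤ A` -/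
private theorem AA_geX (n R X : ℕ) (hX : X ≤ (n + 2) * (R + 1)) : 1000000 * X ≤ AA n R := by
  unfold AA
  have h1 : 1 ≤ 4 ^ (n + 2) := Nat.one_le_pow _ _ (by norm_num)
  calc 1000000 * X ≤ 10 ^ 6 * ((n + 2) * (R + 1)) * 1 := by
        rw [mul_one]
        exact Nat.mul_le_mul (by norm_num) hX
    _ ≤ 10 ^ 6 * ((n + 2) * (R + 1)) * 4 ^ (n + 2) := Nat.mul_le_mul_left _ h1
    _ = _ := by ring

private theorem Ln_core (n R c : ℕ) {i j : ℕ} (h : i < j) : (AA n R : ℝ) * (Ln (AA n R) c i : ℝ) ≤ Ln (AA n R) c j := by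
  have h1 : AA n R * Ln (AA n R) c i ≤ Ln (AA n R) c j := by
    unfold Ln
    rw [← mul_assoc, ← pow_succ']
    exact Nat.mul_le_mul_right c (Nat.pow_le_pow_right (AA_ge1 n R) h)
  exact_mod_cast h1

/-- `Ln i` is at least the radius -/
theorem Ln_ge (n R : ℕ) {c : ℕ} (i : ℕ) : (c : ℝ) ≤ Ln (AA n R) c i := by
  have h1 : c ≤ Ln (AA n R) c i := by
    unfold Ln
    exact Nat.le_mul_of_pos_left c (Nat.pow_pos (AA_ge1 n R))
  exact_mod_cast h1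

theorem Ln_one (n R : ℕ) {c : ℕ} (hc : 1 ≤ c) (i : ℕ) : (1 : ℝ) ≤ Ln (AA n R) c i := by
  have h1 : (1 : ℝ) ≤ c := by exact_mod_cast hc
  exact h1.trans (Ln_ge n R i)

theorem Ln_one' (n R : ℕ) {c : ℕ} (hc : 1 ≤ c) (i : ℕ) : 1 ≤ Ln (AA n R) c i := by
  exact_mod_cast Ln_one n R hc i

theorem Ln_mono (n R c : ℕ) {i j : ℕ} (h : i ≤ j) : Ln (AA n R) c i ≤ Ln (AA n R) c j := by
  unfold Ln
  exact Nat.mul_le_mul_right c (Nat.pow_le_pow_right (AA_ge1 n R) h)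

theorem Ln_mono' (n R c : ℕ) {i j : ℕ} (h : i ≤ j) : (Ln (AA n R) c i : ℝ) ≤ Ln (AA n R) c j := by
  exact_mod_cast Ln_mono n R c h

private theorem Ln_X (n R c X : ℕ) (hX : X ≤ (n + 2) * (R + 1)) {i j : ℕ} (h : i < j) :
    1000000 * ((X : ℝ) * Ln (AA n R) c i) ≤ Ln (AA n R) c j := by
  have h1 : (1000000 * X : ℝ) ≤ AA n R := by exact_mod_cast AA_geX n R X hX
  have h2 : (0 : ℝ) ≤ Ln (AA n R) c i := Nat.cast_nonneg _
  calc 1000000 * ((X : ℝ) * Ln (AA n R) c i) = (1000000 * X) * Ln (AA n R) c i := by ring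
    _ ≤ AA n R * Ln (AA n R) c i := mul_le_mul_of_nonneg_right h1 h2
    _ ≤ _ := Ln_core n R c h

private theorem le_X1 (n R : ℕ) : 1 ≤ (n + 2) * (R + 1) := by
  have : 0 < (n + 2) * (R + 1) := by positivity
  omega

private theorem le_XR (n R : ℕ) : R ≤ (n + 2) * (R + 1) := by
  have h1 : R + 1 ≤ (n + 2) * (R + 1) := Nat.le_mul_of_pos_left _ (by omega)
  omega

private theorem le_Xn (n R : ℕ) : n ≤ (n + 2) * (R + 1) := by
  have h1 : n + 2 ≤ (n + 2) * (R + 1) := Nat.le_mul_of_pos_right _ (by omega)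
  omega

theorem Ln_one_lt (n R c : ℕ) {i j : ℕ} (h : i < j) : 1000000 * (Ln (AA n R) c i : ℝ) ≤ Ln (AA n R) c j := by
  have h1 := Ln_X n R c 1 (le_X1 n R) h
  rwa [Nat.cast_one, one_mul] at h1

theorem Ln_R_lt (n R c : ℕ) {i j : ℕ} (h : i < j) : 1000000 * ((R : ℝ) * Ln (AA n R) c i) ≤ Ln (AA n R) c j :=
  Ln_X n R c R (le_XR n R) h

theorem Ln_n_lt (n R c : ℕ) {i j : ℕ} (h : i < j) : 1000000 * ((n : ℝ) * Ln (AA n R) c i) ≤ Ln (AA n R) c j :=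
  Ln_X n R c n (le_Xn n R) h

theorem Ln_R (n R : ℕ) {c : ℕ} (hc : 1 ≤ c) {j : ℕ} (h : 0 < j) : 1000000 * (R : ℝ) ≤ Ln (AA n R) c j := by
  have h1 := Ln_R_lt n R c h
  have h2 := Ln_one n R hc 0
  have h3 : (R : ℝ) * 1 ≤ (R : ℝ) * Ln (AA n R) c 0 := mul_le_mul_of_nonneg_left h2 (Nat.cast_nonneg R)
  linarith

theorem Ln_big (n R : ℕ) {c : ℕ} (hc : 1 ≤ c) {j : ℕ} (h : 0 < j) : (1000000 : ℝ) ≤ Ln (AA n R) c j := by
  have h1 := Ln_one_lt n R c h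
  have h2 := Ln_one n R hc 0
  linarith

private theorem den_pos (n : ℕ) : (0 : ℝ) < (n + 1) * 4 ^ n := by positivity

private theorem ep_eq (n : ℕ) : 1000 * ep n = (1 / 4) * (1 / ((n + 1) * 4 ^ n)) := by
  unfold ep
  have h1 := den_pos n
  rw [pow_succ]
  field_simp

private theorem cc_ge {n j : ℕ} (h : j ≤ n) : 1 / ((n + 1) * 4 ^ n) ≤ cc n j := by
  unfold cc
  have h1 : (4 : ℝ) ^ j ≤ 4 ^ n := pow_le_pow_right₀ (by norm_num) h
  have h2 : ((n : ℝ) + 1) * 4 ^ j ≤ (n + 1) * 4 ^ n := mul_le_mul_of_nonneg_left h1 (by positivity)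
  exact one_div_le_one_div_of_le (by positivity) h2

private theorem cc_succ (n j : ℕ) : cc n (j + 1) = cc n j / 4 := by
  unfold cc
  rw [pow_succ]
  field_simp

private theorem md_eq (n j : ℕ) : md n j = 5 / 8 * cc n j := by
  unfold md
  rw [cc_succ]
  ring

theorem Ln_ep (n R c : ℕ) {i j : ℕ} (h : i < j) : 1000 * (Ln (AA n R) c i : ℝ) ≤ ep n * Ln (AA n R) c j := by
  have h1 := Ln_core n R c h
  have h2 : (1000 : ℝ) ≤ ep n * AA n R := by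
    unfold ep AA
    push_cast
    rw [one_div, inv_mul_eq_div, le_div_iff₀ (by positivity)]
    have h3 : (0 : ℝ) ≤ (n : ℝ) := Nat.cast_nonneg n
    have h4 : (0 : ℝ) ≤ (R : ℝ) := Nat.cast_nonneg R
    have h5 : (0 : ℝ) < 4 ^ (n + 1) := by positivity
    have h6 : ((n : ℝ) + 1) ≤ (n + 2) * (R + 1) := by nlinarith
    calc (1000 : ℝ) * (1000 * (n + 1) * 4 ^ (n + 1)) = 10 ^ 6 * 4 ^ (n + 1) * (n + 1) := by ring
      _ ≤ 10 ^ 6 * 4 ^ (n + 1) * ((n + 2) * (R + 1)) := mul_le_mul_of_nonneg_left h6 (by positivity)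
      _ ≤ 10 ^ 6 * 4 ^ (n + 1) * ((n + 2) * (R + 1)) * 4 := by
        have : (0 : ℝ) ≤ 10 ^ 6 * 4 ^ (n + 1) * ((n + 2) * (R + 1)) := by positivity
        linarith
      _ = _ := by ring
  have h3 : (0 : ℝ) < ep n := by
    unfold ep
    positivity
  have h4 : (0 : ℝ) ≤ Ln (AA n R) c i := Nat.cast_nonneg _
  calc 1000 * (Ln (AA n R) c i : ℝ) ≤ ep n * AA n R * Ln (AA n R) c i := mul_le_mul_of_nonneg_right h2 h4
    _ = ep n * (AA n R * Ln (AA n R) c i) := by ring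
    _ ≤ _ := mul_le_mul_of_nonneg_left h1 h3.le

theorem ep_pos (n : ℕ) : 0 < ep n := by
  unfold ep
  positivity

private theorem inv_le (n : ℕ) : 1 / (((n : ℝ) + 1) * 4 ^ n) ≤ 1 := by
  have h1 : (1 : ℝ) ≤ 4 ^ n := one_le_pow₀ (by norm_num)
  have h2 : (0 : ℝ) ≤ (n : ℝ) := Nat.cast_nonneg n
  rw [div_le_one (by positivity)]
  nlinarith

theorem ep_le (n : ℕ) : 1000 * ep n ≤ 1 := by
  rw [ep_eq]
  have := inv_le n
  have h1 : (0 : ℝ) ≤ 1 / (((n : ℝ) + 1) * 4 ^ n) := by positivity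
  linarith

theorem cc_pos (n j : ℕ) : 0 < cc n j := by
  unfold cc
  positivity

theorem cc_le_one (n j : ℕ) : cc n j ≤ 1 := by
  unfold cc
  have h1 : (1 : ℝ) ≤ 4 ^ j := one_le_pow₀ (by norm_num)
  have h2 : (0 : ℝ) ≤ (n : ℝ) := Nat.cast_nonneg n
  rw [div_le_one (by positivity)]
  nlinarith

theorem md_le_one (n j : ℕ) : md n j ≤ 1 := by
  rw [md_eq]
  have h1 := cc_le_one n j
  have h2 := cc_pos n j
  linarith

theorem md_cc {n j : ℕ} (h : j ≤ n) : md n j + 1000 * ep n ≤ cc n j := by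
  rw [md_eq, ep_eq]
  have h1 := cc_ge h
  have h2 : (0 : ℝ) ≤ 1 / (((n : ℝ) + 1) * 4 ^ n) := by positivity
  linarith

theorem cc_md {n j : ℕ} (h : j ≤ n) : cc n (j + 1) + 1000 * ep n ≤ md n j := by
  rw [md_eq, ep_eq, cc_succ]
  have h1 := cc_ge h
  have h2 : (0 : ℝ) ≤ 1 / (((n : ℝ) + 1) * 4 ^ n) := by positivity
  linarith

theorem ep_md {n j : ℕ} (h : j ≤ n) : 1000 * ep n ≤ md n j := by
  rw [md_eq, ep_eq]
  have h1 := cc_ge h
  have h2 : (0 : ℝ) ≤ 1 / (((n : ℝ) + 1) * 4 ^ n) := by positivity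
  linarith

theorem RR_md {n j : ℕ} (R : ℕ) (h : j ≤ n) : (R : ℝ) + 3 ≤ RR n R * md n j := by
  rw [md_eq]
  have h1 := cc_ge h
  have h2 : (RR n R : ℝ) = (2 * R + 4) * 4 * (((n : ℝ) + 1) * 4 ^ n) := by
    unfold RR
    push_cast
    ring
  have h3 : (0 : ℝ) ≤ (R : ℝ) := Nat.cast_nonneg R
  have h4 : (0 : ℝ) ≤ (RR n R : ℝ) := Nat.cast_nonneg _
  have h5 : (RR n R : ℝ) * (1 / (((n : ℝ) + 1) * 4 ^ n)) = (2 * R + 4) * 4 := by
    rw [h2]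
    have h6 := den_pos n
    field_simp
  have h6 : (RR n R : ℝ) * (1 / (((n : ℝ) + 1) * 4 ^ n)) ≤ RR n R * cc n j := mul_le_mul_of_nonneg_left h1 h4
  rw [h5] at h6
  have h7 : (RR n R : ℝ) * (5 / 8 * cc n j) = 5 / 8 * (RR n R * cc n j) := by ring
  rw [h7]
  linarith

end Pool.Agent.H75.CO
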