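import Pool.Agent.H75.CO.Kcm
import Pool.Agent.H75.CO.Cmp
import Pool.Agent.H75.CO.Num

/-!
# [H75 CO Prc] two towers of the same regime approximate each other

`Pt`: a strong tower `W` at `(g, B0)` and a weak tower `W'` at `(g s, B)`. Write `Λ i = Ln (AA n R) c i`, `g' = g * s`, `e = ep n`, `D_l = Λ (be_l + 1) / 4`,
`κ = kap B0 (W l) k g`, `κ' = kap B (W' l) k g'` (`k = (d l).k`).
`pt_kap`: `kap_cmp` with `m = Λ (be - 2) + 1`, `D = D_l`, `Y1 = Λ al`, `Y2 = Λ be / 2` (y1 of `W`, y2 of `W'`); `Cl` for `D_l ≤ Λ (NN n)` follows from that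
for `Λ (NN n)` (`be_l + 1 ≤ NN n`). The inequalities: `Ln_R_lt`, `Ln_one_lt`, `Ln_R`, `Ln_big`.
`pt_ap`: induction on `l`. `l = 0`: `W 0 = ⊤ = W' 0`, `Ap.refl`. Step `l → l + 1 ≤ r`: `pt_kap` gives `Cm`, `m = Λ (be_l - 2) + 1`.
First direction: `deep_cmp` with `m = Λ (be_l - 2)` (`Cm.weak`), `b = Λ b_l` (t1 of `W`), `b' = Λ b_l / 2`, `a' = 2 Λ a_l` (t2 of `W'`), `D1 = Λ b_l / 4`; and
`D_(l+1) ≤ Λ b_l / 4` because `be_(l+1) + 1 ≤ b_l` (`Rg.c2`).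
Second direction: `Cm.symm` gives `Cm .. (D_l - 2 R) e (-l) (Λ (be_l - 2)) g' (W' l) (W l) κ' κ`; `deep_cmp` with `g := g'`, `s := s⁻¹` (`g' s⁻¹ = g`),
`b = Λ b_l / 2`, `b' = Λ b_l`, `a' = Λ a_l`, `D1 = Λ b_l / 4 + 2 R`: `Ap (La g') (Λ b_l / 4 + 2 R) (W' (l+1)) (W (l+1))`, and `Ap.change`.
For `l + 1 = r + 1` all are `⊥`. `kap_lp` gives `Lp` for `κ`, `κ'`.
`pt_cm`: `D_r ≤ D_l` as `be` decreases (`be_(l+1) + 1 ≤ b_l < be_l`).
-/

set_option autoImplicit false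

namespace Pool.Agent.H75.CO

open Pool.Agent.H54.TT Pool.Agent.H98.RH Matrix
open scoped Pointwise

/-- a strong tower at `(g, B0)` and a weak tower at `(g s, B)` -/
structure Pt {K : Type} [Field K] {v : K → ℤ} {hv : IsDV v} {n : ℕ} (π : Kˣ) {G : Type} [Group G]
    (ρ : G →* GL (Fin n) K) (S : Set G) (R c r : ℕ) (d : ℕ → Dat n (NN n)) (g s : G) (B0 B : ℝ → Lt hv n)
    (W W' : ℕ → Lt hv n) : Prop where
  hn : 0 < n
  hs : Stp hv π ρ S R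
  hc : 1 ≤ c
  hd : Rg r d
  hsS : s ∈ S
  hB0 : Hn B0
  hB : Hn B
  hcl : Cl π (La hv ρ g) B B0 (ep n) (Ln (AA n R) c (NN n))
  tw : Tw π ρ S (AA n R) c 1 r d g B0 W
  tw' : Tw π ρ S (AA n R) c 2 r d (g * s) B W'

variable {K : Type} [Field K] {v : K → ℤ} {hv : IsDV v} {n : ℕ} {π : Kˣ} {G : Type} [Group G]
  {ρ : G →* GL (Fin n) K} {S : Set G} {R : ℕ}

private theorem AA_ge (n R : ℕ) : 10 ^ 6 * (R + 1) ≤ AA n R := by
  have h1 : 1 ≤ n + 2 := by omega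
  have h2 : 1 ≤ 4 ^ (n + 2) := Nat.one_le_pow _ _ (by norm_num)
  calc 10 ^ 6 * (R + 1) = 10 ^ 6 * 1 * 1 * (R + 1) := by ring
    _ ≤ 10 ^ 6 * (n + 2) * 4 ^ (n + 2) * (R + 1) := by gcongr
    _ = AA n R := rfl

/-- a step of the scales, with real numbers -/
private theorem Ln_stp {n R c : ℕ} {i j : ℕ} (h : i + 1 ≤ j) :
    (10 ^ 6 * (R + 1) * Ln (AA n R) c i : ℝ) ≤ Ln (AA n R) c j := by
  have h1 := AA_ge n R
  have h2 : 10 ^ 6 * (R + 1) * Ln (AA n R) c i ≤ Ln (AA n R) c j := by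
    calc 10 ^ 6 * (R + 1) * Ln (AA n R) c i ≤ AA n R * Ln (AA n R) c i := Nat.mul_le_mul_right _ h1
      _ = Ln (AA n R) c (i + 1) := by rw [Ln, Ln, pow_succ]; ring
      _ ≤ _ := Ln_mono n R c h
  exact_mod_cast h2

private theorem ep_le_one (n : ℕ) : ep n ≤ 1 := by
  have h1 := ep_le n
  have h2 := ep_pos n
  linarith

private theorem Cl.mono {M : Lt hv n} {B B0 : ℝ → Lt hv n} {e D D' : ℝ} (h : Cl π M B B0 e D) (hD : D' ≤ D) :
    Cl π M B B0 e D' := fun k t ht => h k t (by linarith)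

theorem Tw.isSub {A c N : ℕ} {θ : ℝ} {r : ℕ} {d : ℕ → Dat n N} {g : G} {B : ℝ → Lt hv n} {W : ℕ → Lt hv n}
    (h : Tw π ρ S A c θ r d g B W) {l : ℕ} (hl : l ≤ r + 1) : IsSub (W l) := by
  rcases Nat.lt_or_ge r l with h0 | h0
  · have h1 : l = r + 1 := by omega
    rw [h1, h.bot]
    exact isSub_bot
  · exact h.sub l h0

theorem Rg.be_le {n N : ℕ} {r : ℕ} {d : ℕ → Dat n N} (h : Rg r d) {l l' : ℕ} (h1 : l ≤ l') (h2 : l' ≤ r) :
    ((d l').be : ℕ) ≤ (d l).be := by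
  induction l', h1 using Nat.le_induction with
  | base => exact le_rfl
  | succ m hm ih =>
    have h3 := ih (by omega)
    have h4 := h.c1 m (by omega)
    have h5 := h.c2 m (by omega)
    omega

theorem Rg.a_le {n N : ℕ} {r : ℕ} {d : ℕ → Dat n N} (h : Rg r d) {l l' : ℕ} (h1 : l ≤ l') (h2 : l' ≤ r) :
    ((d l).a : ℕ) ≤ (d l').a := by
  induction l', h1 using Nat.le_induction with
  | base => exact le_rfl
  | succ m hm ih =>
    have h3 := ih (by omega)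
    have h4 := h.c1 (m + 1) (by omega)
    have h5 := h.c2 m (by omega)
    omega

theorem pt_kap {c r : ℕ} {d : ℕ → Dat n (NN n)} {g s : G} {B0 B : ℝ → Lt hv n} {W W' : ℕ → Lt hv n}
    (h : Pt π ρ S R c r d g s B0 B W W') {l : ℕ} (hl : l ≤ r)
    (hap : Ap π (La hv ρ g) ((Ln (AA n R) c ((d l).be + 1) : ℝ) / 4) (W l) (W' l))
    (hap' : Ap π (La hv ρ g) ((Ln (AA n R) c ((d l).be + 1) : ℝ) / 4) (W' l) (W l)) :
    ∃ x : ℝ, |x| ≤ R ∧ Cm π ρ S ((Ln (AA n R) c ((d l).be + 1) : ℝ) / 4) (ep n) x (Ln (AA n R) c ((d l).be - 2) + 1) g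
      (W l) (W' l) (kap π ρ B0 (W l) (d l).k g) (kap π ρ B (W' l) (d l).k (g * s)) := by
  have hc1 := h.hd.c1 l hl
  have hlt : ((d l).be : ℕ) + 1 ≤ NN n := (d l).be.isLt
  have e1 : (10 ^ 6 * (R + 1) * Ln (AA n R) c ((d l).be - 2) : ℝ) ≤ Ln (AA n R) c (d l).be :=
    Ln_stp (by omega)
  have e2 : (10 ^ 6 * (R + 1) * Ln (AA n R) c (d l).be : ℝ) ≤ Ln (AA n R) c ((d l).be + 1) :=
    Ln_stp (by omega)
  have e3 : (Ln (AA n R) c (d l).al : ℝ) ≤ Ln (AA n R) c ((d l).be - 2) := Ln_mono' n R c (by omega)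
  have e4 : (Ln (AA n R) c ((d l).be + 1) : ℝ) ≤ Ln (AA n R) c (NN n) := Ln_mono' n R c (by omega)
  have e5 : (1 : ℝ) ≤ Ln (AA n R) c ((d l).be - 2) := Ln_one n R h.hc _
  have hR : (0 : ℝ) ≤ R := Nat.cast_nonneg R
  have e6 : (1 : ℝ) ≤ Ln (AA n R) c (d l).be := Ln_one n R h.hc _
  obtain ⟨lam, h1, h2⟩ := kap_cmp h.hs h.hB0 h.hB h.hsS (h.tw.sub l hl) (h.tw'.sub l hl) (h.tw.ne l hl) (h.tw'.ne l hl)
    (k := (d l).k) (e := ep n) (D := Ln (AA n R) c ((d l).be + 1) / 4) (Y1 := 1 * Ln (AA n R) c (d l).al)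
    (Y2 := Ln (AA n R) c (d l).be / 2) (m := Ln (AA n R) c ((d l).be - 2) + 1) (ep_pos n).le (ep_le_one n)
    (Cl.mono h.hcl (by linarith)) hap hap' (h.tw.lv l hl).y1 (h.tw'.lv l hl).y2
    (by push_cast; nlinarith) (by push_cast; nlinarith)
  exact ⟨lam, h1, hap, hap', h2⟩

/-- one step -/
private theorem pt_step {c r : ℕ} {d : ℕ → Dat n (NN n)} {g s : G} {B0 B : ℝ → Lt hv n} {W W' : ℕ → Lt hv n}
    (h : Pt π ρ S R c r d g s B0 B W W') {l : ℕ} (hl : l ≤ r)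
    (ap : Ap π (La hv ρ g) ((Ln (AA n R) c ((d l).be + 1) : ℝ) / 4) (W l) (W' l))
    (ap' : Ap π (La hv ρ g) ((Ln (AA n R) c ((d l).be + 1) : ℝ) / 4) (W' l) (W l)) :
    Ap π (La hv ρ g) ((Ln (AA n R) c (d l).b : ℝ) / 4) (W (l + 1)) (W' (l + 1)) ∧
      Ap π (La hv ρ g) ((Ln (AA n R) c (d l).b : ℝ) / 4) (W' (l + 1)) (W (l + 1)) := by
  obtain ⟨lam, hlam, hcm⟩ := pt_kap h hl ap ap'
  have hs := h.hs
  have hsS := h.hsS
  have hc1 := h.hd.c1 l hl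
  have hR : (0 : ℝ) ≤ R := Nat.cast_nonneg R
  have hep := ep_pos n
  have hep1 := ep_le_one n
  have hW := h.tw.isSub (show l ≤ r + 1 by omega)
  have hW1 := h.tw.isSub (show l + 1 ≤ r + 1 by omega)
  have hW' := h.tw'.isSub (show l ≤ r + 1 by omega)
  have hW1' := h.tw'.isSub (show l + 1 ≤ r + 1 by omega)
  have hκ := kap_lp (S := S) hs h.hB0 hW (h.tw.ne l hl) (d l).k g
  have hκ' := kap_lp (S := S) hs h.hB hW' (h.tw'.ne l hl) (d l).k (g * s)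
  have e1 : (10 ^ 6 * (R + 1) * Ln (AA n R) c ((d l).be - 2) : ℝ) ≤ Ln (AA n R) c ((d l).be + 1) :=
    Ln_stp (by omega)
  have e2 : (10 ^ 6 * (R + 1) * Ln (AA n R) c (d l).b : ℝ) ≤ Ln (AA n R) c ((d l).be + 1) :=
    Ln_stp (by omega)
  have e3 : (10 ^ 6 * (R + 1) * Ln (AA n R) c (d l).a : ℝ) ≤ Ln (AA n R) c (d l).b :=
    Ln_stp (by omega)
  have e4 : (1 : ℝ) ≤ Ln (AA n R) c (d l).a := Ln_one n R h.hc _
  have e5 : (1 : ℝ) ≤ Ln (AA n R) c (d l).b := Ln_one n R h.hc _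
  have e6 : (1 : ℝ) ≤ Ln (AA n R) c ((d l).be - 2) := Ln_one n R h.hc _
  have hss : s⁻¹ ∈ S := hs.inv s hsS
  have hgs : g * s * s⁻¹ = g := mul_inv_cancel_right g s
  have hcm0 := hcm.weak hs le_rfl (Nat.le_succ _)
  have f1 := (h.tw.lv l hl).t1
  have f2 := (h.tw.lv l hl).t2
  have f1' := (h.tw'.lv l hl).t1
  have f2' := (h.tw'.lv l hl).t2
  refine ⟨?_, ?_⟩
  · refine deep_cmp (a' := 2 * Ln (AA n R) c (d l).a) (b' := Ln (AA n R) c (d l).b / 2)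
      (b := Ln (AA n R) c (d l).b / 1) hs hsS hW hW' hW1' hκ hκ' hep.le hcm0 (by positivity) f1 f2' ?_ ?_ ?_ ?_
    · nlinarith
    · nlinarith
    · nlinarith
    · nlinarith
  · have hsym := hcm.symm hs hsS hW hW'
    have key := deep_cmp (s := s⁻¹) (a' := 1 * Ln (AA n R) c (d l).a) (b' := Ln (AA n R) c (d l).b / 1)
      (b := Ln (AA n R) c (d l).b / 2) (D1 := Ln (AA n R) c (d l).b / 4 + 2 * R) (W1' := W (l + 1)) hs hss hW' hW hW1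
      hκ' hκ hep.le hsym (by positivity) f1' (by rw [hgs]; exact f2) ?_ ?_ ?_ ?_
    · have h1 := Ap.change hs.unif hW1' hW1 (La_le hs g hsS) (La_ge hs g hsS) key
      refine h1.mono hs.unif (by linarith)
    · nlinarith
    · nlinarith
    · nlinarith
    · nlinarith

theorem pt_ap {c r : ℕ} {d : ℕ → Dat n (NN n)} {g s : G} {B0 B : ℝ → Lt hv n} {W W' : ℕ → Lt hv n}
    (h : Pt π ρ S R c r d g s B0 B W W') {l : ℕ} (hl : l ≤ r) :
    Ap π (La hv ρ g) ((Ln (AA n R) c ((d l).be + 1) : ℝ) / 4) (W l) (W' l) ∧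
      Ap π (La hv ρ g) ((Ln (AA n R) c ((d l).be + 1) : ℝ) / 4) (W' l) (W l) := by
  induction l with
  | zero =>
    rw [h.tw.top, h.tw'.top]
    exact ⟨Ap.refl _ _ _, Ap.refl _ _ _⟩
  | succ l ih =>
    obtain ⟨a1, a2⟩ := ih (by omega)
    obtain ⟨b1, b2⟩ := pt_step h (show l ≤ r by omega) a1 a2
    have hc2 := h.hd.c2 l (by omega)
    have e1 : (Ln (AA n R) c ((d (l + 1)).be + 1) : ℝ) ≤ Ln (AA n R) c (d l).b := Ln_mono' n R c hc2.2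
    exact ⟨b1.mono h.hs.unif (by linarith), b2.mono h.hs.unif (by linarith)⟩

/-- with one precision for all levels -/
theorem pt_cm {c r : ℕ} {d : ℕ → Dat n (NN n)} {g s : G} {B0 B : ℝ → Lt hv n} {W W' : ℕ → Lt hv n}
    (h : Pt π ρ S R c r d g s B0 B W W') {l : ℕ} (hl : l ≤ r) :
    Ap π (La hv ρ g) ((Ln (AA n R) c ((d r).be + 1) : ℝ) / 4) (W (l + 1)) (W' (l + 1)) ∧
      Ap π (La hv ρ g) ((Ln (AA n R) c ((d r).be + 1) : ℝ) / 4) (W' (l + 1)) (W (l + 1)) ∧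
        ∃ x : ℝ, |x| ≤ R ∧ Cm π ρ S ((Ln (AA n R) c ((d r).be + 1) : ℝ) / 4) (ep n) x
          (Ln (AA n R) c ((d l).be - 2) + 1) g (W l) (W' l) (kap π ρ B0 (W l) (d l).k g)
            (kap π ρ B (W' l) (d l).k (g * s)) := by
  have hb := h.hd.be_le hl le_rfl
  have e0 : (Ln (AA n R) c ((d r).be + 1) : ℝ) ≤ Ln (AA n R) c ((d l).be + 1) := Ln_mono' n R c (by omega)
  have h1 : Ap π (La hv ρ g) ((Ln (AA n R) c ((d r).be + 1) : ℝ) / 4) (W (l + 1)) (W' (l + 1)) ∧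
      Ap π (La hv ρ g) ((Ln (AA n R) c ((d r).be + 1) : ℝ) / 4) (W' (l + 1)) (W (l + 1)) := by
    rcases Nat.lt_or_ge l r with h0 | h0
    · obtain ⟨a1, a2⟩ := pt_ap h (show l + 1 ≤ r by omega)
      have hb' := h.hd.be_le (show l + 1 ≤ r by omega) le_rfl
      have e1 : (Ln (AA n R) c ((d r).be + 1) : ℝ) ≤ Ln (AA n R) c ((d (l + 1)).be + 1) := Ln_mono' n R c (by omega)
      exact ⟨a1.mono h.hs.unif (by linarith), a2.mono h.hs.unif (by linarith)⟩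
    · have h2 : l = r := by omega
      rw [h2, h.tw.bot, h.tw'.bot]
      exact ⟨Ap.refl _ _ _, Ap.refl _ _ _⟩
  refine ⟨h1.1, h1.2, ?_⟩
  obtain ⟨a1, a2⟩ := pt_ap h hl
  obtain ⟨x, hx, hcm⟩ := pt_kap h hl a1 a2
  exact ⟨x, hx, hcm.weak h.hs (by linarith) le_rfl⟩

end Pool.Agent.H75.CO
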