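import Pool.Agent.H75.CO.Adp

/-!
# [H75 CO Sgl] the norms `sg`

`sg_nm`: `Ad.nm` (shifted), `nm_bl`, `Nm.sup`. `sg_exh`: `bl_le_sg`, `exists_mem_sh`. `sg_sep`: `mem_sg` with an adapted basis; a nonzero
coordinate of `e⁻¹ x` violates the condition for `t` very negative. `sg_last`, `sg_anti`: `mem_sg`, `β` monotone (`k` last:
`max (β i - β k) 0 = 0`, so the condition is `v ≥ -t`, i.e. `bl`). `sg_change`: `bt_lip` gives `t - β k ≤ t + 2 R - β' k`, and `bl_change`.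
-/

set_option autoImplicit false

namespace Pool.Agent.H75.CO

open Pool.Agent.H54.TT Pool.Agent.H98.RH Matrix

variable {K : Type} [Field K] {v : K → ℤ} {hv : IsDV v} {n : ℕ} {π : Kˣ}

theorem sg_nm (hπ : v π = 1) {B : ℝ → Lt hv n} (hB : Hn B) (h : GL (Fin n) K) (k : Fin n) :
    Nm π (sg π (LM hv h) B k) := by
  obtain ⟨e, β, hA⟩ := hB h
  have e1 : sg π (LM hv h) B k = fun t => B (t + -bt B (LM hv h) k) ⊔ bl π (LM hv h) t := by
    funext t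
    show B (t - bt B (LM hv h) k) ⊔ bl π (LM hv h) t = _
    rw [sub_eq_add_neg]
  rw [e1]
  exact ((hA.nm hπ).shift _).sup (nm_bl hπ _)

theorem bl_le_sg (M : Lt hv n) (B : ℝ → Lt hv n) (k : Fin n) (t : ℝ) : bl π M t ≤ sg π M B k t := le_sup_right

theorem sg_exh (hπ : v π = 1) (B : ℝ → Lt hv n) (h : GL (Fin n) K) (k : Fin n) (x : Fin n → K) :
    ∃ t, x ∈ sg π (LM hv h) B k t := by
  obtain ⟨m, hm⟩ := exists_mem_sh (hv := hv) hπ h x
  refine ⟨((-m : ℤ) : ℝ), bl_le_sg _ _ _ _ ?_⟩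
  rw [bl_int, neg_neg]
  exact hm

theorem sg_sep (hπ : v π = 1) {B : ℝ → Lt hv n} (hB : Hn B) (h : GL (Fin n) K) (k : Fin n) {x : Fin n → K}
    (hx : x ≠ 0) : ∃ t, x ∉ sg π (LM hv h) B k t := by
  obtain ⟨e, β, hA⟩ := hB h
  have h0 : ((e⁻¹ : GL (Fin n) K).val *ᵥ x) ≠ 0 := by
    intro h1
    apply hx
    have h2 : e.val *ᵥ ((e⁻¹ : GL (Fin n) K).val *ᵥ x) = x := by
      rw [Matrix.mulVec_mulVec, Units.mul_inv, Matrix.one_mulVec]
    rw [← h2, h1, Matrix.mulVec_zero]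
  obtain ⟨i, hi⟩ := Function.ne_iff.1 h0
  have hi' : ((e⁻¹ : GL (Fin n) K).val *ᵥ x) i ≠ 0 := hi
  refine ⟨-(v (((e⁻¹ : GL (Fin n) K).val *ᵥ x) i) : ℝ) - max (β i - β k) 0 - 1, fun hm => ?_⟩
  have h1 := (mem_sg hπ hA k _ x).1 hm i hi'
  linarith

theorem sg_last (hπ : v π = 1) {B : ℝ → Lt hv n} (hB : Hn B) (h : GL (Fin n) K) {k : Fin n} (hk : (k : ℕ) + 1 = n)
    (t : ℝ) : sg π (LM hv h) B k t = bl π (LM hv h) t := by
  obtain ⟨e, β, hA⟩ := hB h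
  ext x
  have hk' : ∀ i : Fin n, β i ≤ β k := fun i => hA.mono (Fin.le_def.2 (by omega))
  rw [mem_sg hπ hA]
  show _ ↔ x ∈ sh π (-⌊t⌋) (LM hv h)
  rw [← hA.lat, mem_sh_LM hπ]
  refine forall_congr' fun i => forall_congr' fun _ => ?_
  rw [max_eq_right (by linarith [hk' i]), sub_zero, neg_le, ← Int.cast_neg, ← Int.le_floor]
  exact neg_le

theorem sg_anti (hπ : v π = 1) {B : ℝ → Lt hv n} (hB : Hn B) (h : GL (Fin n) K) {k k' : Fin n} (hk : k ≤ k')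
    (t : ℝ) : sg π (LM hv h) B k' t ≤ sg π (LM hv h) B k t := by
  obtain ⟨e, β, hA⟩ := hB h
  intro x hx
  rw [mem_sg hπ hA] at hx ⊢
  intro i hi
  have h1 := hx i hi
  have h2 : β k ≤ β k' := hA.mono hk
  have h3 : max (β i - β k') 0 ≤ max (β i - β k) 0 := max_le_max (by linarith) le_rfl
  linarith

theorem sg_change (hπ : v π = 1) {B : ℝ → Lt hv n} (hB : Hn B) {h h' : GL (Fin n) K} {R : ℕ}
    (h1 : LM hv h ≤ sh π (-R) (LM hv h')) (h2 : LM hv h' ≤ sh π (-R) (LM hv h)) (k : Fin n) (t : ℝ) :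
    sg π (LM hv h) B k t ≤ sg π (LM hv h') B k (t + 2 * R) := by
  obtain ⟨e, β, hA⟩ := hB h
  have h3 := abs_le.1 (bt_lip hπ hB h1 h2 k)
  have hR : (0 : ℝ) ≤ R := Nat.cast_nonneg R
  show B (t - bt B (LM hv h) k) ⊔ bl π (LM hv h) t ≤ B (t + 2 * R - bt B (LM hv h') k) ⊔ bl π (LM hv h') (t + 2 * R)
  refine sup_le_sup ((hA.nm hπ).mono (by linarith [h3.2])) ((bl_change hπ h1 t).trans (bl_mono hπ _ (by linarith)))

end Pool.Agent.H75.CO
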