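import Pool.Agent.H25.CO.Bas

/-!
# [H75 CO Sh] multiples and images of modules

All is immediate from the definitions: `sh π k M` is the image of `M` under the multiplication with the unit `π ^ k`, and
`mv g M` under the invertible matrix `g`. `sh_anti`: `π ^ (k - j)` is in the valuation ring (`v π = 1`).
-/

set_option autoImplicit false

namespace Pool.Agent.H75.CO

open Pool.Agent.H54.TT Pool.Agent.H98.RH Matrix

variable {K : Type} [Field K] {v : K → ℤ} {hv : IsDV v} {n : ℕ} {π : Kˣ}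

theorem mem_sh {k : ℤ} {M : Lt hv n} {x : Fin n → K} : x ∈ sh π k M ↔ ((π ^ (-k) : Kˣ) : K) • x ∈ M :=
  Pool.Agent.H25.CO.mem_sh

theorem sh_zero (M : Lt hv n) : sh π 0 M = M := Pool.Agent.H25.CO.sh_zero M

theorem sh_sh (j k : ℤ) (M : Lt hv n) : sh π j (sh π k M) = sh π (j + k) M := Pool.Agent.H25.CO.sh_sh j k M

theorem sh_le_sh {k : ℤ} {M M' : Lt hv n} : sh π k M ≤ sh π k M' ↔ M ≤ M' := Pool.Agent.H25.CO.sh_le_iff

theorem sh_inj {k : ℤ} {M M' : Lt hv n} : sh π k M = sh π k M' ↔ M = M' :=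
  ⟨Pool.Agent.H25.CO.sh_inj, fun h => by rw [h]⟩

theorem sh_inf (k : ℤ) (M M' : Lt hv n) : sh π k (M ⊓ M') = sh π k M ⊓ sh π k M' := Pool.Agent.H25.CO.sh_inf k M M'

theorem sh_sup (k : ℤ) (M M' : Lt hv n) : sh π k (M ⊔ M') = sh π k M ⊔ sh π k M' := Pool.Agent.H25.CO.sh_sup k M M'

theorem sh_iSup {ι : Sort*} (k : ℤ) (M : ι → Lt hv n) : sh π k (⨆ i, M i) = ⨆ i, sh π k (M i) :=
  Pool.Agent.H25.CO.sh_iSup k M

theorem sh_sub {W : Lt hv n} (hW : IsSub W) (k : ℤ) : sh π k W = W := Pool.Agent.H25.CO.sh_isSub hW k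

theorem sh_anti (hπ : v π = 1) {j k : ℤ} (h : j ≤ k) (M : Lt hv n) : sh π k M ≤ sh π j M :=
  Pool.Agent.H25.CO.sh_anti hπ h M

theorem mem_mv {g : GL (Fin n) K} {M : Lt hv n} {x : Fin n → K} :
    x ∈ mv g M ↔ ((g⁻¹ : GL (Fin n) K).val *ᵥ x) ∈ M := Pool.Agent.H25.CO.mem_mv

theorem mv_one (M : Lt hv n) : mv 1 M = M := Pool.Agent.H25.CO.mv_one M

theorem mv_mul (g h : GL (Fin n) K) (M : Lt hv n) : mv (g * h) M = mv g (mv h M) := Pool.Agent.H25.CO.mv_mul g h M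

theorem mv_le_mv {g : GL (Fin n) K} {M M' : Lt hv n} : mv g M ≤ mv g M' ↔ M ≤ M' := Pool.Agent.H25.CO.mv_le_iff

theorem mv_inj {g : GL (Fin n) K} {M M' : Lt hv n} : mv g M = mv g M' ↔ M = M' := Pool.Agent.H25.CO.mv_inj

theorem mv_inf (g : GL (Fin n) K) (M M' : Lt hv n) : mv g (M ⊓ M') = mv g M ⊓ mv g M' :=
  Pool.Agent.H25.CO.mv_inf g M M'

theorem mv_sup (g : GL (Fin n) K) (M M' : Lt hv n) : mv g (M ⊔ M') = mv g M ⊔ mv g M' :=
  Pool.Agent.H25.CO.mv_sup g M M'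

theorem mv_iSup {ι : Sort*} (g : GL (Fin n) K) (M : ι → Lt hv n) : mv g (⨆ i, M i) = ⨆ i, mv g (M i) :=
  Pool.Agent.H25.CO.mv_iSup g M

theorem mv_bot (g : GL (Fin n) K) : mv g (⊥ : Lt hv n) = ⊥ := Pool.Agent.H25.CO.mv_bot g

theorem mv_top (g : GL (Fin n) K) : mv g (⊤ : Lt hv n) = ⊤ := Pool.Agent.H25.CO.mv_top g

theorem mv_sh (g : GL (Fin n) K) (k : ℤ) (M : Lt hv n) : mv g (sh π k M) = sh π k (mv g M) :=
  Pool.Agent.H25.CO.mv_sh g k M

theorem LM_mul (g h : GL (Fin n) K) : LM hv (g * h) = mv g (LM hv h) := (Pool.Agent.H25.CO.mv_LM g h).symm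

theorem LM_eq (g : GL (Fin n) K) : LM hv g = mv g (L0 hv n) := rfl

theorem isSub_mv {W : Lt hv n} (hW : IsSub W) (g : GL (Fin n) K) : IsSub (mv g W) := Pool.Agent.H25.CO.mv_isSub hW

theorem isSub_top : IsSub (⊤ : Lt hv n) := fun _ _ _ => Submodule.mem_top

theorem isSub_bot : IsSub (⊥ : Lt hv n) := by
  intro c x hx
  rw [Submodule.mem_bot] at hx
  rw [hx, smul_zero]
  exact Submodule.zero_mem _

theorem isSub_inf {W W' : Lt hv n} (hW : IsSub W) (hW' : IsSub W') : IsSub (W ⊓ W') :=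
  fun c x hx => ⟨hW c x hx.1, hW' c x hx.2⟩

theorem isSub_sup {W W' : Lt hv n} (hW : IsSub W) (hW' : IsSub W') : IsSub (W ⊔ W') := by
  intro c x hx
  obtain ⟨y, hy, z, hz, rfl⟩ := Submodule.mem_sup.1 hx
  rw [smul_add]
  exact Submodule.add_mem_sup (hW c y hy) (hW' c z hz)

end Pool.Agent.H75.CO
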