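import Pool.Agent.H75.CO.Ilv
import Pool.Agent.H75.CO.Enu

/-!
# [H75 CO Shf] the enumerations of two towers

`Φ`, `Φ'` the shapes of level `l`, `η = 2 ep n`, `j = (d l).j ≤ n`.
`pt_match`: `μ` of `pt_il`. The inequality for `match_left`: `2 * (2 R Λ (a_r + 1)) + 2 (R + 1) + 4 R + 10 ≤ Λ (be_r + 1) / 4 - 2 R` (`a_r + 10 ≤ be_r`).
(m1): `x ∈ Le Φ (md n j) ⊆ Le Φ (cc n (j + 1)) ⊆ Le Φ (cc n j)` (`le_anti`, the hypothesis `Gap`). `match_left` with `c = cc n j`: `x' ∈ Le Φ' (cc n j - 2 η) ⊆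
Le Φ' (md n j)` (`md_cc`). (m2): `match_left` for `IL2.symm` and `c = md n j`: `x ∈ Le Φ (md n j - 2 η) ⊆ Le Φ (cc n (j + 1)) ⊆ Le Φ (cc n j) ⊆ Le Φ (md n j)`.
`exists_wd`: `En` for `Le Φ' (md n j)`: `exists_en` with `c = md n j`: `le_sep`, `le_add_int`; not empty: (m1) for `p l 0`. Choose `p'` and define `f'` by the
formula in `Wd.eq`.
`en_del`: `en_shift` with `η = 2 ep n`, `c = md n j` (`ep_md`), `μ`; `|δ| * md ≤ |μ| + 2 ≤ R + 3 ≤ RR * md`.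
-/

set_option autoImplicit false

namespace Pool.Agent.H75.CO

open Pool.Agent.H54.TT Pool.Agent.H98.RH Matrix
open scoped Pointwise

variable {K : Type} [Field K] {v : K → ℤ} {hv : IsDV v} {n : ℕ} {π : Kˣ} {G : Type} [Group G]
  {ρ : G →* GL (Fin n) K} {S : Set G} {R : ℕ}

/-- the precision is large -/
theorem pt_num {c r : ℕ} {d : ℕ → Dat n (NN n)} {g s : G} {B0 B : ℝ → Lt hv n} {W W' : ℕ → Lt hv n}
    (h : Pt π ρ S R c r d g s B0 B W W') {μ : ℝ} (hμ : |μ| ≤ R + 1) :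
    2 * (2 * R * Ln (AA n R) c ((d r).a + 1) : ℝ) + 2 * |μ| + 4 * R + 10 ≤
      (Ln (AA n R) c ((d r).be + 1) : ℝ) / 4 - 2 * R := by
  obtain ⟨-, h2, h3⟩ := h.hd.c1 r le_rfl
  have h4 : ((d r).a : ℕ) + 1 < ((d r).be : ℕ) + 1 := by omega
  have h5 := Ln_R_lt n R c h4
  have h6 := Ln_R n R h.hc (j := ((d r).be : ℕ) + 1) (by omega)
  have h7 := Ln_big n R h.hc (j := ((d r).be : ℕ) + 1) (by omega)
  have h8 : (0 : ℝ) ≤ (R : ℝ) := Nat.cast_nonneg R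
  have h9 : (0 : ℝ) ≤ (R : ℝ) * Ln (AA n R) c ((d r).a + 1) := by positivity
  linarith

theorem le_one {P : ℝ → Lt hv n} (hP : Nm π P) {c : ℝ} (t : ℝ) : t + 1 ∈ Le P c ↔ t ∈ Le P c := by
  have h1 := le_add_int hP (c := c) (t := t) 1
  rwa [Int.cast_one] at h1

/-- the shapes of level `l` correspond -/
theorem pt_match {c r : ℕ} {d : ℕ → Dat n (NN n)} {g s : G} {B0 B : ℝ → Lt hv n} {W W' : ℕ → Lt hv n}
    (h : Pt π ρ S R c r d g s B0 B W W') (hg : Gap π ρ S (AA n R) c r d g B0 W) {l : ℕ} (hl : l ≤ r) :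
    ∃ μ : ℝ, |μ| ≤ R + 1 ∧ IL2 π (La hv ρ g) (La hv ρ (g * s)) (W l) (W (l + 1)) (W' l) (W' (l + 1))
      (Sp π ρ S (AA n R) c (d l) g B0 (W l) (W (l + 1))) (Sp π ρ S (AA n R) c (d l) (g * s) B (W' l) (W' (l + 1)))
      R μ (2 * ep n) (2 * R * Ln (AA n R) c ((d r).a + 1)) ((Ln (AA n R) c ((d r).be + 1) : ℝ) / 4 - 2 * R) ∧
      (∀ x ∈ Le (Sp π ρ S (AA n R) c (d l) g B0 (W l) (W (l + 1))) (md n (d l).j),
        ∃ x' ∈ Le (Sp π ρ S (AA n R) c (d l) (g * s) B (W' l) (W' (l + 1))) (md n (d l).j), |x' - x - μ| ≤ 2 * ep n) ∧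
      ∀ x' ∈ Le (Sp π ρ S (AA n R) c (d l) (g * s) B (W' l) (W' (l + 1))) (md n (d l).j),
        ∃ x ∈ Le (Sp π ρ S (AA n R) c (d l) g B0 (W l) (W (l + 1))) (md n (d l).j), |x' - x - μ| ≤ 2 * ep n := by
  obtain ⟨μ, hμ, h1⟩ := pt_il h hl
  have hj : ((d l).j : ℕ) ≤ n := Nat.lt_succ_iff.1 (d l).j.2
  have hD := pt_num h hμ
  have hep := ep_pos n
  have e1 := md_cc hj
  have e2 := cc_md hj
  have e3 := ep_md hj
  have hX : (0 : ℝ) ≤ 2 * R * Ln (AA n R) c ((d r).a + 1) := by positivity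
  have hm : Monotone (Sp π ρ S (AA n R) c (d l) g B0 (W l) (W (l + 1))) := h1.bk.nm.mono
  have hm' : Monotone (Sp π ρ S (AA n R) c (d l) (g * s) B (W' l) (W' (l + 1))) := h1.bk'.nm.mono
  have hc0 : (0 : ℝ) ≤ cc n ((d l).j + 1) := (cc_pos n _).le
  refine ⟨μ, hμ, h1, fun x hx => ?_, fun x' hx' => ?_⟩
  · have h2 : x ∈ Le (Sp π ρ S (AA n R) c (d l) g B0 (W l) (W (l + 1))) (cc n (d l).j) :=
      hg l hl (le_anti hm hc0 (by linarith) hx)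
    obtain ⟨x', h3, h4⟩ := match_left h.hs.unif h1 (by linarith) hX hD (by linarith) (cc_le_one n _) h2
    exact ⟨x', le_anti hm' (by linarith) (by linarith) h3, h4⟩
  · have hD' : 2 * (2 * R * Ln (AA n R) c ((d r).a + 1) : ℝ) + 2 * |(-μ)| + 4 * R + 10 ≤
        (Ln (AA n R) c ((d r).be + 1) : ℝ) / 4 - 2 * R := by
      rw [abs_neg]
      exact hD
    obtain ⟨x, h3, h4⟩ := match_left h.hs.unif h1.symm (by linarith) hX hD' (by linarith) (md_le_one n _) hx'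
    refine ⟨x, le_anti hm (by linarith) (by linarith) (hg l hl (le_anti hm hc0 (by linarith) h3)), ?_⟩
    rw [← abs_neg]
    refine le_trans (le_of_eq ?_) h4
    congr 1
    ring

/-- existence of the windows of the second tower -/
theorem exists_wd {c r : ℕ} {d : ℕ → Dat n (NN n)} {g s : G} {B0 B : ℝ → Lt hv n} {W W' : ℕ → Lt hv n}
    (h : Pt π ρ S R c r d g s B0 B W W') (hg : Gap π ρ S (AA n R) c r d g B0 W) {p : ℕ → ℤ → ℝ}
    {f : (Fin (r + 1) → ℤ) → Lt hv n} (hf : Wd π ρ S (AA n R) c r d g B0 W p f) :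
    ∃ p' f', Wd π ρ S (AA n R) c r d (g * s) B W' p' f' := by
  classical
  have h1 : ∀ l, ∃ q : ℤ → ℝ, l ≤ r → En (Le (Sp π ρ S (AA n R) c (d l) (g * s) B (W' l) (W' (l + 1))) (md n (d l).j))
      (l * Gm (AA n R) c r d) q := by
    intro l
    by_cases hl : l ≤ r
    · obtain ⟨μ, -, h2, h3, -⟩ := pt_match h hg hl
      have hj : ((d l).j : ℕ) ≤ n := Nat.lt_succ_iff.1 (d l).j.2
      have e3 := ep_md hj
      have hep := ep_pos n
      have h4 : p l 0 ∈ Le (Sp π ρ S (AA n R) c (d l) g B0 (W l) (W (l + 1))) (md n (d l).j) := by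
        rw [← (hf.en l hl).rng]
        exact ⟨0, rfl⟩
      obtain ⟨x', hx', -⟩ := h3 _ h4
      obtain ⟨q, hq⟩ := exists_en (P := Le (Sp π ρ S (AA n R) c (d l) (g * s) B (W' l) (W' (l + 1))) (md n (d l).j))
        (c := md n (d l).j) (by linarith) (fun x hx y hy hxy => le_sep h2.bk'.nm.mono hx hy hxy)
        (fun x => le_one h2.bk'.nm x) ⟨x', hx'⟩ (l * Gm (AA n R) c r d)
      exact ⟨q, fun _ => hq⟩
    · exact ⟨fun _ => 0, fun hl' => absurd hl' hl⟩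
  choose q hq using h1
  exact ⟨q, fun i => ⨆ l : Fin (r + 1), Sp π ρ S (AA n R) c (d l) (g * s) B (W' l) (W' (l + 1)) (q l (i l)) ⊓
    bl π (La hv ρ (g * s)) (l * Gm (AA n R) c r d + Gm (AA n R) c r d / 2), fun l hl => hq l hl, fun _ => rfl⟩

/-- the enumerations are shifts of each other -/
theorem en_del {c r : ℕ} {d : ℕ → Dat n (NN n)} {g s : G} {B0 B : ℝ → Lt hv n} {W W' : ℕ → Lt hv n}
    (h : Pt π ρ S R c r d g s B0 B W W') (hg : Gap π ρ S (AA n R) c r d g B0 W) {p p' : ℕ → ℤ → ℝ}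
    {f f' : (Fin (r + 1) → ℤ) → Lt hv n} (hf : Wd π ρ S (AA n R) c r d g B0 W p f)
    (hf' : Wd π ρ S (AA n R) c r d (g * s) B W' p' f') {l : ℕ} (hl : l ≤ r) :
    ∃ (μ : ℝ) (δ : ℤ), |δ| ≤ RR n R ∧ (∀ i, |p' l i - p l (i + δ) - μ| ≤ 2 * ep n) ∧
      IL2 π (La hv ρ g) (La hv ρ (g * s)) (W l) (W (l + 1)) (W' l) (W' (l + 1))
      (Sp π ρ S (AA n R) c (d l) g B0 (W l) (W (l + 1))) (Sp π ρ S (AA n R) c (d l) (g * s) B (W' l) (W' (l + 1)))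
      R μ (2 * ep n) (2 * R * Ln (AA n R) c ((d r).a + 1)) ((Ln (AA n R) c ((d r).be + 1) : ℝ) / 4 - 2 * R) := by
  obtain ⟨μ, hμ, h2, h3, h4⟩ := pt_match h hg hl
  have hj : ((d l).j : ℕ) ≤ n := Nat.lt_succ_iff.1 (d l).j.2
  have e3 := ep_md hj
  have hep := ep_pos n
  have e4 := ep_le n
  obtain ⟨δ, h5, h6⟩ := en_shift (μ := μ) (η := 2 * ep n) (c := md n (d l).j) (by linarith) (by linarith) (by linarith)
    (fun x hx y hy hxy => le_sep h2.bk.nm.mono hx hy hxy) (fun x hx y hy hxy => le_sep h2.bk'.nm.mono hx hy hxy)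
    (fun x => le_one h2.bk.nm x) (fun x => le_one h2.bk'.nm x) (hf.en l hl) (hf'.en l hl) h3 h4
  refine ⟨μ, δ, ?_, h5, h2⟩
  have h7 := RR_md R hj
  have h8 : |(δ : ℝ)| * md n (d l).j ≤ RR n R * md n (d l).j := by linarith
  have h9 : |(δ : ℝ)| ≤ (RR n R : ℝ) := le_of_mul_le_mul_right h8 (by linarith)
  exact_mod_cast h9

end Pool.Agent.H75.CO
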