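import Pool.Agent.H75.CO.Wkt
import Pool.Agent.H75.CO.Shf
import Pool.Agent.H75.CO.Flt

/-!
# [H75 CO Sta] stability

`sh_eq`: write `M = La g`, `M' = La g'`, `X_l = l Γ + Γ / 2`, `Γ = Gm`, `q l = p l (i l + δ l)`, `q' l = p' l (i l)`, `D = Λ (be_r + 1) / 4 - 2 R`, `X0 = 2 R Λ (a_r + 1)`,
`C = c + 1`, `η = 2 ep n`. `|q l - l Γ| ≤ C`, `|q' l - l Γ| ≤ C` by `En.pos` (`|i l + δ l| ≤ c`). `q l + X0 ≤ X_l`, `q' l + X0 ≤ X_l` (`C + X0 ≤ Γ / 2`).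
(1) `Φ l (q l) ⊓ bl M X_l ≤ Φ' l (q' l) ⊔ bl M (X_l - D)`: `il` of `IL2` for `t = q l`, and `Φ' l (q l + μ + η) = Φ' l (q' l)` as
`q' l ≤ q l + μ + η ≤ q' l + 2 η ≤ q' l + md` (`Le`, `Nm.mono`). (2) `Φ' l (q' l) ⊓ bl M' X_l ≤ Φ l (q l) ⊔ bl M' (X_l - D)`: `il'` for `t = q' l`, and
`q l ≤ q' l - μ + η ≤ q l + 2 η`. Then `flat_le` in both directions (`hM`, `bk'` resp. `hM'`, `bk`; `Tw.top`, `Tw.bot`). The inequalities:
`2 (C + X0 + R + 2) ≤ Γ = Λ (be_r - 2)`: `a_r + 1 < be_r - 2`; `(r + 1) Γ + C + R + 2 ≤ Λ (be_r + 1) / 4 - 2 R`: `r + 1 ≤ n`, `Ln_n_lt`.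
`stable'`: let `St` be given by `W`, `p`. Existence: `tw_weak`, so `Pt .. W W`; `exists_wd`. Uniqueness: let `Wk .. f'` be given by `W'`, `p'`: `Pt .. W W'`; for every `l ≤ r`
`en_del` gives `δ l`, `μ l` (choice); `δ` as a function on `Fin (r + 1)`; `sh_eq`.
-/

set_option autoImplicit false

namespace Pool.Agent.H75.CO

open Pool.Agent.H54.TT Pool.Agent.H98.RH Matrix
open scoped Pointwise

variable {K : Type} [Field K] {v : K → ℤ} {hv : IsDV v} {n : ℕ} {π : Kˣ} {G : Type} [Group G]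
  {ρ : G →* GL (Fin n) K} {S : Set G} {R : ℕ}

theorem sh_eq {c r : ℕ} {d : ℕ → Dat n (NN n)} {g s : G} {B0 B : ℝ → Lt hv n} {W W' : ℕ → Lt hv n}
    (h : Pt π ρ S R c r d g s B0 B W W') {p p' : ℕ → ℤ → ℝ} {f f' : (Fin (r + 1) → ℤ) → Lt hv n}
    (hf : Wd π ρ S (AA n R) c r d g B0 W p f) (hf' : Wd π ρ S (AA n R) c r d (g * s) B W' p' f') {μ : ℕ → ℝ}
    {δ : ℕ → ℤ} (hδ : ∀ l, l ≤ r → ∀ i, |p' l i - p l (i + δ l) - μ l| ≤ 2 * ep n)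
    (hil : ∀ l, l ≤ r → IL2 π (La hv ρ g) (La hv ρ (g * s)) (W l) (W (l + 1)) (W' l) (W' (l + 1))
      (Sp π ρ S (AA n R) c (d l) g B0 (W l) (W (l + 1))) (Sp π ρ S (AA n R) c (d l) (g * s) B (W' l) (W' (l + 1)))
      R (μ l) (2 * ep n) (2 * R * Ln (AA n R) c ((d r).a + 1)) ((Ln (AA n R) c ((d r).be + 1) : ℝ) / 4 - 2 * R))
    {i : Fin (r + 1) → ℤ} (hi : ∀ l, |i l| ≤ c) (hi' : ∀ l : Fin (r + 1), |i l + δ l| ≤ c) :
    f' i = f (fun l => i l + δ l) := by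
  have hs := h.hs
  have hd := h.hd
  have hep := ep_pos n
  have hR : (0 : ℝ) ≤ R := Nat.cast_nonneg R
  have hcR : (0 : ℝ) ≤ c := Nat.cast_nonneg c
  have hc1 := hd.c1 r le_rfl
  set iN : ℕ → ℤ := fun l => if h : l < r + 1 then i ⟨l, h⟩ else 0 with hiN
  have hiN1 : ∀ l : Fin (r + 1), iN l = i l := fun l => by rw [hiN]; simp only [l.isLt, dif_pos]
  have hiN2 : ∀ l, l ≤ r → |iN l| ≤ c := fun l hl => by
    have h1 := hi ⟨l, by omega⟩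
    rwa [← hiN1] at h1
  have hiN3 : ∀ l, l ≤ r → |iN l + δ l| ≤ c := fun l hl => by
    have h1 := hi' ⟨l, by omega⟩
    rwa [← hiN1] at h1
  -- positions
  have hper : ∀ {Φ : ℝ → Lt hv n} (_ : Nm π Φ) (x : ℝ) (c : ℝ), x + 1 ∈ Le Φ c ↔ x ∈ Le Φ c := fun hΦ x c => by
    have h1 := le_add_int hΦ (c := c) (t := x) 1
    rwa [Int.cast_one] at h1
  have hq : ∀ l, l ≤ r → |p l (iN l + δ l) - l * Gm (AA n R) c r d| ≤ c + 1 := fun l hl => by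
    have h1 := (hf.en l hl).pos (fun x => hper (hil l hl).bk.nm x _) (iN l + δ l)
    have h2 : |((iN l + δ l : ℤ) : ℝ)| ≤ c := by exact_mod_cast hiN3 l hl
    linarith
  have hq' : ∀ l, l ≤ r → |p' l (iN l) - l * Gm (AA n R) c r d| ≤ c + 1 := fun l hl => by
    have h1 := (hf'.en l hl).pos (fun x => hper (hil l hl).bk'.nm x _) (iN l)
    have h2 : |((iN l : ℤ) : ℝ)| ≤ c := by exact_mod_cast hiN2 l hl
    linarith
  -- numbers
  have e1 : 1000000 * ((R : ℝ) * Ln (AA n R) c ((d r).a + 1)) ≤ Ln (AA n R) c ((d r).be - 2) :=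
    Ln_R_lt n R c (by omega)
  have e2 : 1000000 * (Ln (AA n R) c ((d r).a + 1) : ℝ) ≤ Ln (AA n R) c ((d r).be - 2) :=
    Ln_one_lt n R c (by omega)
  have e3 : (c : ℝ) ≤ Ln (AA n R) c ((d r).a + 1) := Ln_ge n R _
  have e4 : (1 : ℝ) ≤ Ln (AA n R) c ((d r).a + 1) := Ln_one n R h.hc _
  have e5 : 1000000 * ((n : ℝ) * Ln (AA n R) c ((d r).be - 2)) ≤ Ln (AA n R) c ((d r).be + 1) :=
    Ln_n_lt n R c (by omega)
  have e6 : 1000000 * (Ln (AA n R) c ((d r).be - 2) : ℝ) ≤ Ln (AA n R) c ((d r).be + 1) :=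
    Ln_one_lt n R c (by omega)
  have e7 : ((r : ℝ) + 1) ≤ n := by exact_mod_cast hd.lt
  have e8 : (1 : ℝ) ≤ Ln (AA n R) c ((d r).be - 2) := Ln_one n R h.hc _
  have e9 : (R : ℝ) ≤ R * Ln (AA n R) c ((d r).a + 1) := le_mul_of_one_le_right hR e4
  have e10 : ((r : ℝ) + 1) * Ln (AA n R) c ((d r).be - 2) ≤ n * Ln (AA n R) c ((d r).be - 2) :=
    mul_le_mul_of_nonneg_right e7 (by linarith)
  have hG : Gm (AA n R) c r d = Ln (AA n R) c ((d r).be - 2) := rfl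
  have hX : ∀ (q : ℝ) (l : ℕ), |q - l * Gm (AA n R) c r d| ≤ c + 1 →
      q + 2 * R * Ln (AA n R) c ((d r).a + 1) ≤ l * Gm (AA n R) c r d + Gm (AA n R) c r d / 2 := fun q l hq0 => by
    have h1 := (abs_le.1 hq0).2
    rw [hG] at h1 ⊢
    linarith
  have hcon : ∀ {Φ : ℝ → Lt hv n} (_ : Nm π Φ) {x y : ℝ} {j : ℕ} (_ : j ≤ n) (_ : x ∈ Le Φ (md n j)) (_ : x ≤ y)
      (_ : y ≤ x + 4 * ep n), Φ y = Φ x := fun {Φ} hΦ {x y j} hj hx h1 h2 => by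
    have h3 := ep_md hj
    exact le_antisymm ((hΦ.mono (by linarith : y ≤ x + md n j)).trans_eq hx.1.symm) (hΦ.mono h1)
  -- the comparison of the pieces
  have hle : ∀ l, l ≤ r → Sp π ρ S (AA n R) c (d l) g B0 (W l) (W (l + 1)) (p l (iN l + δ l)) ⊓
      bl π (La hv ρ g) (l * Gm (AA n R) c r d + Gm (AA n R) c r d / 2) ≤
      Sp π ρ S (AA n R) c (d l) (g * s) B (W' l) (W' (l + 1)) (p' l (iN l)) ⊔
        bl π (La hv ρ g) (l * Gm (AA n R) c r d + Gm (AA n R) c r d / 2 -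
          ((Ln (AA n R) c ((d r).be + 1) : ℝ) / 4 - 2 * R)) := fun l hl => by
    have h1 := (hil l hl).il (p l (iN l + δ l)) _ (hX _ l (hq l hl))
    have h2 := abs_le.1 (hδ l hl (iN l))
    have h3 : p' l (iN l) ∈ Le (Sp π ρ S (AA n R) c (d l) (g * s) B (W' l) (W' (l + 1))) (md n (d l).j) := by
      rw [← (hf'.en l hl).rng]
      exact ⟨_, rfl⟩
    rwa [hcon (hil l hl).bk'.nm (Nat.lt_succ_iff.1 (d l).j.isLt) h3 (by linarith [h2.1, h2.2])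
      (by linarith [h2.1, h2.2])] at h1
  have hle' : ∀ l, l ≤ r → Sp π ρ S (AA n R) c (d l) (g * s) B (W' l) (W' (l + 1)) (p' l (iN l)) ⊓
      bl π (La hv ρ (g * s)) (l * Gm (AA n R) c r d + Gm (AA n R) c r d / 2) ≤
      Sp π ρ S (AA n R) c (d l) g B0 (W l) (W (l + 1)) (p l (iN l + δ l)) ⊔
        bl π (La hv ρ (g * s)) (l * Gm (AA n R) c r d + Gm (AA n R) c r d / 2 -
          ((Ln (AA n R) c ((d r).be + 1) : ℝ) / 4 - 2 * R)) := fun l hl => by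
    have h1 := (hil l hl).il' (p' l (iN l)) _ (hX _ l (hq' l hl))
    have h2 := abs_le.1 (hδ l hl (iN l))
    have h3 : p l (iN l + δ l) ∈ Le (Sp π ρ S (AA n R) c (d l) g B0 (W l) (W (l + 1))) (md n (d l).j) := by
      rw [← (hf.en l hl).rng]
      exact ⟨_, rfl⟩
    rwa [hcon (hil l hl).bk.nm (Nat.lt_succ_iff.1 (d l).j.isLt) h3 (by linarith [h2.1, h2.2])
      (by linarith [h2.1, h2.2])] at h1
  have hXn : (0 : ℝ) ≤ 2 * R * Ln (AA n R) c ((d r).a + 1) := by positivity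
  have n1 : 2 * ((c : ℝ) + 1 + 2 * R * Ln (AA n R) c ((d r).a + 1) + R + 2) ≤ Gm (AA n R) c r d := by
    rw [hG]
    linarith
  have n2 : ((r : ℝ) + 1) * Gm (AA n R) c r d + (c + 1) + R + 2 ≤
      (Ln (AA n R) c ((d r).be + 1) : ℝ) / 4 - 2 * R := by
    rw [hG]
    linarith
  have k1 := flat_le hs.unif (r := r) (hil 0 (Nat.zero_le r)).hM h.tw'.top h.tw'.bot (fun l hl => (hil l hl).bk') hq'
    hle hXn (by positivity) n1 n2
  have k2 := flat_le hs.unif (r := r) (hil 0 (Nat.zero_le r)).hM' h.tw.top h.tw.bot (fun l hl => (hil l hl).bk) hq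
    hle' hXn (by positivity) n1 n2
  rw [hf.eq, hf'.eq]
  simp only [hiN1] at k1 k2
  exact le_antisymm k2 k1

/-- (C2) -/
theorem stable' (hn : 0 < n) (hs : Stp hv π ρ S R) {c : ℕ} (hc : 1 ≤ c) {r : ℕ} {d : ℕ → Dat n (NN n)} (hd : Rg r d)
    {g s : G} (hsS : s ∈ S) {B0 B : ℝ → Lt hv n} (hB0 : Hn B0) (hB : Hn B)
    (hcl : Cl π (La hv ρ g) B B0 (ep n) (Ln (AA n R) c (NN n))) {f : (Fin (r + 1) → ℤ) → Lt hv n}
    (hf : St π ρ S (AA n R) c r d g B0 f) :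
    (∃ f', Wk π ρ S (AA n R) c r d (g * s) B f') ∧
      ∀ f' : (Fin (r + 1) → ℤ) → Lt hv n, Wk π ρ S (AA n R) c r d (g * s) B f' →
        ∃ δ : Fin (r + 1) → ℤ, (∀ l, |δ l| ≤ RR n R) ∧
          ∀ i : Fin (r + 1) → ℤ, (∀ l, |i l| + RR n R ≤ c) → f' i = f (i + δ) := by
  obtain ⟨W, p, hT, hg, hw⟩ := hf
  constructor
  · have hT' := tw_weak hn hs hc hd hsS hB0 hB hcl hT
    have hP : Pt π ρ S R c r d g s B0 B W W := ⟨hn, hs, hc, hd, hsS, hB0, hB, hcl, hT, hT'⟩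
    obtain ⟨p', f', hw'⟩ := exists_wd hP hg hw
    exact ⟨f', W, p', hT', hw'⟩
  · rintro f' ⟨W', p', hT', hw'⟩
    have hP : Pt π ρ S R c r d g s B0 B W W' := ⟨hn, hs, hc, hd, hsS, hB0, hB, hcl, hT, hT'⟩
    have h1 : ∀ l : ℕ, ∃ (μ : ℝ) (δ : ℤ), l ≤ r → |δ| ≤ RR n R ∧ (∀ i, |p' l i - p l (i + δ) - μ| ≤ 2 * ep n) ∧
        IL2 π (La hv ρ g) (La hv ρ (g * s)) (W l) (W (l + 1)) (W' l) (W' (l + 1))
        (Sp π ρ S (AA n R) c (d l) g B0 (W l) (W (l + 1))) (Sp π ρ S (AA n R) c (d l) (g * s) B (W' l) (W' (l + 1)))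
        R μ (2 * ep n) (2 * R * Ln (AA n R) c ((d r).a + 1))
        ((Ln (AA n R) c ((d r).be + 1) : ℝ) / 4 - 2 * R) := fun l => by
      by_cases hl : l ≤ r
      · obtain ⟨μ, δ, h2⟩ := en_del hP hg hw hw' hl
        exact ⟨μ, δ, fun _ => h2⟩
      · exact ⟨0, 0, fun h => absurd h hl⟩
    choose μ δ h1 using h1
    refine ⟨fun l => δ l, fun l => (h1 l (by omega)).1, fun i hi => ?_⟩
    have h3 := sh_eq hP hw hw' (μ := μ) (δ := δ) (fun l hl => (h1 l hl).2.1) (fun l hl => (h1 l hl).2.2) (i := i)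
      (fun l => by
        have h4 := hi l
        omega)
      (fun l => by
        have h4 := hi l
        have h5 := (h1 l (by omega)).1
        exact (abs_add_le _ _).trans (by omega))
    rw [h3]
    rfl

end Pool.Agent.H75.CO
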