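import Pool.Agent.H75.CO.Kcm
import Pool.Agent.H75.CO.Cmp
import Pool.Agent.H75.CO.Num

/-!
# [H75 CO Wkt] strong towers are weak towers at the neighbours

Write `Λ i = Ln (AA n R) c i`, `g' = g * s`, `M' = Λ (be - 2)`, `e = ep n`.
`kap_top`: `≤`: `kap_nonpos`. `≥`: by `kap_le_iff` let `La g ≤ sg (La g) B k t`; the first vector `x` of an adapted basis is in `La g`, its
coordinate `0` is `1`, and `mem_sg` says `-t - max (β 0 - β k) 0 ≤ v 1 = 0`, `β 0 ≤ β k`; so `0 ≤ t`.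
`y2_change`: let `x ∈ W ⊓ La g'`: `π ^ R x ∈ La g ⊓ sg (La g) B0 k' (-Y) ≤ sg (La g) B k' (-Y + e)` (`Cl`, `-D ≤ -Y`), `≤ sg (La g') B k' (-Y + e + 2 R)`
(`sg_change`), so `x ∈ sg (La g') B k' (-Y + e + 3 R)`.
`lv_weak`: `kap_cmp` for `W' = W`, `m = M' + 1`, `Y1 = Λ al`, `Y2 = Λ be - 3 R - e` (`y2_change`), `D = Λ (NN n) ≥ Λ be`: there is `l`, `|l| ≤ R`, with
`|κ' (g t) - κ (g t) - l| ≤ e` for `t ∈ S ^ (M' + 1)`, `κ = kap B0 W k g`, `κ' = kap B W k g'`.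
y1: `W = ⊤`: `kap_top`. Otherwise `κ' g' ≥ κ g' + l - e ≥ κ g - 2 R - e ≥ -Λ al - 2 R - 1 ≥ -2 Λ al` (`kap_lip`, `Ln_R`, `Ln_big`).
y2: `y2_change`, `-Λ be + e + 3 R ≤ -Λ be / 2`.
t1: let `x ∈ W1 ⊓ La g'`. `π ^ R x ∈ W1 ⊓ La g ≤ hl g M' W κ (κ g - Λ b) ≤ hl g' M' W κ' (κ g - Λ b + l + e + 2 R)` (`hl_cmp0'`), so
`x ∈ hl g' M' W κ' (κ g - Λ b + l + e + 3 R)`, and `κ g + l ≤ κ' g + e ≤ κ' g' + R + e`, `Λ b ≥ 2 (4 R + 2 e)`.
t2: let `T ≤ Λ b / 2`, `x ∈ La g' ⊓ hl g' M' W κ' (κ' g' - T)`. By `hl_cmp0'` with `g := g'`, `s := s⁻¹` (`g' t = g (s t)`, `s t ∈ S ^ (M' + 1)`)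
`x ∈ hl g M' W κ (κ' g' - T - l + e + 2 R)`, `κ' g' - l ≤ κ g' + e ≤ κ g + R + e`. So `π ^ R x ∈ La g ⊓ hl g M' W κ (κ g - T')`,
`T' = T - 2 R - 2 e ≤ Λ b`, and `π ^ R x ∈ W1 ⊔ bl (La g) (Λ a - T')`, `x ∈ W1 ⊔ bl (La g) (Λ a - T + 3 R + 2 e) ≤ W1 ⊔ bl (La g') (Λ a - T + 4 R + 2 e)`,
`4 R + 2 e ≤ Λ a`.
`tw_weak`: for `l = 0` `W 0 = ⊤`; for `l = l' + 1` `1 ≤ (d l).al` by `c1`, `c2` of `Rg` for `l'`.
-/

set_option autoImplicit false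

namespace Pool.Agent.H75.CO

open Pool.Agent.H54.TT Pool.Agent.H98.RH Matrix
open scoped Pointwise

variable {K : Type} [Field K] {v : K → ℤ} {hv : IsDV v} {n : ℕ} {π : Kˣ} {G : Type} [Group G]
  {ρ : G →* GL (Fin n) K} {S : Set G} {R : ℕ}

/-- the least valuation of a sum of balls: multiples -/
private theorem nm_sh {P : ℝ → Lt hv n} (hP : Nm π P) (m : ℕ) (t : ℝ) : sh π (-(m : ℤ)) (P t) = P (t + m) := by
  have h := hP.per t (m : ℤ)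
  rw [← h]
  norm_cast

private theorem top_ne (hn : 0 < n) : (⊤ : Lt hv n) ≠ ⊥ := by
  intro h
  have h1 : (Pi.single (⟨0, hn⟩ : Fin n) (1 : K) : Fin n → K) ∈ (⊤ : Lt hv n) := Submodule.mem_top
  rw [h, Submodule.mem_bot] at h1
  have h2 := congrFun h1 ⟨0, hn⟩
  rw [Pi.single_eq_same] at h2
  exact one_ne_zero h2

theorem kap_top (hn : 0 < n) (hs : Stp hv π ρ S R) {B : ℝ → Lt hv n} (hB : Hn B) (k : Fin n) (g : G) :
    kap π ρ B (⊤ : Lt hv n) k g g = 0 := by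
  have hπ := hs.unif
  have hne := top_ne (hv := hv) hn
  refine le_antisymm (kap_nonpos hs hB isSub_top hne k g) ?_
  have h1 := (kap_le_iff hs hB isSub_top hne k g g _).2 le_rfl
  obtain ⟨e, β, hA⟩ := hB (ρ g)
  set t := kap π ρ B (⊤ : Lt hv n) k g g with ht
  have hv1 : v 1 = 0 := by
    have := hv.mul 1 1 one_ne_zero one_ne_zero
    rw [mul_one] at this
    omega
  let x : Fin n → K := e.val *ᵥ Pi.single (⟨0, hn⟩ : Fin n) (1 : K)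
  have hx : (e⁻¹ : GL (Fin n) K).val *ᵥ x = Pi.single (⟨0, hn⟩ : Fin n) (1 : K) := by
    show (e⁻¹ : GL (Fin n) K).val *ᵥ (e.val *ᵥ Pi.single (⟨0, hn⟩ : Fin n) (1 : K)) = _
    rw [Matrix.mulVec_mulVec, ← Units.val_mul, inv_mul_cancel, Units.val_one, Matrix.one_mulVec]
  have hxL : x ∈ La hv ρ g := by
    have h2 : x ∈ sh π 0 (LM hv e) := by
      rw [mem_sh_LM hπ]
      intro i hi
      rw [hx] at hi ⊢
      by_cases h : i = ⟨0, hn⟩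
      · rw [h, Pi.single_eq_same, hv1]
      · exact absurd (Pi.single_eq_of_ne h _) hi
    rw [sh_zero, hA.lat] at h2
    exact h2
  have h3 : x ∈ sg π (LM hv (ρ g)) B k t := h1 ⟨hxL, Submodule.mem_top⟩
  rw [mem_sg hπ hA] at h3
  have h4 := h3 ⟨0, hn⟩
  rw [hx, Pi.single_eq_same] at h4
  have h5 := h4 one_ne_zero
  rw [hv1, max_eq_right] at h5
  · push_cast at h5; linarith
  · have := hA.mono (show (⟨0, hn⟩ : Fin n) ≤ k from Fin.le_def.2 (Nat.zero_le _))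
    linarith

theorem y2_change (hs : Stp hv π ρ S R) {B0 B : ℝ → Lt hv n} (hB : Hn B) {g s : G} (hsS : s ∈ S)
    {e D Y : ℝ} (hcl : Cl π (La hv ρ g) B B0 e D) (hY : Y ≤ D) {W : Lt hv n} (hW : IsSub W) {k' : Fin n}
    (h : W ⊓ La hv ρ g ≤ sg π (La hv ρ g) B0 k' (-Y)) :
    W ⊓ La hv ρ (g * s) ≤ sg π (La hv ρ (g * s)) B k' (-(Y - 3 * R - e)) := by
  have hπ := hs.unif
  have h1 : W ⊓ La hv ρ g ≤ sg π (La hv ρ g) B k' (-Y + e) :=
    (le_inf inf_le_right h).trans (hcl k' (-Y) (by linarith)).2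
  have h2 : sg π (La hv ρ g) B k' (-Y + e) ≤ sg π (La hv ρ (g * s)) B k' (-Y + e + 2 * R) :=
    sg_change hπ hB (La_le hs g hsS) (La_ge hs g hsS) k' _
  have h3 : W ⊓ La hv ρ (g * s) ≤ sh π (-(R : ℤ)) (W ⊓ La hv ρ g) := by
    rw [sh_inf, sh_sub hW]
    exact inf_le_inf_left W (La_ge hs g hsS)
  refine h3.trans ((sh_le_sh.2 (h1.trans h2)).trans (le_of_eq ?_))
  have h4 := nm_sh (sg_nm hπ hB (ρ (g * s)) k') R (-Y + e + 2 * R)
  rw [show -(Y - 3 * R - e) = -Y + e + 2 * R + R by ring]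
  exact h4

theorem lv_weak (hn : 0 < n) (hs : Stp hv π ρ S R) {c : ℕ} (hc : 1 ≤ c) {d : Dat n (NN n)}
    (h1 : (d.al : ℕ) + 4 ≤ d.a) (h2 : (d.a : ℕ) + 6 ≤ d.b) (h3 : (d.b : ℕ) + 4 ≤ d.be) {g s : G} (hsS : s ∈ S)
    {B0 B : ℝ → Lt hv n} (hB0 : Hn B0) (hB : Hn B) (hcl : Cl π (La hv ρ g) B B0 (ep n) (Ln (AA n R) c (NN n)))
    {W W1 : Lt hv n} (hW : IsSub W) (hne : W ≠ ⊥) (hW1 : IsSub W1) (htop : W = ⊤ ∨ 1 ≤ (d.al : ℕ))
    (h : Lv π ρ S (AA n R) c 1 d g B0 W W1) : Lv π ρ S (AA n R) c 2 d (g * s) B W W1 := by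
  have hπ := hs.unif
  have hR0 : (0 : ℝ) ≤ R := Nat.cast_nonneg R
  have hep := ep_pos n
  have hep' := ep_le n
  set Λ : ℕ → ℝ := fun i => (Ln (AA n R) c i : ℝ) with hΛ
  set m : ℕ := Ln (AA n R) c (d.be - 2) with hm
  have hbe : (d.be : ℕ) < NN n := d.be.2
  have a1 : Λ d.be ≤ Λ (NN n) := Ln_mono' n R c hbe.le
  have a2 : 1000000 * Λ d.al ≤ Λ d.be := Ln_one_lt n R c (by omega)
  have a3 : 1000000 * ((R : ℝ) * m) ≤ Λ d.be := Ln_R_lt n R c (by omega)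
  have a4 : 1000000 * (R : ℝ) ≤ Λ d.be := Ln_R n R hc (by omega)
  have a5 : (1000000 : ℝ) ≤ Λ d.be := Ln_big n R hc (by omega)
  have b4 : 1000000 * (R : ℝ) ≤ Λ d.b := Ln_R n R hc (by omega)
  have b5 : (1000000 : ℝ) ≤ Λ d.b := Ln_big n R hc (by omega)
  have c4 : 1000000 * (R : ℝ) ≤ Λ d.a := Ln_R n R hc (by omega)
  have c5 : (1000000 : ℝ) ≤ Λ d.a := Ln_big n R hc (by omega)
  have d5 : (1 : ℝ) ≤ Λ d.al := Ln_one n R hc _
  set κ := kap π ρ B0 W d.k g with hκ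
  set κ' := kap π ρ B W d.k (g * s) with hκ'
  have hy2 : ∀ k' : Fin n, (k' : ℕ) + 1 = d.k →
      W ⊓ La hv ρ (g * s) ≤ sg π (La hv ρ (g * s)) B k' (-(Λ d.be - 3 * R - ep n)) := by
    intro k' hk'
    refine y2_change hs hB hsS hcl a1 hW ?_
    have := h.y2 k' hk'
    rwa [div_one] at this
  have hy1 : -(Λ d.al) ≤ κ g := by
    have := h.y1
    rwa [one_mul] at this
  obtain ⟨l, hl0, hcmp⟩ := kap_cmp (k := d.k) (m := m + 1) hs hB0 hB hsS hW hW hne hne hep.le (by linarith) hcl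
    (Ap.refl _ _ _) (Ap.refl _ _ _) hy1 hy2 (by push_cast; nlinarith) (by push_cast; nlinarith)
  have hcmp' : ∀ t ∈ S ^ m, |κ' (g * t) - κ (g * t) - l| ≤ ep n :=
    fun t ht => hcmp t (hs.pow_mono (Nat.le_succ m) ht)
  have hlp : Lp S R κ := kap_lp hs hB0 hW hne d.k g
  have hlp' : Lp S R κ' := kap_lp hs hB hW hne d.k (g * s)
  have hl1 := abs_le.1 hl0
  have hlg := abs_le.1 (hlp g s hsS)
  have hlg' := abs_le.1 (hlp' g s hsS)
  have hsm : s ∈ S ^ (m + 1) := hs.pow_mono (by omega : 1 ≤ m + 1) (by rw [pow_one]; exact hsS)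
  have hcs := abs_le.1 (hcmp s hsm)
  have hc1 : |κ' (g * 1) - κ (g * 1) - l| ≤ ep n := hcmp' 1 (hs.one_mem m)
  rw [mul_one] at hc1
  have hc1 := abs_le.1 hc1
  have hcs1 : -ep n ≤ κ' (g * s) - κ (g * s) - l := hcs.1
  have hcs2 : κ' (g * s) - κ (g * s) - l ≤ ep n := hcs.2
  have hnl := hl_nm hs hW g m κ
  have hnl' := hl_nm hs hW (g * s) m κ'
  refine ⟨h.le, ?_, ?_, ?_, ?_⟩
  · show -(2 * Λ d.al) ≤ κ' (g * s)
    rcases htop with ht | ht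
    · have h5 : κ' (g * s) = 0 := by rw [hκ', ht]; exact kap_top hn hs hB d.k (g * s)
      rw [h5]; linarith
    · have e4 : 1000000 * (R : ℝ) ≤ Λ d.al := Ln_R n R hc (by omega)
      have e5 : (1000000 : ℝ) ≤ Λ d.al := Ln_big n R hc (by omega)
      linarith
  · intro k' hk'
    refine (hy2 k' hk').trans ((sg_nm hπ hB (ρ (g * s)) k').mono ?_)
    show -(Λ d.be - 3 * R - ep n) ≤ -(Λ d.be / 2)
    linarith
  · show W1 ⊓ La hv ρ (g * s) ≤ hl π ρ S (g * s) m W κ' (κ' (g * s) - Λ d.b / 2)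
    have e1 : W1 ⊓ La hv ρ (g * s) ≤ sh π (-(R : ℤ)) (W1 ⊓ La hv ρ g) := by
      rw [sh_inf, sh_sub hW1]
      exact inf_le_inf_left W1 (La_ge hs g hsS)
    have e2 : W1 ⊓ La hv ρ g ≤ hl π ρ S g m W κ (κ g - Λ d.b) := by
      have := h.t1
      rwa [div_one] at this
    have e3 := hl_cmp0' hs hsS (W := W) hlp' hcmp' (κ g - Λ d.b)
    refine e1.trans ((sh_le_sh.2 (e2.trans e3)).trans ?_)
    rw [nm_sh hnl']
    exact hnl'.mono (by linarith)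
  · intro T hT
    show La hv ρ (g * s) ⊓ hl π ρ S (g * s) m W κ' (κ' (g * s) - T) ≤ W1 ⊔ bl π (La hv ρ (g * s)) (2 * Λ d.a - T)
    have hT' : T ≤ Λ d.b / 2 := hT
    have hsi : s⁻¹ ∈ S := hs.inv s hsS
    have hcm2 : ∀ t ∈ S ^ m, |κ (g * s * t) - κ' (g * s * t) - -l| ≤ ep n := by
      intro t ht
      have := hcmp (s * t) (hs.mul_mem hsS ht)
      rw [← mul_assoc] at this
      rw [abs_sub_comm] at this
      have h6 : κ (g * s * t) - κ' (g * s * t) - -l = l - (κ' (g * s * t) - κ (g * s * t)) := by ring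
      rw [h6]
      exact this
    have e3 := hl_cmp0' hs hsi (g := g * s) (W := W) hlp hcm2 (κ' (g * s) - T)
    rw [mul_inv_cancel_right] at e3
    set X : ℝ := κ' (g * s) - T + -l + ep n + 2 * R with hX
    have e4 : hl π ρ S g m W κ X = sh π (-(R : ℤ)) (hl π ρ S g m W κ (X - R)) := by
      rw [nm_sh hnl, sub_add_cancel]
    have e5 : La hv ρ (g * s) ⊓ hl π ρ S (g * s) m W κ' (κ' (g * s) - T) ≤
        sh π (-(R : ℤ)) (La hv ρ g ⊓ hl π ρ S g m W κ (X - R)) := by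
      rw [sh_inf, ← e4]
      exact inf_le_inf (La_ge hs g hsS) e3
    have e6 : La hv ρ g ⊓ hl π ρ S g m W κ (X - R) ≤ W1 ⊔ bl π (La hv ρ g) (Λ d.a - (T - 2 * R - 2 * ep n)) := by
      have h7 := h.t2 (T - 2 * R - 2 * ep n) (by rw [div_one]; show _ ≤ Λ d.b; linarith)
      rw [one_mul] at h7
      exact (inf_le_inf_left _ (hnl.mono (by rw [hX]; linarith))).trans h7
    refine e5.trans ((sh_le_sh.2 e6).trans ?_)
    rw [sh_sup, sh_sub hW1]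
    refine sup_le_sup_left ?_ W1
    rw [nm_sh (nm_bl hπ (La hv ρ g))]
    refine ((bl_change hπ (La_le hs g hsS) _).trans (bl_mono hπ _ ?_))
    linarith

theorem tw_weak (hn : 0 < n) (hs : Stp hv π ρ S R) {c : ℕ} (hc : 1 ≤ c) {r : ℕ} {d : ℕ → Dat n (NN n)} (hd : Rg r d)
    {g s : G} (hsS : s ∈ S) {B0 B : ℝ → Lt hv n} (hB0 : Hn B0) (hB : Hn B)
    (hcl : Cl π (La hv ρ g) B B0 (ep n) (Ln (AA n R) c (NN n))) {W : ℕ → Lt hv n}
    (h : Tw π ρ S (AA n R) c 1 r d g B0 W) : Tw π ρ S (AA n R) c 2 r d (g * s) B W := by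
  refine ⟨h.top, h.bot, h.ne, h.sub, fun l hl => ?_⟩
  have hc1 := hd.c1 l hl
  have hW1 : IsSub (W (l + 1)) := by
    rcases Nat.lt_or_ge l r with h1 | h1
    · exact h.sub _ h1
    · rw [le_antisymm hl h1, h.bot]; exact isSub_bot
  refine lv_weak hn hs hc hc1.1 hc1.2.1 hc1.2.2 hsS hB0 hB hcl (h.sub l hl) (h.ne l hl) hW1 ?_ (h.lv l hl)
  cases l with
  | zero => exact Or.inl h.top
  | succ k =>
    right
    have h1 := (hd.c2 k (by omega)).1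
    have h2 := (hd.c1 k (by omega)).1
    omega

end Pool.Agent.H75.CO
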